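import Pool.Agent.H261R3.LN.SStmts

set_option autoImplicit false

namespace Pool.Agent.H689R3.Slab

open Pool.Agent.H261R3.LH (Lip1 clip clip_nonneg)
open Pool.Agent.H261R3.LN

/-- the walls of the levels 0 and 1 -/
def V : Set ℝ := {w | (∃ n : ℤ, w = n + 1 / 6) ∨ ∃ n : ℤ, w = 2 * (n + 1 / 6)}

theorem V_ne : V.Nonempty := ⟨_, Or.inl ⟨0, rfl⟩⟩

noncomputable def fl (s : ℝ) : ℤ := ⌊(s - 1 / 6) / 2⌋

/-- the centre of the gap -/
noncomputable def cc (s : ℝ) : ℝ :=
  2 * fl s + (if s - 2 * fl s < 1 / 3 then 1 / 4 else if s - 2 * fl s < 7 / 6 then 3 / 4 else 5 / 3)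

theorem fl_le (s : ℝ) : 2 * (fl s : ℝ) + 1 / 6 ≤ s := by
  have := Int.floor_le ((s - 1 / 6) / 2)
  unfold fl
  linarith

theorem lt_fl (s : ℝ) : s < 2 * (fl s : ℝ) + 13 / 6 := by
  have := Int.lt_floor_add_one ((s - 1 / 6) / 2)
  unfold fl
  linarith

theorem cc_abs (s : ℝ) : |cc s - s| ≤ 1 / 2 := by
  have h1 := fl_le s
  have h2 := lt_fl s
  unfold cc
  rw [abs_le]
  split_ifs <;> constructor <;> linarith

theorem cc_wall (s w : ℝ) (hw : w ∈ V) :
    (s < w → cc s + 1 / 12 ≤ w) ∧ (w ≤ s → w + 1 / 12 ≤ cc s) := by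
  have h1 := fl_le s
  have h2 := lt_fl s
  unfold cc
  generalize fl s = n at h1 h2 ⊢
  rcases hw with ⟨m, rfl⟩ | ⟨m, rfl⟩
  · have h3 : (m : ℝ) ≤ 2 * n ∨ (m : ℝ) = 2 * n + 1 ∨ (2 * n + 2 : ℝ) ≤ m := by
      have : m ≤ 2 * n ∨ m = 2 * n + 1 ∨ 2 * n + 2 ≤ m := by omega
      rcases this with h | h | h
      · exact Or.inl (by exact_mod_cast h)
      · exact Or.inr (Or.inl (by exact_mod_cast h))
      · exact Or.inr (Or.inr (by exact_mod_cast h))
    rcases h3 with h3 | h3 | h3 <;> split_ifs <;> constructor <;> intro h <;> linarith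
  · have h3 : (m : ℝ) ≤ n - 1 ∨ (m : ℝ) = n ∨ (n + 1 : ℝ) ≤ m := by
      have : m ≤ n - 1 ∨ m = n ∨ n + 1 ≤ m := by omega
      rcases this with h | h | h
      · exact Or.inl (by exact_mod_cast h)
      · exact Or.inr (Or.inl (by exact_mod_cast h))
      · exact Or.inr (Or.inr (by exact_mod_cast h))
    rcases h3 with h3 | h3 | h3 <;> split_ifs <;> constructor <;> intro h <;> linarith

theorem fl_eq {s s' : ℝ} (h1 : 2 * (fl s : ℝ) + 1 / 6 ≤ s') (h2 : s' < 2 * (fl s : ℝ) + 13 / 6) :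
    fl s' = fl s := by
  conv_lhs => unfold fl
  rw [Int.floor_eq_iff]
  constructor <;> linarith

theorem cc_eq (s s' : ℝ) (h : s ≤ s') : cc s = cc s' ∨ ∃ w ∈ V, s ≤ w ∧ w ≤ s' := by
  have h1 := fl_le s
  have h2 := lt_fl s
  by_cases ha : s - 2 * fl s < 1 / 3
  · by_cases hb : s' < 2 * (fl s + 1 / 6)
    · left
      have h3 : fl s' = fl s := fl_eq (by linarith) (by linarith)
      unfold cc
      rw [h3, if_pos ha, if_pos (by linarith)]
    · exact Or.inr ⟨_, Or.inr ⟨fl s, rfl⟩, by linarith, not_lt.1 hb⟩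
  · by_cases hc : s - 2 * fl s < 7 / 6
    · by_cases hb : s' < 2 * fl s + 7 / 6
      · left
        have h3 : fl s' = fl s := fl_eq (by linarith) (by linarith)
        unfold cc
        rw [h3, if_neg ha, if_pos hc, if_neg (by linarith), if_pos (by linarith)]
      · refine Or.inr ⟨2 * fl s + 7 / 6, Or.inl ⟨2 * fl s + 1, ?_⟩, by linarith, not_lt.1 hb⟩
        push_cast
        ring
    · by_cases hb : s' < 2 * fl s + 13 / 6
      · left
        have h3 : fl s' = fl s := fl_eq (by linarith) (by linarith)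
        unfold cc
        rw [h3, if_neg ha, if_neg hc, if_neg (by linarith), if_neg (by linarith)]
      · refine Or.inr ⟨2 * fl s + 13 / 6, Or.inl ⟨2 * fl s + 2, ?_⟩, by linarith, not_lt.1 hb⟩
        push_cast
        ring

noncomputable def D (s : ℝ) : ℝ := Metric.infDist s V

theorem D_nonneg (s : ℝ) : 0 ≤ D s := Metric.infDist_nonneg

theorem D_le {s w : ℝ} (hw : w ∈ V) : D s ≤ |s - w| := by
  have := Metric.infDist_le_dist_of_mem (x := s) hw
  rwa [Real.dist_eq] at this

theorem D_lip (s s' : ℝ) : |D s - D s'| ≤ |s - s'| := by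
  have h1 := Metric.infDist_le_infDist_add_dist (s := V) (x := s) (y := s')
  have h2 := Metric.infDist_le_infDist_add_dist (s := V) (x := s') (y := s)
  rw [Real.dist_eq] at h1 h2
  rw [abs_sub_comm s' s] at h2
  unfold D
  rw [abs_le]
  constructor <;> linarith

theorem le_D {s a : ℝ} (h : ∀ w ∈ V, a ≤ |s - w|) : a ≤ D s :=
  (Metric.le_infDist V_ne).2 fun {w} hw => by rw [Real.dist_eq]; exact h w hw

theorem cc_or (s s' : ℝ) : cc s = cc s' ∨ (D s ≤ |s - s'| ∧ D s' ≤ |s - s'|) := by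
  rcases le_total s s' with h | h
  · rcases cc_eq s s' h with h1 | ⟨w, hw, h1, h2⟩
    · exact Or.inl h1
    · right
      have h3 := D_le (s := s) hw
      have h4 := D_le (s := s') hw
      rw [abs_of_nonpos (by linarith)] at h3
      rw [abs_of_nonneg (by linarith)] at h4
      rw [abs_of_nonpos (by linarith : s - s' ≤ 0)]
      constructor <;> linarith
  · rcases cc_eq s' s h with h1 | ⟨w, hw, h1, h2⟩
    · exact Or.inl h1.symm
    · right
      have h3 := D_le (s := s) hw
      have h4 := D_le (s := s') hw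
      rw [abs_of_nonneg (by linarith)] at h3
      rw [abs_of_nonpos (by linarith)] at h4
      rw [abs_of_nonneg (by linarith : 0 ≤ s - s')]
      constructor <;> linarith

noncomputable def mu (s : ℝ) : ℝ := min 1 (200 * D s)

theorem mu_nonneg (s : ℝ) : 0 ≤ mu s := le_min zero_le_one (mul_nonneg (by norm_num) (D_nonneg s))

theorem mu_le (s : ℝ) : mu s ≤ 1 := min_le_left _ _

theorem mu_leD (s : ℝ) : mu s ≤ 200 * D s := min_le_right _ _

theorem mu_lip (s s' : ℝ) : |mu s - mu s'| ≤ 200 * |s - s'| := by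
  have h1 : |mu s - mu s'| ≤ |200 * D s - 200 * D s'| := by
    unfold mu
    exact (abs_min_sub_min_le_max _ _ _ _).trans (by simp)
  rw [← mul_sub, abs_mul, abs_of_pos (by norm_num : (0 : ℝ) < 200)] at h1
  exact h1.trans (mul_le_mul_of_nonneg_left (D_lip s s') (by norm_num))

noncomputable def psi (s : ℝ) : ℝ := s + (cc s - s) * mu s

theorem psi_sub (s : ℝ) : |psi s - s| ≤ 1 / 2 := by
  have h1 : psi s - s = (cc s - s) * mu s := by unfold psi; ring
  rw [h1, abs_mul, abs_of_nonneg (mu_nonneg s)]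
  calc |cc s - s| * mu s ≤ (1 / 2) * 1 :=
        mul_le_mul (cc_abs s) (mu_le s) (mu_nonneg s) (by norm_num)
    _ = 1 / 2 := by norm_num

theorem psi_subD (s : ℝ) : |psi s - s| ≤ 100 * D s := by
  have h1 : psi s - s = (cc s - s) * mu s := by unfold psi; ring
  rw [h1, abs_mul, abs_of_nonneg (mu_nonneg s)]
  calc |cc s - s| * mu s ≤ (1 / 2) * (200 * D s) :=
        mul_le_mul (cc_abs s) (mu_leD s) (mu_nonneg s) (by norm_num)
    _ = 100 * D s := by ring

theorem psi_eq {s : ℝ} (h : 1 / 200 ≤ D s) : psi s = cc s := by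
  have : mu s = 1 := min_eq_left (by linarith)
  unfold psi
  rw [this]
  ring

theorem psi_lip (s s' : ℝ) : |psi s - psi s'| ≤ 300 * |s - s'| := by
  have h0 : 0 ≤ |s - s'| := abs_nonneg _
  rcases cc_or s s' with h | ⟨h1, h2⟩
  · have e : psi s - psi s' = (s - s') + ((cc s - s) * (mu s - mu s') - (s - s') * mu s') := by
      unfold psi
      rw [← h]
      ring
    rw [e]
    have a1 : |(cc s - s) * (mu s - mu s')| ≤ 100 * |s - s'| := by
      rw [abs_mul]
      calc |cc s - s| * |mu s - mu s'| ≤ (1 / 2) * (200 * |s - s'|) :=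
            mul_le_mul (cc_abs s) (mu_lip s s') (abs_nonneg _) (by norm_num)
        _ = _ := by ring
    have a2 : |(s - s') * mu s'| ≤ |s - s'| := by
      rw [abs_mul, abs_of_nonneg (mu_nonneg s')]
      exact mul_le_of_le_one_right h0 (mu_le s')
    calc _ ≤ |s - s'| + |(cc s - s) * (mu s - mu s') - (s - s') * mu s'| := abs_add_le _ _
      _ ≤ |s - s'| + (|(cc s - s) * (mu s - mu s')| + |(s - s') * mu s'|) := by
          gcongr
          exact abs_sub _ _
      _ ≤ _ := by linarith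
  · have e : psi s - psi s' = (s - s') + ((psi s - s) - (psi s' - s')) := by ring
    rw [e]
    have a1 := psi_subD s
    have a2 := psi_subD s'
    calc _ ≤ |s - s'| + |(psi s - s) - (psi s' - s')| := abs_add_le _ _
      _ ≤ |s - s'| + (|psi s - s| + |psi s' - s'|) := by
          gcongr
          exact abs_sub _ _
      _ ≤ _ := by linarith

theorem clip_le (x : ℝ) : clip x ≤ 1 := max_le zero_le_one (min_le_left _ _)

theorem clip_lip (x y : ℝ) : |clip x - clip y| ≤ |x - y| := by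
  unfold clip
  refine (abs_max_sub_max_le_max _ _ _ _).trans ?_
  rw [sub_self, abs_zero]
  refine max_le (abs_nonneg _) ((abs_min_sub_min_le_max _ _ _ _).trans ?_)
  rw [sub_self, abs_zero]
  exact max_le (abs_nonneg _) le_rfl

theorem clip_zero {x : ℝ} (h : x ≤ 0) : clip x = 0 := max_eq_left ((min_le_right _ _).trans h)

theorem clip_one {x : ℝ} (h : 1 ≤ x) : clip x = 1 := by
  unfold clip
  rw [min_eq_left h, max_eq_right zero_le_one]

theorem clip_id {x : ℝ} (h0 : 0 ≤ x) (h1 : x ≤ 1) : clip x = x := by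
  unfold clip
  rw [min_eq_right h1, max_eq_right h0]

theorem clip_le_self {x : ℝ} (h : 0 ≤ x) : clip x ≤ x := max_le h (min_le_right _ _)

noncomputable def chi1 (s : ℝ) : ℝ := clip (200 * D s - 1)

theorem chi1_le (s : ℝ) : chi1 s ≤ 200 * D s := by
  unfold chi1 clip
  have := D_nonneg s
  exact max_le (by linarith) ((min_le_right _ _).trans (by linarith))

theorem chi1_lip (s s' : ℝ) : |chi1 s - chi1 s'| ≤ 200 * |s - s'| := by
  refine (clip_lip _ _).trans ?_
  have : 200 * D s - 1 - (200 * D s' - 1) = 200 * (D s - D s') := by ring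
  rw [this, abs_mul, abs_of_pos (by norm_num : (0 : ℝ) < 200)]
  exact mul_le_mul_of_nonneg_left (D_lip s s') (by norm_num)

section

variable {m : ℕ}

noncomputable def vv (x : Fin m → ℝ) : Fin m → ℝ := fun i => 1 - chi1 (x i)

noncomputable def chi (x : Fin m → ℝ) : ℝ := 1 - ‖vv x‖

theorem vv_abs (x : Fin m → ℝ) (i : Fin m) : ‖vv x i‖ = 1 - chi1 (x i) := by
  unfold vv
  rw [Real.norm_eq_abs, abs_of_nonneg]
  have := clip_le (200 * D (x i) - 1)
  unfold chi1
  linarith

theorem chi_nonneg (x : Fin m → ℝ) : 0 ≤ chi x := by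
  have : ‖vv x‖ ≤ 1 := (pi_norm_le_iff_of_nonneg zero_le_one).2 fun i => by
    rw [vv_abs]
    have := clip_nonneg (200 * D (x i) - 1)
    unfold chi1
    linarith
  unfold chi
  linarith

theorem chi_le_one (x : Fin m → ℝ) : chi x ≤ 1 := by
  have := norm_nonneg (vv x)
  unfold chi
  linarith

theorem chi_le (x : Fin m → ℝ) (i : Fin m) : chi x ≤ chi1 (x i) := by
  have h1 := norm_le_pi_norm (vv x) i
  rw [vv_abs] at h1
  unfold chi
  linarith

theorem chi_lip (x x' : Fin m → ℝ) : |chi x - chi x'| ≤ 200 * dist x x' := by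
  have h1 : |chi x - chi x'| = |‖vv x'‖ - ‖vv x‖| := by
    unfold chi
    congr 1
    ring
  rw [h1]
  refine (abs_norm_sub_norm_le _ _).trans ?_
  refine (pi_norm_le_iff_of_nonneg (by positivity)).2 fun i => ?_
  have h2 : (vv x' - vv x) i = chi1 (x i) - chi1 (x' i) := by
    simp only [Pi.sub_apply, vv]
    ring
  rw [h2, Real.norm_eq_abs]
  refine (chi1_lip _ _).trans (mul_le_mul_of_nonneg_left ?_ (by norm_num))
  rw [← Real.dist_eq]
  exact dist_le_pi_dist x x' i

theorem chi_pos {x : Fin m → ℝ} (h : 0 < chi x) (i : Fin m) : 1 / 200 ≤ D (x i) := by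
  by_contra hc
  have h1 : chi1 (x i) = 0 := clip_zero (by linarith [not_le.1 hc])
  have h2 := chi_le x i
  linarith

theorem chi_one {x : Fin m → ℝ} (h : ∀ i, 1 / 100 ≤ D (x i)) : chi x = 1 := by
  have : vv x = 0 := by
    funext i
    have h1 : chi1 (x i) = 1 := clip_one (by linarith [h i])
    simp [vv, h1]
  unfold chi
  rw [this, norm_zero, sub_zero]

noncomputable def cen (x : Fin m → ℝ) : Fin m → ℝ := fun i => cc (x i)

theorem cen_or (x x' : Fin m → ℝ) : cen x = cen x' ∨
    (chi x ≤ 200 * dist x x' ∧ chi x' ≤ 200 * dist x x') := by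
  by_cases h : cen x = cen x'
  · exact Or.inl h
  · right
    obtain ⟨i, hi⟩ := Function.ne_iff.1 h
    have hd : |x i - x' i| ≤ dist x x' := by
      rw [← Real.dist_eq]
      exact dist_le_pi_dist x x' i
    rcases cc_or (x i) (x' i) with h1 | ⟨h1, h2⟩
    · exact absurd h1 hi
    · have a1 := chi_le x i
      have a2 := chi_le x' i
      have b1 := chi1_le (x i)
      have b2 := chi1_le (x' i)
      constructor <;> linarith

end


section

noncomputable def t0 (t : ℝ) : ℝ := clip (3 * t)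
noncomputable def t1 (t : ℝ) : ℝ := clip (3 * t - 1)
noncomputable def t2 (t : ℝ) : ℝ := clip (3 * t - 2)

theorem t0_lip (t t' : ℝ) : |t0 t - t0 t'| ≤ 3 * |t - t'| := by
  refine (clip_lip _ _).trans (le_of_eq ?_)
  rw [← mul_sub, abs_mul, abs_of_pos (by norm_num : (0 : ℝ) < 3)]

theorem t1_lip (t t' : ℝ) : |t1 t - t1 t'| ≤ 3 * |t - t'| := by
  refine (clip_lip _ _).trans (le_of_eq ?_)
  rw [show 3 * t - 1 - (3 * t' - 1) = 3 * (t - t') by ring, abs_mul,
    abs_of_pos (by norm_num : (0 : ℝ) < 3)]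

theorem t2_lip (t t' : ℝ) : |t2 t - t2 t'| ≤ 3 * |t - t'| := by
  refine (clip_lip _ _).trans (le_of_eq ?_)
  rw [show 3 * t - 2 - (3 * t' - 2) = 3 * (t - t') by ring, abs_mul,
    abs_of_pos (by norm_num : (0 : ℝ) < 3)]

theorem t01_of_t2 {t : ℝ} (h : 0 < t2 t) : t0 t = 1 ∧ t1 t = 1 := by
  have h1 : 0 < 3 * t - 2 := by
    by_contra hc
    unfold t2 at h
    rw [clip_zero (not_lt.1 hc)] at h
    exact lt_irrefl _ h
  exact ⟨clip_one (by linarith), clip_one (by linarith)⟩

noncomputable def bet (h : ℝ) : ℝ := min 1 (min (3 * clip h) (3 * (1 - clip h)))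

theorem bet_nonneg (h : ℝ) : 0 ≤ bet h := by
  have h1 := clip_nonneg h
  have h2 := clip_le h
  unfold bet
  exact le_min zero_le_one (le_min (by linarith) (by linarith))

theorem bet_le (h : ℝ) : bet h ≤ 1 := min_le_left _ _

theorem bet_lip (h h' : ℝ) : |bet h - bet h'| ≤ 3 * |h - h'| := by
  have h1 := clip_lip h h'
  unfold bet
  refine (abs_min_sub_min_le_max _ _ _ _).trans ?_
  rw [sub_self, abs_zero]
  refine max_le (by positivity) ((abs_min_sub_min_le_max _ _ _ _).trans (max_le ?_ ?_))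
  · rw [← mul_sub, abs_mul, abs_of_pos (by norm_num : (0 : ℝ) < 3)]
    linarith
  · rw [show 3 * (1 - clip h) - 3 * (1 - clip h') = 3 * -(clip h - clip h') by ring, abs_mul,
      abs_of_pos (by norm_num : (0 : ℝ) < 3), abs_neg]
    linarith

theorem bet_one {h : ℝ} (h1 : 1 / 3 ≤ h) (h2 : h ≤ 2 / 3) : bet h = 1 := by
  unfold bet
  rw [clip_id (by linarith) (by linarith)]
  exact min_eq_left (le_min (by linarith) (by linarith))

noncomputable def HH (t h : ℝ) : ℝ := clip h + t0 t * (clip (3 * clip h - 1) - clip h)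

theorem HH_h (t h h' : ℝ) : |HH t h - HH t h'| ≤ 5 * |h - h'| := by
  have h1 := clip_lip h h'
  have h2 := clip_lip (3 * clip h - 1) (3 * clip h' - 1)
  rw [show 3 * clip h - 1 - (3 * clip h' - 1) = 3 * (clip h - clip h') by ring, abs_mul,
    abs_of_pos (by norm_num : (0 : ℝ) < 3)] at h2
  have e : HH t h - HH t h' = (clip h - clip h') + t0 t *
      ((clip (3 * clip h - 1) - clip (3 * clip h' - 1)) - (clip h - clip h')) := by
    unfold HH
    ring
  rw [e]
  have a1 : |t0 t * ((clip (3 * clip h - 1) - clip (3 * clip h' - 1)) - (clip h - clip h'))| ≤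
      4 * |h - h'| := by
    rw [abs_mul, abs_of_nonneg (show 0 ≤ t0 t from clip_nonneg _)]
    calc t0 t * |(clip (3 * clip h - 1) - clip (3 * clip h' - 1)) - (clip h - clip h')| ≤
          1 * |(clip (3 * clip h - 1) - clip (3 * clip h' - 1)) - (clip h - clip h')| :=
          mul_le_mul_of_nonneg_right (clip_le _) (abs_nonneg _)
      _ ≤ |clip (3 * clip h - 1) - clip (3 * clip h' - 1)| + |clip h - clip h'| := by
          rw [one_mul]
          exact abs_sub _ _
      _ ≤ _ := by linarith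
  calc _ ≤ |clip h - clip h'| + _ := abs_add_le _ _
    _ ≤ _ := by linarith

theorem HH_t (t t' h : ℝ) : |HH t h - HH t' h| ≤ 3 * |t - t'| := by
  have e : HH t h - HH t' h = (t0 t - t0 t') * (clip (3 * clip h - 1) - clip h) := by
    unfold HH
    ring
  rw [e, abs_mul]
  have a1 : |clip (3 * clip h - 1) - clip h| ≤ 1 := by
    rw [abs_le]
    have := clip_nonneg h
    have := clip_le h
    have := clip_nonneg (3 * clip h - 1)
    have := clip_le (3 * clip h - 1)
    constructor <;> linarith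
  calc _ ≤ |t0 t - t0 t'| * 1 := mul_le_mul_of_nonneg_left a1 (abs_nonneg _)
    _ ≤ _ := by rw [mul_one]; exact t0_lip t t'

variable {m : ℕ}

noncomputable def XX (t : ℝ) (x : Fin m → ℝ) (h : ℝ) : Fin m → ℝ :=
  fun i => x i + (t1 t * bet h) * (psi (x i) - x i)

theorem XX_x (t : ℝ) (x x' : Fin m → ℝ) (h : ℝ) :
    dist (XX t x h) (XX t x' h) ≤ 300 * dist x x' := by
  refine (dist_pi_le_iff (by positivity)).2 fun i => ?_
  have hl0 : 0 ≤ t1 t * bet h := mul_nonneg (clip_nonneg _) (bet_nonneg h)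
  have hl1 : t1 t * bet h ≤ 1 := mul_le_one₀ (clip_le _) (bet_nonneg h) (bet_le h)
  have hd : |x i - x' i| ≤ dist x x' := by
    rw [← Real.dist_eq]
    exact dist_le_pi_dist x x' i
  have hp := psi_lip (x i) (x' i)
  rw [Real.dist_eq]
  unfold XX
  set l := t1 t * bet h
  have e : x i + l * (psi (x i) - x i) - (x' i + l * (psi (x' i) - x' i)) =
      (1 - l) * (x i - x' i) + l * (psi (x i) - psi (x' i)) := by ring
  rw [e]
  have h0 := abs_nonneg (x i - x' i)
  calc _ ≤ |(1 - l) * (x i - x' i)| + |l * (psi (x i) - psi (x' i))| := abs_add_le _ _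
    _ = (1 - l) * |x i - x' i| + l * |psi (x i) - psi (x' i)| := by
        rw [abs_mul, abs_mul, abs_of_nonneg (by linarith : 0 ≤ 1 - l), abs_of_nonneg hl0]
    _ ≤ (1 - l) * |x i - x' i| + l * (300 * |x i - x' i|) := by gcongr
    _ ≤ 300 * |x i - x' i| := by nlinarith
    _ ≤ _ := by linarith

theorem XX_h (t : ℝ) (x : Fin m → ℝ) (h h' : ℝ) :
    dist (XX t x h) (XX t x h') ≤ 2 * |h - h'| := by
  refine (dist_pi_le_iff (by positivity)).2 fun i => ?_
  rw [Real.dist_eq]
  have e : XX t x h i - XX t x h' i = t1 t * ((bet h - bet h') * (psi (x i) - x i)) := by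
    unfold XX
    ring
  rw [e, abs_mul, abs_mul, abs_of_nonneg (show 0 ≤ t1 t from clip_nonneg _)]
  calc t1 t * (|bet h - bet h'| * |psi (x i) - x i|) ≤ 1 * ((3 * |h - h'|) * (1 / 2)) :=
        mul_le_mul (clip_le _) (mul_le_mul (bet_lip h h') (psi_sub _) (abs_nonneg _)
          (by positivity)) (by positivity) zero_le_one
    _ ≤ _ := by
        have := abs_nonneg (h - h')
        linarith

theorem XX_t (t t' : ℝ) (x : Fin m → ℝ) (h : ℝ) :
    dist (XX t x h) (XX t' x h) ≤ 2 * |t - t'| := by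
  refine (dist_pi_le_iff (by positivity)).2 fun i => ?_
  rw [Real.dist_eq]
  have e : XX t x h i - XX t' x h i = bet h * ((t1 t - t1 t') * (psi (x i) - x i)) := by
    unfold XX
    ring
  rw [e, abs_mul, abs_mul, abs_of_nonneg (bet_nonneg h)]
  calc bet h * (|t1 t - t1 t'| * |psi (x i) - x i|) ≤ 1 * ((3 * |t - t'|) * (1 / 2)) :=
        mul_le_mul (bet_le h) (mul_le_mul (t1_lip t t') (psi_sub _) (abs_nonneg _)
          (by positivity)) (by positivity) zero_le_one
    _ ≤ _ := by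
        have := abs_nonneg (t - t')
        linarith

/-- moving towards the centre -/
theorem far_move (x c w l a : ℝ) (hl0 : 0 ≤ l) (hl1 : l ≤ 1) (ha : a ≤ 1 / 12)
    (h1 : x < w → c + 1 / 12 ≤ w) (h2 : w ≤ x → w + 1 / 12 ≤ c) (h : a ≤ |x - w|) :
    a ≤ |x + l * (c - x) - w| := by
  rcases lt_or_ge x w with h3 | h3
  · have h4 := h1 h3
    rw [abs_of_neg (by linarith)] at h
    have e : x + l * (c - x) - w = -((1 - l) * (w - x) + l * (w - c)) := by ring
    rw [e, abs_neg]
    refine le_trans ?_ (le_abs_self _)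
    nlinarith [mul_nonneg (sub_nonneg.2 hl1) (by linarith : 0 ≤ w - x - a),
      mul_nonneg hl0 (by linarith : 0 ≤ w - c - a)]
  · have h4 := h2 h3
    rw [abs_of_nonneg (by linarith)] at h
    have e : x + l * (c - x) - w = (1 - l) * (x - w) + l * (c - w) := by ring
    rw [e]
    refine le_trans ?_ (le_abs_self _)
    nlinarith [mul_nonneg (sub_nonneg.2 hl1) (by linarith : 0 ≤ x - w - a),
      mul_nonneg hl0 (by linarith : 0 ≤ c - w - a)]

theorem wall_mem0 (n : ℤ) : (2 : ℝ) ^ (0 : ℤ) * (n + 1 / 6) ∈ V :=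
  Or.inl ⟨n, by simp⟩

theorem wall_mem1 (n : ℤ) : (2 : ℝ) ^ (1 : ℤ) * (n + 1 / 6) ∈ V :=
  Or.inr ⟨n, by simp⟩

theorem far_cen {x : Fin m → ℝ} {w : ℝ} (hw : w ∈ V) (i : Fin m) : 1 / 12 ≤ |cen x i - w| := by
  have h := cc_wall (x i) w hw
  unfold cen
  rcases lt_or_ge (x i) w with h3 | h3
  · have := h.1 h3
    rw [abs_of_neg (by linarith)]
    linarith
  · have := h.2 h3
    rw [abs_of_nonneg (by linarith)]
    linarith

theorem cen_far0 (x : Fin m → ℝ) : Far 0 (1 / 100) (cen x) := fun i n =>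
  le_trans (by norm_num) (far_cen (wall_mem0 n) i)

theorem cen_far1 (x : Fin m → ℝ) : Far 1 (1 / 50) (cen x) := fun i n =>
  le_trans (by norm_num) (far_cen (wall_mem1 n) i)

theorem far_D {x : Fin m → ℝ} (h0 : Far 0 (1 / 100) x) (h1 : Far 1 (1 / 50) x) (i : Fin m) :
    1 / 100 ≤ D (x i) := by
  refine le_D ?_
  rintro w (⟨n, rfl⟩ | ⟨n, rfl⟩)
  · have := h0 i n
    simpa using this
  · have := h1 i n
    rw [zpow_one] at this
    linarith

theorem XX_far {x : Fin m → ℝ} (hD : ∀ i, 1 / 100 ≤ D (x i)) {j : ℤ} {a : ℝ} (ha : a ≤ 1 / 12)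
    (hj : ∀ n : ℤ, (2 : ℝ) ^ j * (n + 1 / 6) ∈ V) (hx : Far j a x) (t h : ℝ) :
    Far j a (XX t x h) := by
  intro i n
  have hc := cc_wall (x i) _ (hj n)
  have hl0 : 0 ≤ t1 t * bet h := mul_nonneg (clip_nonneg _) (bet_nonneg h)
  have hl1 : t1 t * bet h ≤ 1 := mul_le_one₀ (clip_le _) (bet_nonneg h) (bet_le h)
  unfold XX
  rw [psi_eq (by linarith [hD i])]
  exact far_move _ _ _ _ _ hl0 hl1 ha hc.1 hc.2 (hx i n)

theorem XX_cen {x : Fin m → ℝ} (hx : 0 < chi x) {t h : ℝ} (ht : 0 < t2 t) (h1 : 1 / 3 ≤ h)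
    (h2 : h ≤ 2 / 3) : XX t x h = cen x := by
  funext i
  unfold XX cen
  rw [(t01_of_t2 ht).2, bet_one h1 h2, psi_eq (chi_pos hx i)]
  ring

theorem HH_mid {t h : ℝ} (ht : 0 < t2 t) (h1 : 1 / 3 ≤ h) (h2 : h ≤ 2 / 3) :
    HH t h = 3 * h - 1 := by
  unfold HH
  rw [(t01_of_t2 ht).1, clip_id (by linarith : 0 ≤ h) (by linarith), clip_id (by linarith)
    (by linarith)]
  ring

end


theorem taskSlab : TaskSlab := by
  intro S _ p m hN C
  obtain ⟨C1, hC1, hK⟩ := hN (max C 0)
  set B := max C 0 with hBdef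
  have hB0 : 0 ≤ B := le_max_right _ _
  refine ⟨300 * B + 600 * C1, by positivity, fun F hFx hFh h0 h1 => ?_⟩
  have hFh' : ∀ z, Lip1 B (fun h => F z h) := fun z a b =>
    (hFh z a b).trans (mul_le_mul_of_nonneg_right (le_max_left _ _) (abs_nonneg _))
  have comb : ∀ a b u v, dist (F a u) (F b v) ≤ B * (dist a b + |u - v|) := by
    intro a b u v
    have a1 : dist (F a u) (F b u) ≤ B * dist a b :=
      (hFx u a b).trans (mul_le_mul_of_nonneg_right (le_max_left _ _) dist_nonneg)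
    have a2 : dist (F b u) (F b v) ≤ B * |u - v| := hFh' b u v
    calc dist (F a u) (F b v) ≤ dist (F a u) (F b u) + dist (F b u) (F b v) := dist_triangle _ _ _
      _ ≤ _ := by rw [mul_add]; exact add_le_add a1 a2
  have hex : ∀ z : Fin m → ℝ, ∃ K : ℝ → ℝ → S, F z 0 = p → F z 1 = p →
      ((∀ t, Lip1 C1 (fun h => K h t)) ∧ (∀ h, Lip1 C1 (fun t => K h t)) ∧
      (∀ h, 0 ≤ h → h ≤ 1 → K h 0 = F z h) ∧ (∀ h, K h 1 = p) ∧ ∀ t, K 0 t = p ∧ K 1 t = p) := by
    intro z
    by_cases hz : F z 0 = p ∧ F z 1 = p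
    · obtain ⟨K, h⟩ := hK (fun h => F z h) (hFh' z) hz.1 hz.2
      exact ⟨K, fun _ _ => h⟩
    · exact ⟨fun _ _ => p, fun a b => absurd ⟨a, b⟩ hz⟩
  choose K hK' using hex
  have kp := fun x : Fin m → ℝ => hK' (cen x) (h0 _ (cen_far0 x)) (h1 _ (cen_far1 x))
  set G : ℝ → (Fin m → ℝ) → ℝ → S := fun t x h => F (XX t x h) (HH t h) with hG
  have Gx : ∀ t x x' h, dist (G t x h) (G t x' h) ≤ 300 * B * dist x x' := by
    intro t x x' h
    refine (comb _ _ _ _).trans ?_
    rw [sub_self, abs_zero, add_zero]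
    calc B * dist (XX t x h) (XX t x' h) ≤ B * (300 * dist x x') :=
          mul_le_mul_of_nonneg_left (XX_x t x x' h) hB0
      _ = _ := by ring
  have Gh : ∀ t x h h', dist (G t x h) (G t x h') ≤ 7 * B * |h - h'| := by
    intro t x h h'
    refine (comb _ _ _ _).trans ?_
    calc B * (dist (XX t x h) (XX t x h') + |HH t h - HH t h'|) ≤
          B * (2 * |h - h'| + 5 * |h - h'|) :=
          mul_le_mul_of_nonneg_left (add_le_add (XX_h t x h h') (HH_h t h h')) hB0
      _ = _ := by ring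
  have Gt : ∀ t t' x h, dist (G t x h) (G t' x h) ≤ 5 * B * |t - t'| := by
    intro t t' x h
    refine (comb _ _ _ _).trans ?_
    calc B * (dist (XX t x h) (XX t' x h) + |HH t h - HH t' h|) ≤
          B * (2 * |t - t'| + 3 * |t - t'|) :=
          mul_le_mul_of_nonneg_left (add_le_add (XX_t t t' x h) (HH_t t t' h)) hB0
      _ = _ := by ring
  have Gcen : ∀ t x h, 1 / 3 ≤ h → h ≤ 2 / 3 → 0 < chi x → 0 < t2 t →
      G t x h = F (cen x) (3 * h - 1) := by
    intro t x h a1 a2 a3 a4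
    rw [hG]
    simp only
    rw [XX_cen a3 a4 a1 a2, HH_mid a4 a1 a2]
  have near : ∀ t x h, 1 / 3 ≤ h → h ≤ 2 / 3 → 0 < chi x → 0 < t2 t →
      dist (K (cen x) (3 * h - 1) (t2 t * chi x)) (G t x h) ≤ C1 * (t2 t * chi x) := by
    intro t x h a1 a2 a3 a4
    rw [Gcen t x h a1 a2 a3 a4, ← (kp x).2.2.1 (3 * h - 1) (by linarith) (by linarith)]
    have := (kp x).2.1 (3 * h - 1) (t2 t * chi x) 0
    rwa [sub_zero, abs_of_nonneg (mul_nonneg a4.le a3.le)] at this
  have t2le : ∀ t, t2 t ≤ 1 := fun t => clip_le _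
  have near1 : ∀ t x h, 1 / 3 ≤ h → h ≤ 2 / 3 → 0 < chi x → 0 < t2 t →
      dist (K (cen x) (3 * h - 1) (t2 t * chi x)) (G t x h) ≤ C1 * chi x := by
    intro t x h a1 a2 a3 a4
    refine (near t x h a1 a2 a3 a4).trans (mul_le_mul_of_nonneg_left ?_ hC1)
    exact mul_le_of_le_one_left a3.le (t2le t)
  have near2 : ∀ t x h, 1 / 3 ≤ h → h ≤ 2 / 3 → 0 < chi x → 0 < t2 t →
      dist (K (cen x) (3 * h - 1) (t2 t * chi x)) (G t x h) ≤ C1 * t2 t := by
    intro t x h a1 a2 a3 a4
    refine (near t x h a1 a2 a3 a4).trans (mul_le_mul_of_nonneg_left ?_ hC1)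
    exact mul_le_of_le_one_right a4.le (chi_le_one x)
  classical
  set g : ℝ → (Fin m → ℝ) → ℝ → S := fun t x h =>
    if (1 / 3 ≤ h ∧ h ≤ 2 / 3) ∧ 0 < chi x ∧ 0 < t2 t then
      K (cen x) (3 * h - 1) (t2 t * chi x) else G t x h with hg
  have gpos : ∀ t x h, 1 / 3 ≤ h → h ≤ 2 / 3 → 0 < chi x → 0 < t2 t →
      g t x h = K (cen x) (3 * h - 1) (t2 t * chi x) := fun t x h a1 a2 a3 a4 =>
    if_pos ⟨⟨a1, a2⟩, a3, a4⟩
  have gneg : ∀ t x h, ¬ ((1 / 3 ≤ h ∧ h ≤ 2 / 3) ∧ 0 < chi x ∧ 0 < t2 t) →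
      g t x h = G t x h := fun t x h a => if_neg a
  have hBC : 0 ≤ 300 * B + 600 * C1 := by positivity
  refine ⟨g, ?_, ?_, ?_, ?_, ?_, ?_⟩
  · -- Lipschitz in x
    intro t h x x'
    change dist (g t x h) (g t x' h) ≤ _
    have hd : 0 ≤ dist x x' := dist_nonneg
    have hBd : 0 ≤ B * dist x x' := mul_nonneg hB0 hd
    have hCd : 0 ≤ C1 * dist x x' := mul_nonneg hC1 hd
    have hGG := Gx t x x' h
    have mixed : ∀ y y' : Fin m → ℝ, 1 / 3 ≤ h → h ≤ 2 / 3 → 0 < t2 t → 0 < chi y → ¬ 0 < chi y' →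
        dist (g t y h) (g t y' h) ≤ (300 * B + 600 * C1) * dist y y' := by
      intro y y' a1 a2 a4 b1 b2
      rw [gpos t y h a1 a2 b1 a4, gneg t y' h (fun hc => b2 hc.2.1)]
      have c0 : chi y' = 0 := le_antisymm (not_lt.1 b2) (chi_nonneg y')
      have c1 := chi_lip y y'
      rw [c0, sub_zero, abs_of_pos b1] at c1
      have c2 := near1 t y h a1 a2 b1 a4
      have c3 : C1 * chi y ≤ C1 * (200 * dist y y') := mul_le_mul_of_nonneg_left c1 hC1
      have c4 : 0 ≤ C1 * dist y y' := mul_nonneg hC1 dist_nonneg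
      calc _ ≤ dist (K (cen y) (3 * h - 1) (t2 t * chi y)) (G t y h) +
            dist (G t y h) (G t y' h) := dist_triangle _ _ _
        _ ≤ _ := by linarith [Gx t y y' h]
    by_cases A : (1 / 3 ≤ h ∧ h ≤ 2 / 3) ∧ 0 < t2 t
    · obtain ⟨⟨a1, a2⟩, a4⟩ := A
      by_cases b1 : 0 < chi x
      · by_cases b2 : 0 < chi x'
        · rw [gpos t x h a1 a2 b1 a4, gpos t x' h a1 a2 b2 a4]
          rcases cen_or x x' with hc | ⟨c1, c2⟩
          · rw [← hc]
            have c3 := (kp x).2.1 (3 * h - 1) (t2 t * chi x) (t2 t * chi x')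
            have c4 : |t2 t * chi x - t2 t * chi x'| ≤ 200 * dist x x' := by
              rw [← mul_sub, abs_mul, abs_of_pos a4]
              calc t2 t * |chi x - chi x'| ≤ 1 * (200 * dist x x') :=
                    mul_le_mul (t2le t) (chi_lip x x') (abs_nonneg _) zero_le_one
                _ = _ := by ring
            have c5 := mul_le_mul_of_nonneg_left c4 hC1
            refine c3.trans ?_
            linarith
          · have d1 := near1 t x h a1 a2 b1 a4
            have d2 := near1 t x' h a1 a2 b2 a4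
            have d3 : C1 * chi x ≤ C1 * (200 * dist x x') := mul_le_mul_of_nonneg_left c1 hC1
            have d4 : C1 * chi x' ≤ C1 * (200 * dist x x') := mul_le_mul_of_nonneg_left c2 hC1
            calc _ ≤ dist (K (cen x) (3 * h - 1) (t2 t * chi x)) (G t x h) +
                  dist (G t x h) (G t x' h) +
                  dist (G t x' h) (K (cen x') (3 * h - 1) (t2 t * chi x')) := dist_triangle4 _ _ _ _
              _ ≤ _ := by rw [dist_comm (G t x' h)]; linarith
        · exact mixed x x' a1 a2 a4 b1 b2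
      · by_cases b2 : 0 < chi x'
        · rw [dist_comm, dist_comm x x']
          exact mixed x' x a1 a2 a4 b2 b1
        · rw [gneg t x h (fun hc => b1 hc.2.1), gneg t x' h (fun hc => b2 hc.2.1)]
          linarith
    · rw [gneg t x h (fun hc => A ⟨hc.1, hc.2.2⟩), gneg t x' h (fun hc => A ⟨hc.1, hc.2.2⟩)]
      linarith
  · -- Lipschitz in h
    intro t x h h'
    change dist (g t x h) (g t x h') ≤ _
    have mixed : ∀ u u' : ℝ, 0 < chi x → 0 < t2 t → (1 / 3 ≤ u ∧ u ≤ 2 / 3) →
        ¬ (1 / 3 ≤ u' ∧ u' ≤ 2 / 3) →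
        dist (g t x u) (g t x u') ≤ (300 * B + 600 * C1) * |u - u'| := by
      rintro u u' b1 a4 ⟨u1, u2⟩ hu'
      rw [gpos t x u u1 u2 b1 a4, gneg t x u' (fun hc => hu' hc.1)]
      have hdd : 0 ≤ |u - u'| := abs_nonneg _
      rcases lt_or_ge u' (1 / 3) with h3 | h3
      · have d0 : G t x (1 / 3) = p := by
          rw [Gcen t x (1 / 3) le_rfl (by norm_num) b1 a4, show (3 : ℝ) * (1 / 3) - 1 = 0 by norm_num]
          exact h0 _ (cen_far0 x)
        have d1 := (kp x).1 (t2 t * chi x) (3 * u - 1) 0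
        simp only [((kp x).2.2.2.2 (t2 t * chi x)).1] at d1
        rw [← d0, sub_zero, abs_of_nonneg (by linarith)] at d1
        have d2 := Gh t x (1 / 3) u'
        rw [abs_of_pos (by linarith)] at d2
        have e1 : |u - u'| = u - u' := abs_of_pos (by linarith)
        rw [e1]
        have f1 : C1 * (3 * u - 1) ≤ C1 * (3 * (u - u')) :=
          mul_le_mul_of_nonneg_left (by linarith) hC1
        have f2 : 7 * B * (1 / 3 - u') ≤ 7 * B * (u - u') :=
          mul_le_mul_of_nonneg_left (by linarith) (by positivity)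
        have f3 : 0 ≤ C1 * (u - u') := mul_nonneg hC1 (by linarith)
        have f4 : 0 ≤ B * (u - u') := mul_nonneg hB0 (by linarith)
        calc _ ≤ dist (K (cen x) (3 * u - 1) (t2 t * chi x)) (G t x (1 / 3)) +
              dist (G t x (1 / 3)) (G t x u') := dist_triangle _ _ _
          _ ≤ _ := by linarith
      · have h4 : 2 / 3 < u' := by
          by_contra hc
          exact hu' ⟨h3, not_lt.1 hc⟩
        have d0 : G t x (2 / 3) = p := by
          rw [Gcen t x (2 / 3) (by norm_num) le_rfl b1 a4, show (3 : ℝ) * (2 / 3) - 1 = 1 by norm_num]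
          exact h1 _ (cen_far1 x)
        have d1 := (kp x).1 (t2 t * chi x) (3 * u - 1) 1
        simp only [((kp x).2.2.2.2 (t2 t * chi x)).2] at d1
        rw [← d0, abs_of_nonpos (by linarith)] at d1
        have d2 := Gh t x (2 / 3) u'
        rw [abs_of_neg (by linarith)] at d2
        have e1 : |u - u'| = u' - u := by rw [abs_of_neg (by linarith)]; ring
        rw [e1]
        have f1 : C1 * -(3 * u - 1 - 1) ≤ C1 * (3 * (u' - u)) :=
          mul_le_mul_of_nonneg_left (by linarith) hC1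
        have f2 : 7 * B * -(2 / 3 - u') ≤ 7 * B * (u' - u) :=
          mul_le_mul_of_nonneg_left (by linarith) (by positivity)
        have f3 : 0 ≤ C1 * (u' - u) := mul_nonneg hC1 (by linarith)
        have f4 : 0 ≤ B * (u' - u) := mul_nonneg hB0 (by linarith)
        calc _ ≤ dist (K (cen x) (3 * u - 1) (t2 t * chi x)) (G t x (2 / 3)) +
              dist (G t x (2 / 3)) (G t x u') := dist_triangle _ _ _
          _ ≤ _ := by linarith
    have f3 : 0 ≤ C1 * |h - h'| := mul_nonneg hC1 (abs_nonneg _)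
    have f4 : 0 ≤ B * |h - h'| := mul_nonneg hB0 (abs_nonneg _)
    have f5 := Gh t x h h'
    by_cases A : 0 < chi x ∧ 0 < t2 t
    · obtain ⟨b1, a4⟩ := A
      by_cases m1 : 1 / 3 ≤ h ∧ h ≤ 2 / 3
      · by_cases m2 : 1 / 3 ≤ h' ∧ h' ≤ 2 / 3
        · rw [gpos t x h m1.1 m1.2 b1 a4, gpos t x h' m2.1 m2.2 b1 a4]
          have d1 := (kp x).1 (t2 t * chi x) (3 * h - 1) (3 * h' - 1)
          rw [show 3 * h - 1 - (3 * h' - 1) = 3 * (h - h') by ring, abs_mul,
            abs_of_pos (by norm_num : (0 : ℝ) < 3)] at d1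
          refine d1.trans ?_
          linarith
        · exact mixed h h' b1 a4 m1 m2
      · by_cases m2 : 1 / 3 ≤ h' ∧ h' ≤ 2 / 3
        · rw [dist_comm, abs_sub_comm h h']
          exact mixed h' h b1 a4 m2 m1
        · rw [gneg t x h (fun hc => m1 hc.1), gneg t x h' (fun hc => m2 hc.1)]
          linarith
    · rw [gneg t x h (fun hc => A hc.2), gneg t x h' (fun hc => A hc.2)]
      linarith
  · -- Lipschitz in t
    intro x h t t'
    change dist (g t x h) (g t' x h) ≤ _
    have f3 : 0 ≤ C1 * |t - t'| := mul_nonneg hC1 (abs_nonneg _)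
    have f4 : 0 ≤ B * |t - t'| := mul_nonneg hB0 (abs_nonneg _)
    have f5 := Gt t t' x h
    have mixed : ∀ u u' : ℝ, 0 < chi x → (1 / 3 ≤ h ∧ h ≤ 2 / 3) → 0 < t2 u → ¬ 0 < t2 u' →
        dist (g u x h) (g u' x h) ≤ (300 * B + 600 * C1) * |u - u'| := by
      rintro u u' b1 ⟨a1, a2⟩ c1 c2
      rw [gpos u x h a1 a2 b1 c1, gneg u' x h (fun hc => c2 hc.2.2)]
      have c0 : t2 u' = 0 := le_antisymm (not_lt.1 c2) (clip_nonneg _)
      have c3 := t2_lip u u'
      rw [c0, sub_zero, abs_of_pos c1] at c3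
      have c4 := near2 u x h a1 a2 b1 c1
      have c5 : C1 * t2 u ≤ C1 * (3 * |u - u'|) := mul_le_mul_of_nonneg_left c3 hC1
      have e3 : 0 ≤ C1 * |u - u'| := mul_nonneg hC1 (abs_nonneg _)
      have e4 : 0 ≤ B * |u - u'| := mul_nonneg hB0 (abs_nonneg _)
      calc _ ≤ dist (K (cen x) (3 * h - 1) (t2 u * chi x)) (G u x h) +
            dist (G u x h) (G u' x h) := dist_triangle _ _ _
        _ ≤ _ := by linarith [Gt u u' x h]
    by_cases A : 0 < chi x ∧ (1 / 3 ≤ h ∧ h ≤ 2 / 3)
    · obtain ⟨b1, m1⟩ := A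
      by_cases c1 : 0 < t2 t
      · by_cases c2 : 0 < t2 t'
        · rw [gpos t x h m1.1 m1.2 b1 c1, gpos t' x h m1.1 m1.2 b1 c2]
          have d1 := (kp x).2.1 (3 * h - 1) (t2 t * chi x) (t2 t' * chi x)
          have d2 : |t2 t * chi x - t2 t' * chi x| ≤ 3 * |t - t'| := by
            rw [← sub_mul, abs_mul, abs_of_pos b1]
            calc |t2 t - t2 t'| * chi x ≤ (3 * |t - t'|) * 1 :=
                  mul_le_mul (t2_lip t t') (chi_le_one x) b1.le (by positivity)
              _ = _ := by ring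
          have d3 := mul_le_mul_of_nonneg_left d2 hC1
          refine d1.trans ?_
          linarith
        · exact mixed t t' b1 m1 c1 c2
      · by_cases c2 : 0 < t2 t'
        · rw [dist_comm, abs_sub_comm t t']
          exact mixed t' t b1 m1 c2 c1
        · rw [gneg t x h (fun hc => c1 hc.2.2), gneg t' x h (fun hc => c2 hc.2.2)]
          linarith
    · rw [gneg t x h (fun hc => A ⟨hc.2.1, hc.1⟩), gneg t' x h (fun hc => A ⟨hc.2.1, hc.1⟩)]
      linarith
  · -- time 0
    intro x h hh0 hh1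
    have e2 : t2 0 = 0 := clip_zero (by norm_num)
    have e1 : t1 0 = 0 := clip_zero (by norm_num)
    have e0 : t0 0 = 0 := clip_zero (by norm_num)
    rw [gneg 0 x h (fun hc => by rw [e2] at hc; exact lt_irrefl _ hc.2.2), hG]
    simp only
    have ex : XX 0 x h = x := by
      funext i
      unfold XX
      rw [e1]
      ring
    have eh : HH 0 h = h := by
      unfold HH
      rw [e0, clip_id hh0 hh1]
      ring
    rw [ex, eh]
  · -- ends
    intro t x
    constructor
    · rw [gneg t x 0 (fun hc => by linarith [hc.1.1]), hG]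
      simp only
      have eb : bet 0 = 0 := by
        unfold bet
        rw [clip_zero le_rfl]
        norm_num
      have ex : XX t x 0 = x := by
        funext i
        unfold XX
        rw [eb]
        ring
      have eh : HH t 0 = 0 := by
        unfold HH
        rw [clip_zero le_rfl, clip_zero (by norm_num)]
        ring
      rw [ex, eh]
    · rw [gneg t x 1 (fun hc => by linarith [hc.1.2]), hG]
      simp only
      have eb : bet 1 = 0 := by
        unfold bet
        rw [clip_one le_rfl]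
        norm_num
      have ex : XX t x 1 = x := by
        funext i
        unfold XX
        rw [eb]
        ring
      have eh : HH t 1 = 1 := by
        unfold HH
        rw [clip_one le_rfl, clip_one (by norm_num)]
        ring
      rw [ex, eh]
  · -- time 1
    intro x h hh0 hh1 hf0 hf1
    have hD := far_D hf0 hf1
    have e2 : t2 1 = 1 := clip_one (by norm_num)
    have e0 : t0 1 = 1 := clip_one (by norm_num)
    have ec : chi x = 1 := chi_one hD
    by_cases m1 : 1 / 3 ≤ h ∧ h ≤ 2 / 3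
    · rw [gpos 1 x h m1.1 m1.2 (by rw [ec]; exact one_pos) (by rw [e2]; exact one_pos), e2, ec,
        one_mul]
      exact (kp x).2.2.2.1 _
    · rw [gneg 1 x h (fun hc => m1 hc.1), hG]
      simp only
      have eh : HH 1 h = clip (3 * h - 1) := by
        unfold HH
        rw [e0, clip_id hh0 hh1]
        ring
      rw [eh]
      rcases lt_or_ge h (1 / 3) with h3 | h3
      · rw [clip_zero (by linarith)]
        exact h0 _ (XX_far hD (by norm_num) wall_mem0 hf0 1 h)
      · have h4 : 2 / 3 < h := by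
          by_contra hc
          exact m1 ⟨h3, not_lt.1 hc⟩
        rw [clip_one (by linarith)]
        exact h1 _ (XX_far hD (by norm_num) wall_mem1 hf1 1 h)

end Pool.Agent.H689R3.Slab
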