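import Mathlib

/-!
# Rational maps from a product of two curves to the plane, in terms of function fields

Smooth projective curves over `ℂ` are encoded by their function fields, and dominant rational maps
`X ⇢ ℙ²` by the corresponding embeddings `ℂ(ℙ²) → ℂ(X)` of function fields.
-/

namespace Pool.Agent.H689R3.ProdMaps

open scoped TensorProduct IntermediateField

/-- `F` is the function field of a curve over `ℂ`: finitely generated of transcendence
degree one. -/
def IsCurveField (F : Type) [Field F] [Algebra ℂ F] : Prop :=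
  (⊤ : IntermediateField ℂ F).FG ∧ Algebra.trdeg ℂ F = 1

/-- The gonality of the curve with function field `F`: the least degree `[F : ℂ(f)]` over all
non-constant `f`, that is, the least degree of a non-constant morphism to the projective line. -/
noncomputable def gonality (F : Type) [Field F] [Algebra ℂ F] : ℕ :=
  sInf {d : ℕ | ∃ f : F, f ∉ Set.range (algebraMap ℂ F) ∧ d = Module.finrank ℂ⟮f⟯ F}

/-- `F` is the function field of the plane curve `y² = P(x)`. The curves of genus two are exactly
the smooth projective models of the curves `y² = P(x)` with `P` squarefree of degree 5 or 6. -/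
def IsDoubleCoverField (P : Polynomial ℂ) (F : Type) [Field F] [Algebra ℂ F] : Prop :=
  ∃ x y : F, Transcendental ℂ x ∧ y ^ 2 = Polynomial.aeval x P ∧
    IntermediateField.adjoin ℂ {x, y} = ⊤

/-- The function field `ℂ(s, t)` of the projective plane. -/
abbrev PlaneField : Type := FractionRing (MvPolynomial (Fin 2) ℂ)

/-- The two coordinate functions of the plane. -/
noncomputable def coord (i : Fin 2) : PlaneField :=
  algebraMap (MvPolynomial (Fin 2) ℂ) PlaneField (MvPolynomial.X i)

section

variable {K : Type} [Field K] [Algebra ℂ K]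

/-- The degree of the dominant rational map `X ⇢ ℙ²` given by `φ : ℂ(ℙ²) → ℂ(X) = K`. -/
noncomputable def mapDegree (φ : PlaneField →ₐ[ℂ] K) : ℕ := Module.finrank φ.fieldRange K

/-- Birational equivalence of dominant rational maps `X ⇢ ℙ²`: they agree up to a birational
self-map of `X` and one of `ℙ²`. -/
def BirationallyEquivalent (φ ψ : PlaneField →ₐ[ℂ] K) : Prop :=
  ∃ (α : K ≃ₐ[ℂ] K) (β : PlaneField ≃ₐ[ℂ] PlaneField), ∀ x, φ (β x) = α (ψ x)

end

section

variable (K₁ K₂ K : Type) [Field K₁] [Algebra ℂ K₁] [Field K₂] [Algebra ℂ K₂] [Field K]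
  [Algebra ℂ K] [Algebra (K₁ ⊗[ℂ] K₂) K]

/-- `ψ` is a product map `f₁ × f₂ : C₁ × C₂ ⇢ ℙ¹ × ℙ¹` (in the coordinates `s`, `t`), where
`K₁`, `K₂` are the function fields of `C₁`, `C₂` and `K` is that of `C₁ × C₂`. -/
def IsProductMap (ψ : PlaneField →ₐ[ℂ] K) : Prop :=
  ∃ (f₁ : K₁) (f₂ : K₂), ψ (coord 0) = algebraMap (K₁ ⊗[ℂ] K₂) K (f₁ ⊗ₜ 1) ∧
    ψ (coord 1) = algebraMap (K₁ ⊗[ℂ] K₂) K (1 ⊗ₜ f₂)

end

end Pool.Agent.H689R3.ProdMaps
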