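import Mathlib

/-!
Quadratic extensions and parity of root multiplicities: general lemmas.
-/

namespace Pool.Agent.H689R3.Quad

open IntermediateField Polynomial

section Parity

variable {A K : Type} [Field A] [Field K] [Algebra A K]

/-- If the value of a polynomial at a transcendental element `w` is a square times something
in `A(w)`, root multiplicities of the polynomial are even. -/
lemma even_rootMultiplicity {w : K} (hw : Transcendental A w) {p : A[X]} (hp : p ≠ 0)
    {g : K} (hg : g ∈ A⟮w⟯) (h : g ^ 2 = aeval w p) (c : A) : Even (p.rootMultiplicity c) := by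
  obtain ⟨r, s, hrs⟩ := (mem_adjoin_simple_iff A g).1 hg
  have hinj : ∀ q : A[X], aeval w q = 0 → q = 0 := fun q hq => by
    by_contra hne
    exact hw ⟨q, hne, hq⟩
  have hg0 : g ≠ 0 := by
    intro h0
    rw [h0, zero_pow two_ne_zero] at h
    exact hp (hinj p h.symm)
  have hs0 : aeval w s ≠ 0 := by
    intro h0
    rw [h0, div_zero] at hrs
    exact hg0 hrs
  have hr0 : aeval w r ≠ 0 := by
    intro h0
    rw [h0, zero_div] at hrs
    exact hg0 hrs
  have hs : s ≠ 0 := by rintro rfl; simp at hs0
  have hr : r ≠ 0 := by rintro rfl; simp at hr0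
  have heq : p * (s * s) = r * r := by
    have h1 : aeval w (p * (s * s) - r * r) = 0 := by
      rw [map_sub, map_mul, map_mul, map_mul, ← h, hrs]
      field_simp
      ring
    exact sub_eq_zero.1 (hinj _ h1)
  have h2 := congrArg (rootMultiplicity c) heq
  rw [rootMultiplicity_mul (mul_ne_zero hp (mul_ne_zero hs hs)),
    rootMultiplicity_mul (mul_ne_zero hs hs), rootMultiplicity_mul (mul_ne_zero hr hr)] at h2
  rw [Nat.even_iff]
  omega

end Parity

section Quadratic

variable {E F : Type} [Field E] [CharZero E] [Field F] [Algebra E F]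

omit [CharZero E] in
lemma exists_repr_of_finrank_two (h : Module.finrank E F = 2) {y : F}
    (hy : y ∉ Set.range (algebraMap E F)) (z : F) : ∃ a b : E,
      z = algebraMap E F a + algebraMap E F b * y := by
  have : Module.Finite E F := Module.finite_of_finrank_pos (by omega)
  have hli : LinearIndependent E ![1, y] := by
    rw [LinearIndependent.pair_iff]
    intro s t hst
    by_cases ht : t = 0
    · subst ht
      rw [zero_smul, add_zero, Algebra.smul_def, mul_one] at hst
      exact ⟨(map_eq_zero _).1 hst, rfl⟩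
    · exfalso
      apply hy
      refine ⟨-s / t, ?_⟩
      rw [Algebra.smul_def, Algebra.smul_def, mul_one] at hst
      have ht' : algebraMap E F t ≠ 0 := (_root_.map_ne_zero _).2 ht
      rw [map_div₀, map_neg, div_eq_iff ht']
      linear_combination -hst
  have hb := hli.span_eq_top_of_card_eq_finrank (by simp [h])
  have hz : z ∈ Submodule.span E (Set.range ![1, y]) := by rw [hb]; trivial
  simp only [Matrix.range_cons, Matrix.range_empty, Set.union_empty, Set.union_singleton] at hz
  rw [Submodule.mem_span_pair] at hz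
  obtain ⟨a, b, hab⟩ := hz
  refine ⟨b, a, ?_⟩
  rw [← hab, Algebra.smul_def, Algebra.smul_def]
  ring

/-- A quadratic extension in characteristic zero is obtained by adjoining a square root. -/
lemma exists_sqrt_generator (h : Module.finrank E F = 2) :
    ∃ p : F, p ∉ Set.range (algebraMap E F) ∧ p ^ 2 ∈ Set.range (algebraMap E F) ∧
      ∀ x : F, ∃ a b : E, x = algebraMap E F a + algebraMap E F b * p := by
  have hex : ∃ x : F, x ∉ Set.range (algebraMap E F) := by
    by_contra hcon
    push Not at hcon
    have : (⊥ : Subalgebra E F) = ⊤ := by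
      rw [eq_top_iff]
      intro x _
      exact Algebra.mem_bot.2 (hcon x)
    have h1 := Subalgebra.bot_eq_top_iff_finrank_eq_one.1 this
    omega
  obtain ⟨x, hx⟩ := hex
  have hspan : ∀ y : F, y ∉ Set.range (algebraMap E F) → ∀ z : F, ∃ a b : E,
      z = algebraMap E F a + algebraMap E F b * y :=
    fun y hy z => exists_repr_of_finrank_two h hy z
  obtain ⟨a, b, hab⟩ := hspan x hx (x ^ 2)
  have h2 : (2 : E) ≠ 0 := two_ne_zero
  have hp : x - algebraMap E F (b / 2) ∉ Set.range (algebraMap E F) := by
    rintro ⟨c, hc⟩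
    apply hx
    refine ⟨c + b / 2, ?_⟩
    rw [map_add, hc]; ring
  refine ⟨x - algebraMap E F (b / 2), hp, ?_, fun z => hspan _ hp z⟩
  refine ⟨a + b ^ 2 / 4, ?_⟩
  have h3 : algebraMap E F b = 2 * algebraMap E F (b / 2) := by
    have : b = 2 * (b / 2) := by field_simp
    conv_lhs => rw [this]
    rw [map_mul, map_ofNat]
  have h4 : algebraMap E F (b ^ 2 / 4) = (algebraMap E F (b / 2)) ^ 2 := by
    rw [← map_pow]; congr 1; ring
  rw [map_add, h4]
  have : (x - algebraMap E F (b / 2)) ^ 2 = x ^ 2 - 2 * algebraMap E F (b / 2) * x +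
    algebraMap E F (b / 2) ^ 2 := by ring
  rw [this, hab, h3]
  ring

omit [CharZero E] in
/-- degree of an extension generated by a square root. -/
lemma finrank_adjoin_sqrt {x : F} (hx : x ∉ Set.range (algebraMap E F))
    (hx2 : x ^ 2 ∈ Set.range (algebraMap E F)) : Module.finrank E E⟮x⟯ = 2 := by
  obtain ⟨c, hc⟩ := hx2
  have hroot : aeval x (X ^ 2 - C c : E[X]) = 0 := by
    simp [hc]
  have hmonic : (X ^ 2 - C c : E[X]).Monic := monic_X_pow_sub_C c two_ne_zero
  have hint : IsIntegral E x := ⟨_, hmonic, by rwa [← aeval_def]⟩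
  rw [adjoin.finrank hint]
  apply le_antisymm
  · have h1 := natDegree_le_natDegree (minpoly.min E x hmonic hroot)
    rwa [natDegree_X_pow_sub_C] at h1
  · rw [minpoly.two_le_natDegree_iff hint]
    rintro ⟨y, hy⟩
    exact hx ⟨y, hy⟩

/-- An element whose square lies in the base of a quadratic extension `M(y)`. -/
lemma sqrt_cases {M : Type} [Field M] [CharZero M] {G : Type} [Field G] [Algebra M G] {y s : G}
    (hy : y ∉ Set.range (algebraMap M G)) (hy2 : y ^ 2 ∈ Set.range (algebraMap M G))
    (hs2 : s ^ 2 ∈ Set.range (algebraMap M G))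
    (hs : ∃ a b : M, s = algebraMap M G a + algebraMap M G b * y) :
    s ∈ Set.range (algebraMap M G) ∨ ∃ b : M, s = algebraMap M G b * y := by
  obtain ⟨a, b, hab⟩ := hs
  obtain ⟨c, hc⟩ := hy2
  obtain ⟨e, he⟩ := hs2
  by_cases hab0 : a * b = 0
  · rcases mul_eq_zero.1 hab0 with h | h
    · right
      exact ⟨b, by rw [hab, h]; simp⟩
    · left
      exact ⟨a, by rw [hab, h]; simp⟩
  · exfalso
    apply hy
    have h0 : algebraMap M G (2 * (a * b)) ≠ 0 :=
      (_root_.map_ne_zero _).2 (mul_ne_zero two_ne_zero hab0)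
    refine ⟨(e - a ^ 2 - b ^ 2 * c) / (2 * (a * b)), ?_⟩
    rw [map_div₀, div_eq_iff h0]
    simp only [map_sub, map_mul, map_pow, map_ofNat]
    rw [he, hc, hab]
    ring

end Quadratic

end Pool.Agent.H689R3.Quad
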