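import Pool.Agent.H689R3.QuadA

/-!
The non-product map: parity of multiplicities along `t = z + v`.
-/

namespace Pool.Agent.H689R3.Quad

open IntermediateField Polynomial

section AlgClosed

variable {k : Type} [Field k] [IsAlgClosed k]

/-- Over an algebraically closed field a polynomial with even root multiplicities is a square. -/
lemma exists_sq_of_even {p : k[X]} (h : ∀ c, Even (p.rootMultiplicity c)) :
    ∃ q : k[X], p = q ^ 2 := by
  classical
  obtain ⟨l, hl⟩ := IsAlgClosed.exists_pow_nat_eq p.leadingCoeff (n := 2) two_pos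
  refine ⟨C l * ∏ a ∈ p.roots.toFinset, (X - C a) ^ (p.rootMultiplicity a / 2), ?_⟩
  have hp : p = C p.leadingCoeff * (p.roots.map (fun a => X - C a)).prod :=
    (IsAlgClosed.splits p).eq_prod_roots
  conv_lhs => rw [hp]
  rw [mul_pow, ← map_pow, hl, Finset.prod_multiset_map_count, ← Finset.prod_pow]
  congr 1
  apply Finset.prod_congr rfl
  intro a _
  rw [← pow_mul, count_roots]
  congr 1
  exact (Nat.div_mul_cancel (h a).two_dvd).symm

lemma mem_range_of_root {A : Type} [Field A] [Algebra k A] {p : k[X]} (hp : p ≠ 0) {x : A}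
    (hx : (p.map (algebraMap k A)).IsRoot x) : x ∈ Set.range (algebraMap k A) :=
  (IsAlgClosed.splits p).mem_range_of_isRoot hp hx

lemma transcendental_of_notMem {A : Type} [Field A] [Algebra k A] {x : A}
    (hx : x ∉ Set.range (algebraMap k A)) : Transcendental k x := by
  rintro ⟨p, hp, hpx⟩
  apply hx
  apply mem_range_of_root hp
  rwa [IsRoot.def, eval_map_algebraMap]

/-- A quadratic function field contains `y` outside `k(z)` with `y² = d(z)`. -/
lemma exists_model [CharZero k] {B : Type} [Field B] [Algebra k B] {z : B}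
    (hz : Module.finrank k⟮z⟯ B = 2) :
    ∃ (y : B) (d : k[X]) (r : k), y ∉ Set.range (algebraMap k⟮z⟯ B) ∧ y ^ 2 = aeval z d ∧
      Odd (d.rootMultiplicity r) ∧
      ∀ x : B, ∃ a b : k⟮z⟯, x = algebraMap k⟮z⟯ B a + algebraMap k⟮z⟯ B b * y := by
  obtain ⟨y₀, hy₀, hy₀2, -⟩ := exists_sqrt_generator hz
  obtain ⟨c, hc⟩ := hy₀2
  obtain ⟨p, q, hpq⟩ := (mem_adjoin_simple_iff k (c : B)).1 c.2
  have hc0 : (c : B) ≠ 0 := by
    intro h0
    apply hy₀
    have : y₀ ^ 2 = 0 := by rw [← hc]; exact h0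
    rw [pow_eq_zero_iff two_ne_zero] at this
    exact ⟨0, by rw [this, map_zero]⟩
  have hq0 : aeval z q ≠ 0 := by
    intro h0
    rw [h0, div_zero] at hpq
    exact hc0 hpq
  have hy2 : (y₀ * aeval z q) ^ 2 = aeval z (p * q) := by
    have : y₀ ^ 2 = aeval z p / aeval z q := by rw [← hpq, ← hc]; rfl
    rw [mul_pow, this, map_mul]
    field_simp
  have hqmem : aeval z q ∈ k⟮z⟯ := by
    rw [mem_adjoin_simple_iff]
    exact ⟨q, 1, by simp⟩
  have hynot : y₀ * aeval z q ∉ Set.range (algebraMap k⟮z⟯ B) := by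
    rintro ⟨e, he⟩
    apply hy₀
    refine ⟨e / ⟨aeval z q, hqmem⟩, ?_⟩
    rw [map_div₀, he]
    change y₀ * aeval z q / aeval z q = y₀
    field_simp
  have hodd : ∃ r, Odd ((p * q).rootMultiplicity r) := by
    by_contra hcon
    push Not at hcon
    simp only [Nat.not_odd_iff_even] at hcon
    obtain ⟨e, he⟩ := exists_sq_of_even hcon
    have h1 : (y₀ * aeval z q) ^ 2 = (aeval z e) ^ 2 := by rw [hy2, he, map_pow]
    have hemem : aeval z e ∈ k⟮z⟯ := by
      rw [mem_adjoin_simple_iff]
      exact ⟨e, 1, by simp⟩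
    rcases sq_eq_sq_iff_eq_or_eq_neg.1 h1 with h2 | h2
    · exact hynot ⟨⟨_, hemem⟩, h2.symm⟩
    · exact hynot ⟨-⟨_, hemem⟩, by rw [map_neg, h2]; rfl⟩
  obtain ⟨r, hr⟩ := hodd
  exact ⟨_, _, r, hynot, hy2, hr, fun x => exists_repr_of_finrank_two hz hynot x⟩

end AlgClosed

section Shift

variable {k A : Type} [Field k] [Field A] [Algebra k A]

/-- `d(T - v)` as a polynomial over `A`. -/
noncomputable def shiftPoly (d : k[X]) (v : A) : A[X] :=
  (d.map (algebraMap k A)).comp (X - C v)

lemma rootMultiplicity_shiftPoly (d : k[X]) (v : A) (r : k) :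
    (shiftPoly d v).rootMultiplicity (v + algebraMap k A r) = d.rootMultiplicity r := by
  rw [rootMultiplicity_eq_rootMultiplicity, shiftPoly, comp_assoc,
    eq_rootMultiplicity_map (algebraMap k A).injective r,
    rootMultiplicity_eq_rootMultiplicity (p := d.map (algebraMap k A))]
  congr 2
  simp only [sub_comp, X_comp, C_comp, map_add]
  ring

lemma isRoot_shiftPoly {d : k[X]} {v c : A} (h : (shiftPoly d v).IsRoot c) :
    (d.map (algebraMap k A)).IsRoot (c - v) := by
  rw [shiftPoly, IsRoot.def, eval_comp] at h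
  simpa using h

lemma aeval_shiftPoly {K : Type} [Field K] [Algebra k K] [Algebra A K] [IsScalarTower k A K]
    (d : k[X]) (v : A) (t : K) :
    aeval t (shiftPoly d v) = aeval (t - algebraMap A K v) d := by
  rw [shiftPoly, aeval_comp]
  simp

end Shift

end Pool.Agent.H689R3.Quad
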