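import Pool.Agent.H689R3.QuadB

/-!
The non-product map `(u, z + v)`: degree and square roots.
-/

namespace Pool.Agent.H689R3.Quad

open IntermediateField Polynomial

section Main

variable {k A B K : Type} [Field k] [IsAlgClosed k] [CharZero k] [Field A] [Field B] [Field K]
  [Algebra k A] [Algebra k B] [Algebra k K] [Algebra A K] [Algebra B K] [IsScalarTower k A K]
  [IsScalarTower k B K]

/-- the subfield generated by `u` and `t` -/
abbrev Lf (k : Type) {K : Type} [Field k] [Field K] [Algebra k K] (u t : K) :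
    IntermediateField k K := IntermediateField.adjoin k {u, t}

omit [IsAlgClosed k] [CharZero k] in
lemma transcendental_shift {z : K} (hz : Transcendental A z) (v : A) :
    Transcendental A (z + algebraMap A K v) := by
  rintro ⟨p, hp, hpz⟩
  refine hz ⟨p.comp (X + C v), ?_, ?_⟩
  · intro h0
    apply hp
    have : (p.comp (X + C v)).comp (X - C v) = 0 := by rw [h0, zero_comp]
    rw [comp_assoc] at this
    simpa using this
  · rw [aeval_comp]
    simpa using hpz

omit [IsAlgClosed k] [CharZero k] in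
lemma mem_Lf {u : A} {t x : K} (hx : x ∈ Lf k (algebraMap A K u) t) :
    ∃ p q : (k⟮u⟯)[X], x = aeval t (p.map (algebraMap k⟮u⟯ A)) /
      aeval t (q.map (algebraMap k⟮u⟯ A)) := by
  have hle : Lf k (algebraMap A K u) t ≤
      (IntermediateField.adjoin (k⟮u⟯) {t}).restrictScalars k := by
    rw [IntermediateField.adjoin_le_iff]
    rintro a (rfl | ha)
    · rw [SetLike.mem_coe, mem_restrictScalars]
      have h0 := (IntermediateField.adjoin (k⟮u⟯) {t}).algebraMap_mem
        ⟨u, mem_adjoin_simple_self k u⟩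
      rw [IsScalarTower.algebraMap_apply k⟮u⟯ A K] at h0
      exact h0
    · rw [Set.mem_singleton_iff] at ha
      subst ha
      rw [SetLike.mem_coe, mem_restrictScalars]
      exact mem_adjoin_simple_self _ _
  have h1 := hle hx
  rw [mem_restrictScalars, mem_adjoin_simple_iff] at h1
  obtain ⟨p, q, hpq⟩ := h1
  refine ⟨p, q, ?_⟩
  rw [aeval_map_algebraMap, aeval_map_algebraMap]
  exact hpq

omit [IsAlgClosed k] [CharZero k] [IsScalarTower k A K] [Algebra k A] in
lemma mem_adjoin_of_le {L : IntermediateField k K} {v : A} {t x : K} (hL : ∀ a ∈ L, a ∈ A⟮t⟯)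
    (hx : x ∈ IntermediateField.adjoin L {algebraMap A K v}) :
    x ∈ A⟮t⟯ := by
  obtain ⟨p, q, hpq⟩ := (mem_adjoin_simple_iff _ x).1 hx
  have haux : ∀ p : L[X], aeval (algebraMap A K v) p ∈ A⟮t⟯ := by
    intro p
    rw [aeval_eq_sum_range]
    refine sum_mem fun i _ => ?_
    rw [Algebra.smul_def]
    refine mul_mem ?_ (pow_mem ?_ i)
    · exact hL _ (p.coeff i).2
    · exact (A⟮t⟯).algebraMap_mem v
  rw [hpq]
  exact div_mem (haux p) (haux q)

omit [IsAlgClosed k] [CharZero k] in
lemma Lf_le {u : A} {t : K} : ∀ a ∈ Lf k (algebraMap A K u) t, a ∈ A⟮t⟯ := by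
  have : Lf k (algebraMap A K u) t ≤ (A⟮t⟯).restrictScalars k := by
    rw [IntermediateField.adjoin_le_iff]
    intro a ha
    rw [SetLike.mem_coe, mem_restrictScalars]
    rcases ha with ha | ha
    · rw [ha]
      exact (A⟮t⟯).algebraMap_mem u
    · rw [Set.mem_singleton_iff] at ha
      rw [ha]
      exact mem_adjoin_simple_self A t
  intro a ha
  exact (mem_restrictScalars k).1 (this ha)

omit [IsAlgClosed k] [CharZero k] in
lemma mem_adjoin_of_mem {u v : A} {t x : K}
    (hx : x ∈ IntermediateField.adjoin (Lf k (algebraMap A K u) t) {algebraMap A K v}) :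
    x ∈ A⟮t⟯ := mem_adjoin_of_le Lf_le hx

omit [IsAlgClosed k] [CharZero k] in
/-- `v` is not in `k(u, t)`. -/
lemma notMem_Lf {u v : A} (hv : v ∉ Set.range (algebraMap k⟮u⟯ A)) {t : K}
    (ht : Transcendental A t) : algebraMap A K v ∉ Lf k (algebraMap A K u) t := by
  intro hmem
  obtain ⟨p, q, hpq⟩ := mem_Lf hmem
  have hinj : ∀ q : A[X], aeval t q = 0 → q = 0 := fun q hq => by
    by_contra hne
    exact ht ⟨q, hne, hq⟩
  have hv0 : v ≠ 0 := by
    rintro rfl
    exact hv ⟨0, map_zero _⟩
  have hq0 : aeval t (q.map (algebraMap k⟮u⟯ A)) ≠ 0 := by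
    intro h0
    rw [h0, div_zero] at hpq
    exact hv0 ((map_eq_zero _).1 hpq)
  have hqne : q ≠ 0 := by rintro rfl; simp at hq0
  rw [eq_div_iff hq0] at hpq
  have h1 : C v * q.map (algebraMap k⟮u⟯ A) - p.map (algebraMap k⟮u⟯ A) = 0 := by
    apply hinj
    rw [map_sub, map_mul, aeval_C, hpq, sub_self]
  have h2 := congrArg (fun w => coeff w q.natDegree) h1
  simp only [coeff_sub, coeff_C_mul, coeff_map, coeff_zero] at h2
  have h3 : q.coeff q.natDegree ≠ 0 := by
    rw [coeff_natDegree]; exact leadingCoeff_ne_zero.2 hqne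
  have h3' : algebraMap k⟮u⟯ A (q.coeff q.natDegree) ≠ 0 := (_root_.map_ne_zero _).2 h3
  apply hv
  refine ⟨p.coeff q.natDegree / q.coeff q.natDegree, ?_⟩
  rw [map_div₀, div_eq_iff h3']
  linear_combination -h2

/-- Square roots over `k(u, t)` inside `A(t)(y)` lie in `A(t)`: the exceptional case. -/
lemma no_twisted_sqrt {u v : A} (hu : Module.finrank k⟮u⟯ A = 2)
    (hv : v ∉ Set.range (algebraMap k⟮u⟯ A)) {t : K} (ht : Transcendental A t) {d : k[X]} {r : k}
    (hd : Odd (d.rootMultiplicity r)) {x g : K} (hx : x ∈ Lf k (algebraMap A K u) t)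
    (hg : g ∈ A⟮t⟯) (hg0 : g ≠ 0) (h : x = g ^ 2 * aeval t (shiftPoly d v)) : False := by
  have hinj : ∀ q : A[X], aeval t q = 0 → q = 0 := fun q hq => by
    by_contra hne
    exact ht ⟨q, hne, hq⟩
  have hd0 : d ≠ 0 := by
    rintro rfl
    simp at hd
  have hds0 : shiftPoly d v ≠ 0 := by
    intro h0
    have := rootMultiplicity_shiftPoly d v r
    rw [h0, rootMultiplicity_zero] at this
    rw [← this] at hd
    simp at hd
  have hds0' : aeval t (shiftPoly d v) ≠ 0 := fun h0 => hds0 (hinj _ h0)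
  obtain ⟨p, q, hpq⟩ := mem_Lf hx
  obtain ⟨a, b, hab⟩ := (mem_adjoin_simple_iff A g).1 hg
  have hx0 : x ≠ 0 := by
    rw [h]
    exact mul_ne_zero (pow_ne_zero 2 hg0) hds0'
  have hq0 : aeval t (q.map (algebraMap k⟮u⟯ A)) ≠ 0 := by
    intro h0
    rw [h0, div_zero] at hpq
    exact hx0 hpq
  have hp0 : aeval t (p.map (algebraMap k⟮u⟯ A)) ≠ 0 := by
    intro h0
    rw [h0, zero_div] at hpq
    exact hx0 hpq
  have ha0 : aeval t a ≠ 0 := by
    intro h0
    rw [h0, zero_div] at hab
    exact hg0 hab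
  have hb0 : aeval t b ≠ 0 := by
    intro h0
    rw [h0, div_zero] at hab
    exact hg0 hab
  have hqn : q.map (algebraMap k⟮u⟯ A) ≠ 0 := by intro h0; rw [h0] at hq0; simp at hq0
  have hpn : p.map (algebraMap k⟮u⟯ A) ≠ 0 := by intro h0; rw [h0] at hp0; simp at hp0
  have han : a ≠ 0 := by rintro rfl; simp at ha0
  have hbn : b ≠ 0 := by rintro rfl; simp at hb0
  have heq : p.map (algebraMap k⟮u⟯ A) * (b * b) =
      q.map (algebraMap k⟮u⟯ A) * ((a * a) * shiftPoly d v) := by
    have h1 : aeval t (p.map (algebraMap k⟮u⟯ A) * (b * b) -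
      q.map (algebraMap k⟮u⟯ A) * ((a * a) * shiftPoly d v)) = 0 := by
      simp only [map_sub, map_mul]
      rw [hpq, hab] at h
      field_simp at h
      linear_combination h
    exact sub_eq_zero.1 (hinj _ h1)
  have hpar : ∀ c : A, ((p.map (algebraMap k⟮u⟯ A)).rootMultiplicity c +
      (q.map (algebraMap k⟮u⟯ A)).rootMultiplicity c +
      (shiftPoly d v).rootMultiplicity c) % 2 = 0 := by
    intro c
    have h2 := congrArg (rootMultiplicity c) heq
    rw [rootMultiplicity_mul (mul_ne_zero hpn (mul_ne_zero hbn hbn)),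
      rootMultiplicity_mul (mul_ne_zero hbn hbn),
      rootMultiplicity_mul (mul_ne_zero hqn (mul_ne_zero (mul_ne_zero han han) hds0)),
      rootMultiplicity_mul (mul_ne_zero (mul_ne_zero han han) hds0),
      rootMultiplicity_mul (mul_ne_zero han han)] at h2
    omega
  -- the Galois conjugation
  have : Module.Finite k⟮u⟯ A := Module.finite_of_finrank_pos (by omega)
  have hquad : Algebra.IsQuadraticExtension k⟮u⟯ A := { finrank_eq_two' := hu }
  have hgal : IsGalois k⟮u⟯ A := Algebra.IsQuadraticExtension.isGalois _ _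
  have hσ : ∃ σ : A ≃ₐ[k⟮u⟯] A, σ v ≠ v := by
    by_contra hcon
    push Not at hcon
    exact hv ((IsGalois.mem_range_algebraMap_iff_fixed v).2 hcon)
  obtain ⟨σ, hσv⟩ := hσ
  have hfix : ∀ p : (k⟮u⟯)[X], (p.map (algebraMap k⟮u⟯ A)).map (σ : A →+* A) =
      p.map (algebraMap k⟮u⟯ A) := by
    intro p
    rw [Polynomial.map_map]
    congr 1
    refine RingHom.ext fun a => ?_
    exact σ.commutes a
  have hmult : ∀ (p : (k⟮u⟯)[X]) (c : A), (p.map (algebraMap k⟮u⟯ A)).rootMultiplicity c =
      (p.map (algebraMap k⟮u⟯ A)).rootMultiplicity (σ c) := by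
    intro p c
    have h1 := eq_rootMultiplicity_map (p := p.map (algebraMap k⟮u⟯ A)) (f := (σ : A →+* A))
      σ.injective c
    rw [hfix] at h1
    exact h1
  set c := v + algebraMap k A r with hc
  have h1 := hpar c
  have h2 := hpar (σ c)
  rw [← hmult, ← hmult] at h2
  rw [hc, rootMultiplicity_shiftPoly, ← hc] at h1
  have hodd : (shiftPoly d v).rootMultiplicity (σ c) ≠ 0 := by
    obtain ⟨m, hm⟩ := hd
    omega
  have hroot : (shiftPoly d v).IsRoot (σ c) := by
    by_contra hnr
    exact hodd (rootMultiplicity_eq_zero hnr)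
  obtain ⟨e, he⟩ := mem_range_of_root hd0 (isRoot_shiftPoly hroot)
  -- `σ v = v + const`
  have hσr : σ (algebraMap k A r) = algebraMap k A r := by
    have : algebraMap k A r = algebraMap k⟮u⟯ A (algebraMap k k⟮u⟯ r) := rfl
    rw [this, σ.commutes]
  have hσk : ∀ a : k, σ (algebraMap k A a) = algebraMap k A a := by
    intro a
    have : algebraMap k A a = algebraMap k⟮u⟯ A (algebraMap k k⟮u⟯ a) := rfl
    rw [this, σ.commutes]
  have h3 : σ v = v + algebraMap k A (e - r) := by
    rw [hc, map_add, hσr] at he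
    rw [map_sub, he]
    ring
  have hiter : ∀ n : ℕ, (σ ^ n) v = v + n * algebraMap k A (e - r) := by
    intro n
    induction n with
    | zero => simp
    | succ n ih =>
      rw [pow_succ', AlgEquiv.mul_apply, ih, map_add, h3, map_mul, map_natCast, hσk]
      push_cast
      ring
  have hfin : IsOfFinOrder σ := isOfFinOrder_of_finite σ
  obtain ⟨n, hn, hn1⟩ := isOfFinOrder_iff_pow_eq_one.1 hfin
  have h4 := hiter n
  rw [hn1, AlgEquiv.one_apply] at h4
  have h5 : (n : A) * algebraMap k A (e - r) = 0 := by linear_combination -h4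
  have hA : CharZero A := charZero_of_injective_algebraMap (algebraMap k A).injective
  rcases mul_eq_zero.1 h5 with h6 | h6
  · exact hn.ne' (by exact_mod_cast h6)
  · rw [h6, add_zero] at h3
    exact hσv h3

end Main

end Pool.Agent.H689R3.Quad
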