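import Pool.Agent.H689R3.QuadC

/-!
The non-product map `(u, z + v)`: it has degree four and the function field is not generated by
square roots.
-/

namespace Pool.Agent.H689R3.Quad

open IntermediateField Polynomial

section Main

variable {k A B K : Type} [Field k] [IsAlgClosed k] [CharZero k] [Field A] [Field B] [Field K]
  [Algebra k A] [Algebra k B] [Algebra k K] [Algebra A K] [Algebra B K] [IsScalarTower k A K]
  [IsScalarTower k B K]

omit [IsAlgClosed k] [CharZero k] in
lemma algebraMap_mem_of_mem_adjoin {u x : A} (hx : x ∈ k⟮u⟯) {M : IntermediateField k K}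
    (hu : algebraMap A K u ∈ M) : algebraMap A K x ∈ M := by
  have hle : k⟮u⟯ ≤ M.comap (IsScalarTower.toAlgHom k A K) := by
    rw [adjoin_simple_le_iff]
    exact hu
  exact hle hx

theorem phi_part {u : A} (hu : Module.finrank k⟮u⟯ A = 2) (hut : Transcendental k u) {z : B}
    (hz : Module.finrank k⟮z⟯ B = 2) (hzA : Transcendental A (algebraMap B K z))
    (hgen : ∀ M : IntermediateField k K, (∀ a : A, algebraMap A K a ∈ M) →
      (∀ b : B, algebraMap B K b ∈ M) → M = ⊤) :
    ∃ t : K, AlgebraicIndependent k ![algebraMap A K u, t] ∧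
      Module.finrank (Lf k (algebraMap A K u) t) K = 4 ∧
      ¬ ∃ p q : K, p ^ 2 ∈ Lf k (algebraMap A K u) t ∧ q ^ 2 ∈ Lf k (algebraMap A K u) t ∧
        ∀ M : IntermediateField k K, Lf k (algebraMap A K u) t ≤ M → p ∈ M → q ∈ M → M = ⊤ := by
  have : CharZero K := charZero_of_injective_algebraMap (algebraMap k K).injective
  obtain ⟨v, hv, hv2, hvgen⟩ := exists_sqrt_generator hu
  obtain ⟨y, d, r, hy, hy2, hd, hygen⟩ := exists_model hz
  set t : K := algebraMap B K z + algebraMap A K v with htdef
  have ht : Transcendental A t := transcendental_shift hzA v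
  have hy2' : algebraMap B K y ^ 2 = aeval t (shiftPoly d v) := by
    rw [aeval_shiftPoly, htdef, add_sub_cancel_right, ← map_pow, hy2, aeval_algebraMap_apply]
  have hsp0 : shiftPoly d v ≠ 0 := by
    intro h0
    have := rootMultiplicity_shiftPoly d v r
    rw [h0, rootMultiplicity_zero] at this
    rw [← this] at hd
    simp at hd
  have hyA : algebraMap B K y ∉ A⟮t⟯ := by
    intro hmem
    have h1 := even_rootMultiplicity ht hsp0 hmem hy2' (v + algebraMap k A r)
    rw [rootMultiplicity_shiftPoly] at h1
    exact (Nat.not_even_iff_odd.2 hd) h1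
  set L := Lf k (algebraMap A K u) t with hL
  have huL : algebraMap A K u ∈ L := IntermediateField.subset_adjoin _ _ (by simp)
  have htL : t ∈ L := IntermediateField.subset_adjoin _ _ (by simp)
  let M : IntermediateField L K := IntermediateField.adjoin L {algebraMap A K v}
  have hMA : ∀ x ∈ M, x ∈ A⟮t⟯ := fun x hx => mem_adjoin_of_mem hx
  have hLM : ∀ x ∈ L, x ∈ M := fun x hx => M.algebraMap_mem ⟨x, hx⟩
  have hvM : algebraMap A K v ∈ M := mem_adjoin_simple_self _ _
  have hyM : algebraMap B K y ∉ M := fun h => hyA (hMA _ h)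
  have hAM : ∀ a : A, algebraMap A K a ∈ M := by
    intro a
    obtain ⟨α, β, hαβ⟩ := hvgen a
    rw [hαβ, map_add, map_mul]
    refine add_mem ?_ (mul_mem ?_ hvM)
    · exact hLM _ (algebraMap_mem_of_mem_adjoin α.2 huL)
    · exact hLM _ (algebraMap_mem_of_mem_adjoin β.2 huL)
  have hzM : algebraMap B K z ∈ M := by
    have : algebraMap B K z = t - algebraMap A K v := by rw [htdef]; ring
    rw [this]
    exact sub_mem (hLM _ htL) hvM
  have hzM' : ∀ b ∈ k⟮z⟯, algebraMap B K b ∈ M := by
    intro b hb
    have := algebraMap_mem_of_mem_adjoin (M := M.restrictScalars k) hb hzM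
    exact this
  have htop : IntermediateField.adjoin M {algebraMap B K y} = ⊤ := by
    have hkN : ∀ x : k, algebraMap k K x ∈
        (IntermediateField.adjoin M {algebraMap B K y}).toSubfield := by
      intro x
      exact (IntermediateField.adjoin M {algebraMap B K y}).algebraMap_mem
        ⟨algebraMap k K x, hLM _ (L.algebraMap_mem x)⟩
    have h1 : (IntermediateField.adjoin M {algebraMap B K y}).toSubfield.toIntermediateField
        hkN = ⊤ := by
      apply hgen
      · intro a
        exact (IntermediateField.adjoin M {algebraMap B K y}).algebraMap_mem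
          ⟨_, hAM a⟩
      · intro b
        obtain ⟨α, β, hαβ⟩ := hygen b
        rw [hαβ, map_add, map_mul]
        refine add_mem ?_ (mul_mem ?_ ?_)
        · exact (IntermediateField.adjoin M {algebraMap B K y}).algebraMap_mem
            ⟨_, hzM' _ α.2⟩
        · exact (IntermediateField.adjoin M {algebraMap B K y}).algebraMap_mem
            ⟨_, hzM' _ β.2⟩
        · exact mem_adjoin_simple_self M (algebraMap B K y)
    rw [eq_top_iff]
    intro x _
    have : x ∈ (IntermediateField.adjoin M {algebraMap B K y}).toSubfield.toIntermediateField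
        hkN := by
      rw [h1]; trivial
    exact this
  have hLM2 : Module.finrank L M = 2 := by
    apply finrank_adjoin_sqrt
    · rintro ⟨x, hx⟩
      have h1 := notMem_Lf (k := k) hv ht
      apply h1
      rw [← hx]
      exact x.2
    · obtain ⟨c, hc⟩ := hv2
      refine ⟨⟨algebraMap A K v ^ 2, ?_⟩, rfl⟩
      rw [← map_pow, ← hc]
      exact algebraMap_mem_of_mem_adjoin c.2 huL
  have hy2M : algebraMap B K y ^ 2 ∈ M := by
    rw [← map_pow, hy2]
    apply hzM'
    rw [mem_adjoin_simple_iff]
    exact ⟨d, 1, by simp⟩
  have hMK2 : Module.finrank M K = 2 := by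
    have h1 : Module.finrank M (IntermediateField.adjoin M {algebraMap B K y}) = 2 := by
      apply finrank_adjoin_sqrt
      · rintro ⟨x, hx⟩
        apply hyM
        rw [← hx]
        exact x.2
      · exact ⟨⟨_, hy2M⟩, rfl⟩
    rw [htop, IntermediateField.finrank_top'] at h1
    exact h1
  refine ⟨t, ?_, ?_, ?_⟩
  · have h1 : AlgebraicIndependent k (fun _ : Unit => u) :=
      algebraicIndependent_unique_type_iff.2 hut
    have h2 : AlgebraicIndependent A (fun _ : Unit => t) :=
      algebraicIndependent_unique_type_iff.2 ht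
    have h3 := AlgebraicIndependent.sumElim_comp h1 h2
    have h4 := h3.comp ![Sum.inr (), Sum.inl ()] (by
      intro i j hij
      fin_cases i <;> fin_cases j <;> simp_all)
    convert! h4 using 1
    funext i
    fin_cases i <;> rfl
  · rw [← Module.finrank_mul_finrank L M K, hLM2, hMK2]
  · rintro ⟨p, q, hp, hq, hpq⟩
    have hchM : CharZero M := charZero_of_injective_algebraMap (algebraMap L M).injective
    have hkey : ∀ s : K, s ^ 2 ∈ L → s ∈ M := by
      intro s hs
      have hcases := sqrt_cases (M := M) (G := K) (y := algebraMap B K y) (s := s) ?_ ?_ ?_ ?_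
      · rcases hcases with ⟨x, hx⟩ | ⟨b, hb⟩
        · rw [← hx]; exact x.2
        · by_cases hb0 : (b : K) = 0
          · have : s = 0 := by
              rw [hb]
              change (b : K) * _ = 0
              rw [hb0, zero_mul]
            rw [this]
            exact zero_mem M
          · exfalso
            refine no_twisted_sqrt (k := k) hu hv ht hd hs (hMA _ b.2) hb0 ?_
            rw [← hy2', ← mul_pow, hb]
            rfl
      · rintro ⟨x, hx⟩
        apply hyM
        rw [← hx]
        exact x.2
      · exact ⟨⟨_, hy2M⟩, rfl⟩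
      · exact ⟨⟨_, hLM _ hs⟩, rfl⟩
      · apply exists_repr_of_finrank_two hMK2
        rintro ⟨x, hx⟩
        apply hyM
        rw [← hx]
        exact x.2
    have h1 := hpq (M.restrictScalars k) (fun x hx => hLM x hx) (hkey p hp) (hkey q hq)
    apply hyM
    have h2 : algebraMap B K y ∈ M.restrictScalars k := by rw [h1]; trivial
    exact h2

end Main

end Pool.Agent.H689R3.Quad
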