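import Pool.Agent.H689R3.QuadD

/-!
Product maps: linear disjointness and degrees.
-/

namespace Pool.Agent.H689R3.Quad

open IntermediateField Polynomial

section Disj

variable {k A B K : Type} [Field k] [Field A] [Field B] [Field K]
  [Algebra k A] [Algebra k B] [Algebra k K] [Algebra A K] [Algebra B K] [IsScalarTower k A K]
  [IsScalarTower k B K]

/-- `k`-linearly independent families of `B` stay independent over `A` in `K`. -/
def Disj (k A B K : Type) [Field k] [Field A] [Field B] [Field K]
    [Algebra k B] [Algebra A K] [Algebra B K] : Prop :=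
  ∀ (ι : Type) (b : ι → B), LinearIndependent k b →
    LinearIndependent A (fun i => algebraMap B K (b i))

omit [Algebra k A] [Algebra k K] [Algebra A K] [IsScalarTower k A K] [IsScalarTower k B K]
  [Algebra B K] [Field A] [Field K] in
lemma linearIndependent_powers {w : B} (hw : Transcendental k w) :
    LinearIndependent k (fun n : ℕ => w ^ n) := by
  have h1 := (Polynomial.basisMonomials k).linearIndependent.map' (aeval w).toLinearMap (by
    rw [LinearMap.ker_eq_bot]
    exact transcendental_iff_injective.1 hw)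
  convert! h1 using 1
  funext n
  simp

omit [Algebra k A] [Algebra k K] [IsScalarTower k A K] [IsScalarTower k B K] in
lemma transcendental_of_disj (h : Disj k A B K) {w : B} (hw : Transcendental k w) :
    Transcendental A (algebraMap B K w) := by
  have h4 := h ℕ _ (linearIndependent_powers hw)
  rintro ⟨p, hp, hpw⟩
  apply hp
  rw [linearIndependent_iff'] at h4
  rw [aeval_eq_sum_range] at hpw
  ext n
  by_cases hn : n ∈ Finset.range (p.natDegree + 1)
  · have h5 := h4 (Finset.range (p.natDegree + 1)) (fun n => p.coeff n) (by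
      simpa using hpw) n hn
    simpa using h5
  · rw [Finset.mem_range, not_lt] at hn
    rw [coeff_eq_zero_of_natDegree_lt (by omega), coeff_zero]

omit [Algebra k A] [Algebra k K] [IsScalarTower k A K] [IsScalarTower k B K] in
/-- Base change of linear independence to `A(w)`. -/
lemma linearIndependent_adjoin (h : Disj k A B K) {w : B} (hw : Transcendental k w)
    {ι : Type} [Fintype ι] {b : ι → B} (hb : LinearIndependent k⟮w⟯ b) :
    LinearIndependent A⟮algebraMap B K w⟯ (fun i => algebraMap B K (b i)) := by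
  classical
  set w' := algebraMap B K w with hw'
  have hfam : LinearIndependent k (fun p : ℕ × ι => w ^ p.1 * b p.2) := by
    have h1 : LinearIndependent k (fun n : ℕ => (AdjoinSimple.gen k w) ^ n) := by
      apply linearIndependent_powers
      rintro ⟨p, hp, hpw⟩
      refine hw ⟨p, hp, ?_⟩
      have h2 := congrArg (algebraMap k⟮w⟯ B) hpw
      rw [map_zero, ← aeval_algebraMap_apply] at h2
      exact h2
    have h2 := linearIndependent_smul h1 hb
    convert! h2 using 1
  have hfamA := h _ _ hfam
  rw [Fintype.linearIndependent_iff]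
  intro g hg
  have hex : ∀ i, ∃ P Q : A[X], ((g i : K)) = aeval w' P / aeval w' Q ∧ aeval w' Q ≠ 0 := by
    intro i
    obtain ⟨P, Q, hPQ⟩ := (mem_adjoin_simple_iff A (g i : K)).1 (g i).2
    by_cases hQ : aeval w' Q = 0
    · refine ⟨0, 1, ?_, ?_⟩
      · rw [hPQ, hQ]; simp
      · simp
    · exact ⟨P, Q, hPQ, hQ⟩
  choose P Q hPQ hQ using hex
  let N : ι → A[X] := fun i => P i * ∏ j ∈ Finset.univ.erase i, Q j
  have hN : ∀ i, aeval w' (N i) = (g i : K) * ∏ j, aeval w' (Q j) := by
    intro i
    rw [← Finset.mul_prod_erase Finset.univ _ (Finset.mem_univ i), map_mul, map_prod, hPQ i]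
    field_simp [hQ i]
  have hsum : ∑ i, aeval w' (N i) * algebraMap B K (b i) = 0 := by
    have h1 : ∑ i, aeval w' (N i) * algebraMap B K (b i) =
        (∏ j, aeval w' (Q j)) * ∑ i, g i • algebraMap B K (b i) := by
      rw [Finset.mul_sum]
      apply Finset.sum_congr rfl
      intro i _
      rw [hN i, Algebra.smul_def]
      change _ = _ * ((g i : K) * _)
      ring
    rw [h1, hg, mul_zero]
  -- degree bound
  obtain ⟨D, hD⟩ : ∃ D, ∀ i, (N i).natDegree < D := by
    refine ⟨(∑ i, (N i).natDegree) + 1, fun i => ?_⟩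
    have := Finset.single_le_sum (f := fun i => (N i).natDegree) (fun _ _ => Nat.zero_le _)
      (Finset.mem_univ i)
    exact Nat.lt_succ_of_le this
  have hsum2 : ∑ p ∈ Finset.range D ×ˢ Finset.univ, ((N p.2).coeff p.1) •
      algebraMap B K (w ^ p.1 * b p.2) = 0 := by
    rw [Finset.sum_product_right, ← hsum]
    apply Finset.sum_congr rfl
    intro i _
    rw [aeval_eq_sum_range' (hD i), Finset.sum_mul]
    apply Finset.sum_congr rfl
    intro n _
    rw [Algebra.smul_def, Algebra.smul_def, map_mul, map_pow, hw']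
    ring
  rw [linearIndependent_iff'] at hfamA
  have hzero := hfamA _ _ hsum2
  intro i
  have hNi : N i = 0 := by
    ext n
    by_cases hn : n < D
    · rw [coeff_zero]
      exact hzero (n, i) (by simp [hn])
    · rw [coeff_zero]
      exact coeff_eq_zero_of_natDegree_lt (by have := hD i; omega)
  have h3 := hN i
  rw [hNi, map_zero] at h3
  have h4 : ∏ j, aeval w' (Q j) ≠ 0 := Finset.prod_ne_zero_iff.2 fun j _ => hQ j
  have h5 := (mul_eq_zero.1 h3.symm).resolve_right h4
  exact Subtype.ext h5

omit [Algebra k A] [Algebra k B] [IsScalarTower k A K] [IsScalarTower k B K] in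
/-- Products of two families independent over larger fields are independent. -/
lemma linearIndependent_mul_aux {L : IntermediateField k K} {f' w' : K}
    (hLA : ∀ x ∈ L, x ∈ A⟮w'⟯) (hLB : ∀ x ∈ L, x ∈ B⟮f'⟯)
    {ι κ : Type} [Fintype ι] [Fintype κ] {a : ι → A} {b : κ → B}
    (hA : ∀ g : κ → A⟮w'⟯, ∑ i, (g i : K) * algebraMap B K (b i) = 0 → ∀ i, (g i : K) = 0)
    (hB : ∀ g : ι → B⟮f'⟯, ∑ i, (g i : K) * algebraMap A K (a i) = 0 → ∀ i, (g i : K) = 0) :
    LinearIndependent L
      (fun p : ι × κ => algebraMap A K (a p.1) * algebraMap B K (b p.2)) := by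
  rw [Fintype.linearIndependent_iff]
  intro g hg
  have hgA : ∀ p, (g p : K) ∈ A⟮w'⟯ := fun p => hLA _ (g p).2
  have hgB : ∀ p, (g p : K) ∈ B⟮f'⟯ := fun p => hLB _ (g p).2
  have hmem : ∀ i, ∑ j, (g (i, j) : K) * algebraMap B K (b j) ∈ B⟮f'⟯ := by
    intro i
    refine sum_mem fun j _ => mul_mem (hgB _) ?_
    exact (B⟮f'⟯).algebraMap_mem _
  let G : ι → B⟮f'⟯ := fun i => ⟨∑ j, (g (i, j) : K) * algebraMap B K (b j), hmem i⟩
  have hG : ∀ i, (G i : K) = ∑ j, (g (i, j) : K) * algebraMap B K (b j) := fun i => rfl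
  have hsum : ∑ i, (G i : K) * algebraMap A K (a i) = 0 := by
    rw [← hg, Fintype.sum_prod_type]
    apply Finset.sum_congr rfl
    intro i _
    rw [hG, Finset.sum_mul]
    apply Finset.sum_congr rfl
    intro j _
    rw [IntermediateField.smul_def, smul_eq_mul]
    ring
  have h1 := hB G hsum
  rintro ⟨i, j⟩
  have h2 := h1 i
  rw [hG] at h2
  let H : κ → A⟮w'⟯ := fun j => ⟨(g (i, j) : K), hgA (i, j)⟩
  have hH : ∀ j, (H j : K) = (g (i, j) : K) := fun j => rfl
  have h3 := hA H (by simpa only [hH] using h2) j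
  rw [hH] at h3
  exact Subtype.ext h3

/-- Products of independent families are independent over `k(f, w)`. -/
lemma linearIndependent_mul (h : Disj k A B K) (h' : Disj k B A K) {f : A} {w : B}
    (hf : Transcendental k f) (hw : Transcendental k w)
    {ι κ : Type} [Fintype ι] [Fintype κ] {a : ι → A} {b : κ → B}
    (ha : LinearIndependent k⟮f⟯ a) (hb : LinearIndependent k⟮w⟯ b) :
    LinearIndependent (Lf k (algebraMap A K f) (algebraMap B K w))
      (fun p : ι × κ => algebraMap A K (a p.1) * algebraMap B K (b p.2)) := by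
  have hA := linearIndependent_adjoin h hw hb
  have hB := linearIndependent_adjoin h' hf ha
  rw [Fintype.linearIndependent_iff] at hA hB
  apply linearIndependent_mul_aux (f' := algebraMap A K f) (w' := algebraMap B K w)
  · intro x hx
    exact Lf_le x hx
  · intro x hx
    have hcomm : Lf k (algebraMap A K f) (algebraMap B K w) =
        Lf k (algebraMap B K w) (algebraMap A K f) := by
      unfold Lf
      rw [Set.pair_comm]
    rw [hcomm] at hx
    exact Lf_le x hx
  · intro g hg i
    rw [hA g ?_ i]
    · rfl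
    · rw [← hg]
      apply Finset.sum_congr rfl
      intro i _
      rw [IntermediateField.smul_def, smul_eq_mul]
  · intro g hg i
    rw [hB g ?_ i]
    · rfl
    · rw [← hg]
      apply Finset.sum_congr rfl
      intro i _
      rw [IntermediateField.smul_def, smul_eq_mul]

/-- A degree-four product map has quadratic factors, hence `K` is generated by square roots. -/
theorem psi_part [CharZero k] (h : Disj k A B K) (h' : Disj k B A K) {f : A} {w : B}
    (hf : Transcendental k f) (hw : Transcendental k w)
    (hfA : 2 ≤ Module.finrank k⟮f⟯ A) (hwB : 2 ≤ Module.finrank k⟮w⟯ B)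
    (hgen : ∀ M : IntermediateField k K, (∀ a : A, algebraMap A K a ∈ M) →
      (∀ b : B, algebraMap B K b ∈ M) → M = ⊤)
    (h4 : Module.finrank (Lf k (algebraMap A K f) (algebraMap B K w)) K = 4) :
    ∃ p q : K, p ^ 2 ∈ Lf k (algebraMap A K f) (algebraMap B K w) ∧
      q ^ 2 ∈ Lf k (algebraMap A K f) (algebraMap B K w) ∧
      ∀ M : IntermediateField k K, Lf k (algebraMap A K f) (algebraMap B K w) ≤ M →
        p ∈ M → q ∈ M → M = ⊤ := by
  have : Module.Finite k⟮f⟯ A := Module.finite_of_finrank_pos (by omega)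
  have : Module.Finite k⟮w⟯ B := Module.finite_of_finrank_pos (by omega)
  have : Module.Finite (Lf k (algebraMap A K f) (algebraMap B K w)) K :=
    Module.finite_of_finrank_pos (by omega)
  have hli := linearIndependent_mul h h' hf hw (Module.finBasis k⟮f⟯ A).linearIndependent
    (Module.finBasis k⟮w⟯ B).linearIndependent
  have hcard := hli.fintype_card_le_finrank
  rw [Fintype.card_prod, Fintype.card_fin, Fintype.card_fin, h4] at hcard
  have hfA2 : Module.finrank k⟮f⟯ A = 2 := by nlinarith
  have hwB2 : Module.finrank k⟮w⟯ B = 2 := by nlinarith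
  obtain ⟨p, -, ⟨p2, hp2⟩, hpgen⟩ := exists_sqrt_generator hfA2
  obtain ⟨q, -, ⟨q2, hq2⟩, hqgen⟩ := exists_sqrt_generator hwB2
  have hfL : algebraMap A K f ∈ Lf k (algebraMap A K f) (algebraMap B K w) :=
    IntermediateField.subset_adjoin _ _ (by simp)
  have hwL : algebraMap B K w ∈ Lf k (algebraMap A K f) (algebraMap B K w) :=
    IntermediateField.subset_adjoin _ _ (by simp)
  refine ⟨algebraMap A K p, algebraMap B K q, ?_, ?_, ?_⟩
  · rw [← map_pow, ← hp2]
    exact algebraMap_mem_of_mem_adjoin p2.2 hfL
  · rw [← map_pow, ← hq2]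
    exact algebraMap_mem_of_mem_adjoin q2.2 hwL
  · intro M hLM hpM hqM
    apply hgen
    · intro a
      obtain ⟨α, β, hαβ⟩ := hpgen a
      rw [hαβ, map_add, map_mul]
      refine add_mem ?_ (mul_mem ?_ hpM)
      · exact hLM (algebraMap_mem_of_mem_adjoin α.2 hfL)
      · exact hLM (algebraMap_mem_of_mem_adjoin β.2 hfL)
    · intro b
      obtain ⟨α, β, hαβ⟩ := hqgen b
      rw [hαβ, map_add, map_mul]
      refine add_mem ?_ (mul_mem ?_ hqM)
      · exact hLM (algebraMap_mem_of_mem_adjoin α.2 hwL)
      · exact hLM (algebraMap_mem_of_mem_adjoin β.2 hwL)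

end Disj

end Pool.Agent.H689R3.Quad
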