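import Pool.Agent.H689R3.QuadE
import Pool.Agent.H689R3.ProdDefs

/-!
The non-product map between the product of two curves of gonality two and the plane.
-/

namespace Pool.Agent.H689R3.Quad

open IntermediateField Polynomial Pool.Agent.H689R3.ProdMaps
open scoped TensorProduct

section Plane

variable {K : Type} [Field K] [Algebra ℂ K]

lemma fieldRange_eq (φ : PlaneField →ₐ[ℂ] K) :
    φ.fieldRange = Lf ℂ (φ (coord 0)) (φ (coord 1)) := by
  have h1 : (MvPolynomial.aeval ![φ (coord 0), φ (coord 1)] :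
      MvPolynomial (Fin 2) ℂ →ₐ[ℂ] K).range =
      Algebra.adjoin ℂ {φ (coord 0), φ (coord 1)} := by
    rw [← Algebra.adjoin_range_eq_range_aeval]
    congr 1
    simp [Set.pair_comm]
  refine IsFractionRing.algHom_fieldRange_eq_of_comp_eq_of_range_eq ?_ h1
  apply MvPolynomial.ringHom_ext
  · intro r
    simp only [RingHom.comp_apply, RingHom.coe_coe, MvPolynomial.aeval_C]
    have : algebraMap (MvPolynomial (Fin 2) ℂ) PlaneField (MvPolynomial.C r) =
      algebraMap ℂ PlaneField r := rfl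
    rw [this, φ.commutes]
  · intro i
    simp only [RingHom.comp_apply, RingHom.coe_coe, MvPolynomial.aeval_X]
    fin_cases i <;> rfl

lemma exists_map {x : Fin 2 → K} (hx : AlgebraicIndependent ℂ x) :
    ∃ φ : PlaneField →ₐ[ℂ] K, ∀ i, φ (coord i) = x i := by
  have hx' : Function.Injective (MvPolynomial.aeval x : MvPolynomial (Fin 2) ℂ →ₐ[ℂ] K) := hx
  refine ⟨IsFractionRing.liftAlgHom hx', fun i => ?_⟩
  rw [IsFractionRing.liftAlgHom_apply, coord, IsFractionRing.lift_algebraMap]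
  simp

lemma fieldRange_equiv {φ ψ : PlaneField →ₐ[ℂ] K} {α : K ≃ₐ[ℂ] K}
    {β : PlaneField ≃ₐ[ℂ] PlaneField} (h : ∀ x, φ (β x) = α (ψ x)) (y : K) :
    y ∈ ψ.fieldRange ↔ α y ∈ φ.fieldRange := by
  constructor
  · rintro ⟨x, rfl⟩
    exact ⟨β x, h x⟩
  · rintro ⟨x, hx⟩
    refine ⟨β.symm x, ?_⟩
    apply α.injective
    have h1 := h (β.symm x)
    rw [AlgEquiv.apply_symm_apply] at h1
    exact h1.symm.trans hx

lemma mapDegree_eq {φ ψ : PlaneField →ₐ[ℂ] K} (h : BirationallyEquivalent φ ψ) :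
    mapDegree φ = mapDegree ψ := by
  obtain ⟨α, β, h⟩ := h
  symm
  let i : ψ.fieldRange ≃+* φ.fieldRange :=
    { toFun := fun x => ⟨α x, (fieldRange_equiv h x).1 x.2⟩
      invFun := fun x => ⟨α.symm x, (fieldRange_equiv h _).2 (by
        rw [AlgEquiv.apply_symm_apply]; exact x.2)⟩
      left_inv := fun x => Subtype.ext (α.symm_apply_apply _)
      right_inv := fun x => Subtype.ext (α.apply_symm_apply _)
      map_mul' := fun x y => Subtype.ext (map_mul α _ _)
      map_add' := fun x y => Subtype.ext (map_add α _ _) }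
  exact Algebra.finrank_eq_of_equiv_equiv i α.toRingEquiv (by ext x; rfl)

end Plane

section Gon

variable {F : Type} [Field F] [Algebra ℂ F]

lemma exists_of_gonality_two (h : gonality F = 2) :
    ∃ u : F, Transcendental ℂ u ∧ Module.finrank ℂ⟮u⟯ F = 2 := by
  have hne : {d : ℕ | ∃ f : F, f ∉ Set.range (algebraMap ℂ F) ∧
      d = Module.finrank ℂ⟮f⟯ F}.Nonempty := by
    by_contra hcon
    rw [Set.not_nonempty_iff_eq_empty] at hcon
    rw [gonality, hcon, Nat.sInf_empty] at h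
    omega
  obtain ⟨f, hf, hd⟩ := Nat.sInf_mem hne
  refine ⟨f, transcendental_of_notMem hf, ?_⟩
  rw [← hd]
  exact h

lemma two_le_of_gonality_two (h : gonality F = 2) {f : F} (hf : Transcendental ℂ f) :
    2 ≤ Module.finrank ℂ⟮f⟯ F := by
  rw [← h]
  apply Nat.sInf_le
  refine ⟨f, ?_, rfl⟩
  rintro ⟨c, rfl⟩
  exact hf (isAlgebraic_algebraMap c)

end Gon

/-- The main construction. -/
theorem exists_nonproduct (K₁ K₂ K : Type) [Field K₁] [Algebra ℂ K₁] [Field K₂] [Algebra ℂ K₂]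
    [Field K] [Algebra ℂ K] [Algebra (K₁ ⊗[ℂ] K₂) K] [IsScalarTower ℂ (K₁ ⊗[ℂ] K₂) K]
    [IsFractionRing (K₁ ⊗[ℂ] K₂) K] (h1 : gonality K₁ = 2) (h2 : gonality K₂ = 2) :
    ∃ φ : PlaneField →ₐ[ℂ] K, mapDegree φ = gonality K₁ * gonality K₂ ∧
      ∀ ψ : PlaneField →ₐ[ℂ] K, IsProductMap K₁ K₂ K ψ → ¬ BirationallyEquivalent φ ψ := by
  let alg1 : Algebra K₁ K := ((algebraMap (K₁ ⊗[ℂ] K₂) K).comp
    (Algebra.TensorProduct.includeLeftRingHom)).toAlgebra
  let alg2 : Algebra K₂ K := ((algebraMap (K₁ ⊗[ℂ] K₂) K).comp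
    (Algebra.TensorProduct.includeRight (R := ℂ) (A := K₁) (B := K₂)).toRingHom).toAlgebra
  have e1 : ∀ a : K₁, algebraMap K₁ K a = algebraMap (K₁ ⊗[ℂ] K₂) K (a ⊗ₜ 1) := fun a => rfl
  have e2 : ∀ b : K₂, algebraMap K₂ K b = algebraMap (K₁ ⊗[ℂ] K₂) K (1 ⊗ₜ b) := fun b => rfl
  have t1 : IsScalarTower ℂ K₁ K := by
    apply IsScalarTower.of_algebraMap_eq
    intro c
    rw [e1, IsScalarTower.algebraMap_apply ℂ (K₁ ⊗[ℂ] K₂) K]
    rfl
  have t2 : IsScalarTower ℂ K₂ K := by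
    apply IsScalarTower.of_algebraMap_eq
    intro c
    rw [e2, IsScalarTower.algebraMap_apply ℂ (K₁ ⊗[ℂ] K₂) K,
      Algebra.TensorProduct.algebraMap_apply, Algebra.algebraMap_eq_smul_one (A := K₁),
      TensorProduct.smul_tmul, Algebra.algebraMap_eq_smul_one (A := K₂)]
  have hinj : Function.Injective (algebraMap (K₁ ⊗[ℂ] K₂) K) :=
    IsFractionRing.injective (K₁ ⊗[ℂ] K₂) K
  have hd1 : Disj ℂ K₁ K₂ K := by
    intro ι b hb
    have h3 := Module.Flat.linearIndependent_one_tmul (S := K₁) hb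
    rw [linearIndependent_iff'] at h3 ⊢
    intro s g hg i hi
    refine h3 s g ?_ i hi
    apply hinj
    rw [map_zero, ← hg, map_sum]
    apply Finset.sum_congr rfl
    intro j _
    rw [TensorProduct.smul_tmul', smul_eq_mul, mul_one,
      Algebra.smul_def (g j) (algebraMap K₂ K (b j)), e1, e2, ← map_mul,
      Algebra.TensorProduct.tmul_mul_tmul, one_mul, mul_one]
  have hd2 : Disj ℂ K₂ K₁ K := by
    intro ι b hb
    have h3 := Module.Flat.linearIndependent_one_tmul (S := K₂) hb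
    rw [linearIndependent_iff'] at h3 ⊢
    intro s g hg i hi
    refine h3 s g ?_ i hi
    apply (Algebra.TensorProduct.comm ℂ K₂ K₁).injective
    apply hinj
    rw [map_zero, map_zero, ← hg, map_sum, map_sum]
    apply Finset.sum_congr rfl
    intro j _
    rw [TensorProduct.smul_tmul', smul_eq_mul, mul_one, Algebra.TensorProduct.comm_tmul,
      Algebra.smul_def (g j) (algebraMap K₁ K (b j)), e1, e2, ← map_mul,
      Algebra.TensorProduct.tmul_mul_tmul, one_mul, mul_one]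
  have hgen : ∀ M : IntermediateField ℂ K, (∀ a : K₁, algebraMap K₁ K a ∈ M) →
      (∀ b : K₂, algebraMap K₂ K b ∈ M) → M = ⊤ := by
    intro M hM1 hM2
    have hS : ∀ x : K₁ ⊗[ℂ] K₂, algebraMap (K₁ ⊗[ℂ] K₂) K x ∈ M := by
      intro x
      induction x using TensorProduct.induction_on with
      | zero => rw [map_zero]; exact zero_mem M
      | tmul a b =>
        have : a ⊗ₜ[ℂ] b = (a ⊗ₜ[ℂ] (1 : K₂)) * ((1 : K₁) ⊗ₜ[ℂ] b) := by
          rw [Algebra.TensorProduct.tmul_mul_tmul, one_mul, mul_one]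
        rw [this, map_mul, ← e1, ← e2]
        exact mul_mem (hM1 a) (hM2 b)
      | add x y hx hy => rw [map_add]; exact add_mem hx hy
    rw [eq_top_iff]
    intro x _
    obtain ⟨a, b, hb, rfl⟩ := IsFractionRing.div_surjective (K₁ ⊗[ℂ] K₂) x
    exact div_mem (hS a) (hS b)
  obtain ⟨u, hut, hu⟩ := exists_of_gonality_two h1
  obtain ⟨z, hzt, hz⟩ := exists_of_gonality_two h2
  obtain ⟨t, hind, hdeg, hno⟩ := phi_part hu hut hz (transcendental_of_disj hd1 hzt) hgen
  obtain ⟨φ, hφ⟩ := exists_map hind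
  have hφr : φ.fieldRange = Lf ℂ (algebraMap K₁ K u) t := by
    rw [fieldRange_eq, hφ, hφ]
    rfl
  have hφd : mapDegree φ = 4 := by
    rw [mapDegree, hφr]
    exact hdeg
  refine ⟨φ, by rw [hφd, h1, h2], ?_⟩
  rintro ψ ⟨f₁, f₂, hf₁, hf₂⟩ hequiv
  rw [← e1] at hf₁
  rw [← e2] at hf₂
  have hψd : mapDegree ψ = 4 := by rw [← mapDegree_eq hequiv, hφd]
  have hψr : ψ.fieldRange = Lf ℂ (algebraMap K₁ K f₁) (algebraMap K₂ K f₂) := by
    rw [fieldRange_eq, hf₁, hf₂]
  have hcoord : ∀ i, Transcendental ℂ (coord i) := by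
    intro i
    rw [coord, transcendental_algebraMap_iff
      (IsFractionRing.injective (MvPolynomial (Fin 2) ℂ) PlaneField)]
    exact MvPolynomial.transcendental_X ℂ i
  have hft1 : Transcendental ℂ f₁ := by
    rintro ⟨p, hp, hpf⟩
    refine hcoord 0 ⟨p, hp, ?_⟩
    have h5 : ψ (aeval (coord 0) p) = 0 := by
      rw [← aeval_algHom_apply, hf₁, aeval_algebraMap_apply, hpf, map_zero]
    exact (map_eq_zero ψ).1 h5
  have hft2 : Transcendental ℂ f₂ := by
    rintro ⟨p, hp, hpf⟩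
    refine hcoord 1 ⟨p, hp, ?_⟩
    have h5 : ψ (aeval (coord 1) p) = 0 := by
      rw [← aeval_algHom_apply, hf₂, aeval_algebraMap_apply, hpf, map_zero]
    exact (map_eq_zero ψ).1 h5
  rw [mapDegree, hψr] at hψd
  obtain ⟨p, q, hp, hq, hpq⟩ := psi_part hd1 hd2 hft1 hft2 (two_le_of_gonality_two h1 hft1)
    (two_le_of_gonality_two h2 hft2) hgen hψd
  obtain ⟨α, β, hαβ⟩ := hequiv
  apply hno
  rw [← hψr] at hp hq
  rw [← hφr]
  refine ⟨α p, α q, ?_, ?_, ?_⟩
  · rw [← map_pow]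
    exact (fieldRange_equiv hαβ _).1 hp
  · rw [← map_pow]
    exact (fieldRange_equiv hαβ _).1 hq
  · intro M hM hpM hqM
    have h5 := hpq (M.comap α.toAlgHom) (by
      rw [← hψr]
      intro x hx
      exact hM ((fieldRange_equiv hαβ _).1 hx)) hpM hqM
    rw [eq_top_iff]
    intro x _
    have h6 : α.symm x ∈ M.comap α.toAlgHom := by rw [h5]; trivial
    have h7 : α (α.symm x) ∈ M := h6
    rwa [AlgEquiv.apply_symm_apply] at h7

end Pool.Agent.H689R3.Quad
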