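import Pool.Agent.H689R3.QuadB

/-!
The curve `y² = P(x)` with `P` squarefree of degree at least four is not rational.
-/

namespace Pool.Agent.H689R3.Quad

open IntermediateField Polynomial

lemma sq_of_coprime_mul {a b c : ℂ[X]} (hab : IsCoprime a b) (h : a * b = c ^ 2) :
    ∃ s : ℂ[X], a = s ^ 2 := by
  obtain ⟨d, u, hu⟩ := exists_associated_pow_of_mul_eq_pow' hab h
  obtain ⟨e, he, heu⟩ := Polynomial.isUnit_iff.1 u.isUnit
  obtain ⟨l, hl⟩ := IsAlgClosed.exists_pow_nat_eq e (n := 2) two_pos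
  refine ⟨C l * d, ?_⟩
  rw [← hu, ← heu, mul_pow, ← map_pow, hl]
  ring

/-- Four members of a pencil of coprime polynomials being squares forces constancy. -/
lemma descent : ∀ (n : ℕ) (p q : ℂ[X]) (ρ : Fin 4 → ℂ), Function.Injective ρ → IsCoprime p q →
    (∀ i, ∃ s : ℂ[X], p - C (ρ i) * q = s ^ 2) → p.natDegree ≤ n → q.natDegree ≤ n →
    p.natDegree = 0 ∧ q.natDegree = 0 := by
  intro n
  induction n using Nat.strong_induction_on with
  | _ n ih =>
  intro p q ρ hρ hpq hsq hp hq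
  rcases Nat.eq_zero_or_pos n with rfl | hn
  · omega
  choose s hs using hsq
  have hne : ∀ i j, i ≠ j → ρ i - ρ j ≠ 0 := fun i j hij h => hij (hρ (sub_eq_zero.1 h))
  have h01 := hne 0 1 (by decide)
  have h10 := hne 1 0 (by decide)
  have h02 := hne 0 2 (by decide)
  have h03 := hne 0 3 (by decide)
  have h12 := hne 1 2 (by decide)
  have h13 := hne 1 3 (by decide)
  have h23 := hne 2 3 (by decide)
  set A := s 0 with hA
  set B := s 1 with hB
  have hA2 : p - C (ρ 0) * q = A ^ 2 := hs 0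
  have hB2 : p - C (ρ 1) * q = B ^ 2 := hs 1
  have hAB : IsCoprime A B := by
    obtain ⟨a, b, hab⟩ := hpq
    have h1 : IsCoprime (A ^ 2) (B ^ 2) := by
      refine ⟨C ((ρ 1 - ρ 0)⁻¹) * (C (ρ 1) * a + b), - C ((ρ 1 - ρ 0)⁻¹) * (C (ρ 0) * a + b), ?_⟩
      rw [← hA2, ← hB2]
      have h2 : C ((ρ 1 - ρ 0)⁻¹) * (C (ρ 1) - C (ρ 0)) = 1 := by
        rw [← C_sub, ← C_mul, inv_mul_cancel₀ h10, C_1]
      linear_combination (a * p + b * q) * h2 + hab
    exact (IsCoprime.pow_iff two_pos two_pos).1 h1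
  have hdegA : A.natDegree ≤ n - 1 := by
    have h1 : (A ^ 2).natDegree ≤ n := by
      rw [← hA2]
      refine (natDegree_sub_le _ _).trans (max_le hp ?_)
      exact (natDegree_C_mul_le _ _).trans hq
    rw [natDegree_pow] at h1
    omega
  have hdegB : B.natDegree ≤ n - 1 := by
    have h1 : (B ^ 2).natDegree ≤ n := by
      rw [← hB2]
      refine (natDegree_sub_le _ _).trans (max_le hp ?_)
      exact (natDegree_C_mul_le _ _).trans hq
    rw [natDegree_pow] at h1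
    omega
  have key : ∀ i : Fin 4, ρ 0 - ρ i ≠ 0 → ρ 1 - ρ i ≠ 0 → ∃ κ : ℂ,
      κ ^ 2 = (ρ 0 - ρ i) / (ρ 1 - ρ i) ∧ κ ≠ 0 ∧ (∃ t : ℂ[X], A - C κ * B = t ^ 2) ∧
      (∃ t : ℂ[X], A - C (-κ) * B = t ^ 2) := by
    intro i h0 h1
    obtain ⟨κ, hκ⟩ := IsAlgClosed.exists_pow_nat_eq ((ρ 0 - ρ i) / (ρ 1 - ρ i)) (n := 2) two_pos
    have hκ0 : κ ≠ 0 := by
      intro h
      rw [h, zero_pow two_ne_zero] at hκ
      exact (div_ne_zero h0 h1) hκ.symm
    obtain ⟨γ, hγ⟩ := IsAlgClosed.exists_pow_nat_eq ((ρ 1 - ρ 0) / (ρ 1 - ρ i)) (n := 2) two_pos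
    have hprod : (A - C κ * B) * (A - C (-κ) * B) = (C γ * s i) ^ 2 := by
      have e1 : (A - C κ * B) * (A - C (-κ) * B) = A ^ 2 - C (κ ^ 2) * B ^ 2 := by
        rw [C_neg, C_pow]; ring
      have e2 : (C γ * s i) ^ 2 = C (γ ^ 2) * (s i) ^ 2 := by rw [mul_pow, ← C_pow]
      rw [e1, e2, hκ, hγ, ← hs i, ← hA2, ← hB2]
      have e3 : (1 : ℂ) - (ρ 0 - ρ i) / (ρ 1 - ρ i) = (ρ 1 - ρ 0) / (ρ 1 - ρ i) := by
        field_simp; ring
      have e4 : ρ 0 - (ρ 0 - ρ i) / (ρ 1 - ρ i) * ρ 1 = (ρ 1 - ρ 0) / (ρ 1 - ρ i) * ρ i := by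
        field_simp; ring
      have e3' := congrArg (C : ℂ → ℂ[X]) e3
      have e4' := congrArg (C : ℂ → ℂ[X]) e4
      simp only [C_sub, C_mul, C_1] at e3' e4'
      linear_combination p * e3' - q * e4'
    have hcop : IsCoprime (A - C κ * B) (A - C (-κ) * B) := by
      obtain ⟨a, b, hab⟩ := hAB
      refine ⟨C (1 / 2) * a - C (1 / (2 * κ)) * b, C (1 / 2) * a + C (1 / (2 * κ)) * b, ?_⟩
      have e5 : C (1 / 2 : ℂ) * 2 = 1 := by
        rw [← C_ofNat, ← C_mul]; norm_num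
      have e6 : C (1 / (2 * κ)) * C κ * 2 = 1 := by
        rw [← C_ofNat, ← C_mul, ← C_mul, ← C_1]
        congr 1
        field_simp
      rw [C_neg]
      linear_combination (a * A) * e5 + (b * B) * e6 + hab
    refine ⟨κ, hκ, hκ0, sq_of_coprime_mul hcop hprod, ?_⟩
    exact sq_of_coprime_mul hcop.symm (by rw [mul_comm]; exact hprod)
  obtain ⟨κ, hκ, hκ0, hκ1, hκ2⟩ := key 2 h02 h12
  obtain ⟨μ, hμ, hμ0, hμ1, hμ2⟩ := key 3 h03 h13
  have hκμ : κ ^ 2 ≠ μ ^ 2 := by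
    rw [hκ, hμ, Ne, div_eq_div_iff h12 h13]
    intro h
    have : (ρ 0 - ρ 1) * (ρ 2 - ρ 3) = 0 := by linear_combination h
    rcases mul_eq_zero.1 this with h' | h'
    · exact h01 h'
    · exact h23 h'
  have h1 : κ ≠ -κ := fun h => hκ0 (by
    have : 2 * κ = 0 := by linear_combination h
    exact (mul_eq_zero.1 this).resolve_left two_ne_zero)
  have h2 : μ ≠ -μ := fun h => hμ0 (by
    have : 2 * μ = 0 := by linear_combination h
    exact (mul_eq_zero.1 this).resolve_left two_ne_zero)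
  have h3 : κ ≠ μ := fun h => hκμ (by rw [h])
  have h4 : κ ≠ -μ := fun h => hκμ (by rw [h]; ring)
  have h5 : -κ ≠ μ := fun h => hκμ (by rw [← h]; ring)
  have h6 : -κ ≠ -μ := fun h => hκμ (by rw [neg_inj.1 h])
  have hinj : Function.Injective ![κ, -κ, μ, -μ] := by
    intro i j hij
    fin_cases i <;> fin_cases j <;> simp_all
  obtain ⟨hA0, hB0⟩ := ih (n - 1) (by omega) A B ![κ, -κ, μ, -μ] hinj hAB (by
    intro i
    fin_cases i
    · exact hκ1
    · exact hκ2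
    · exact hμ1
    · exact hμ2) hdegA hdegB
  have hqeq : q = C ((ρ 1 - ρ 0)⁻¹) * (A ^ 2 - B ^ 2) := by
    rw [← hA2, ← hB2]
    have h2 : C ((ρ 1 - ρ 0)⁻¹) * (C (ρ 1) - C (ρ 0)) = 1 := by
      rw [← C_sub, ← C_mul, inv_mul_cancel₀ h10, C_1]
    linear_combination (-q) * h2
  have hq0 : q.natDegree = 0 := by
    have : q.natDegree ≤ 0 := by
      rw [hqeq]
      refine (natDegree_C_mul_le _ _).trans ((natDegree_sub_le _ _).trans ?_)
      rw [natDegree_pow, natDegree_pow, hA0, hB0]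
      simp
    omega
  have hpeq : p = A ^ 2 + C (ρ 0) * q := by rw [← hA2]; ring
  have hp0 : p.natDegree = 0 := by
    have : p.natDegree ≤ 0 := by
      rw [hpeq]
      refine (natDegree_add_le _ _).trans (max_le ?_ ?_)
      · rw [natDegree_pow, hA0]
      · exact (natDegree_C_mul_le _ _).trans hq0.le
    omega
  exact ⟨hp0, hq0⟩

end Pool.Agent.H689R3.Quad
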