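import Pool.Agent.H689R3.QuadG
import Pool.Agent.H689R3.ProdDefs

/-!
Function fields of curves `y² = P(x)` have gonality two.
-/

namespace Pool.Agent.H689R3.Quad

open IntermediateField Polynomial Pool.Agent.H689R3.ProdMaps

lemma eq_prod_of_squarefree {P : ℂ[X]} (hP : Squarefree P) :
    P = C P.leadingCoeff * ∏ ρ ∈ P.roots.toFinset, (X - C ρ) := by
  have hnodup : P.roots.Nodup := nodup_roots (PerfectField.separable_iff_squarefree.2 hP)
  conv_lhs => rw [(IsAlgClosed.splits P).eq_prod_roots]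
  rw [Finset.prod_eq_multiset_prod, Multiset.toFinset_val, hnodup.dedup]

lemma card_roots_toFinset {P : ℂ[X]} (hP : Squarefree P) :
    P.roots.toFinset.card = P.natDegree := by
  have hnodup : P.roots.Nodup := nodup_roots (PerfectField.separable_iff_squarefree.2 hP)
  rw [Multiset.toFinset_card_of_nodup hnodup]
  exact (splits_iff_card_roots.1 (IsAlgClosed.splits P))

/-- No nonconstant solutions of `y² = P(x)` in rational functions. -/
lemma const_of_sq {P : ℂ[X]} (hP : Squarefree P) (hdeg : 4 ≤ P.natDegree) (x y : RatFunc ℂ)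
    (h : y ^ 2 = aeval x P) : ∃ c : ℂ, x = algebraMap ℂ (RatFunc ℂ) c := by
  classical
  by_contra hcon
  push Not at hcon
  set p := x.num with hp
  set q := x.denom with hq
  set r := y.num with hr
  set s := y.denom with hs
  have hq0 : q ≠ 0 := RatFunc.denom_ne_zero x
  have hs0 : s ≠ 0 := RatFunc.denom_ne_zero y
  have hcop : IsCoprime p q := RatFunc.isCoprime_num_denom x
  have hP0 : P ≠ 0 := hP.ne_zero
  have hinj := IsFractionRing.injective ℂ[X] (RatFunc ℂ)
  have hx : algebraMap ℂ[X] (RatFunc ℂ) p / algebraMap ℂ[X] (RatFunc ℂ) q = x :=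
    RatFunc.num_div_denom x
  have hy : algebraMap ℂ[X] (RatFunc ℂ) r / algebraMap ℂ[X] (RatFunc ℂ) s = y :=
    RatFunc.num_div_denom y
  have hq0' : algebraMap ℂ[X] (RatFunc ℂ) q ≠ 0 := by
    rw [Ne, map_eq_zero_iff _ hinj]; exact hq0
  have hs0' : algebraMap ℂ[X] (RatFunc ℂ) s ≠ 0 := by
    rw [Ne, map_eq_zero_iff _ hinj]; exact hs0
  have hpρ : ∀ ρ : ℂ, p - C ρ * q ≠ 0 := by
    intro ρ h0
    apply hcon ρ
    have h1 : p = C ρ * q := sub_eq_zero.1 h0
    rw [← hx, h1, map_mul, mul_div_assoc, div_self hq0', mul_one]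
    rfl
  set R := P.roots.toFinset with hR
  have hmain : (s * s) * (C P.leadingCoeff * ∏ ρ ∈ R, (p - C ρ * q)) = (r * r) * q ^ R.card := by
    apply hinj
    have h1 : aeval x P = algebraMap ℂ[X] (RatFunc ℂ) (C P.leadingCoeff) *
        ∏ ρ ∈ R, (x - algebraMap ℂ[X] (RatFunc ℂ) (C ρ)) := by
      conv_lhs => rw [eq_prod_of_squarefree hP]
      rw [map_mul, map_prod, aeval_C]
      simp only [map_sub, aeval_X, aeval_C]
      rfl
    have h2 : ∀ ρ ∈ R, algebraMap ℂ[X] (RatFunc ℂ) (p - C ρ * q) =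
        (x - algebraMap ℂ[X] (RatFunc ℂ) (C ρ)) * algebraMap ℂ[X] (RatFunc ℂ) q := by
      intro ρ _
      rw [← hx, map_sub, map_mul]
      field_simp
    rw [map_mul, map_mul, map_mul, map_mul, map_prod, Finset.prod_congr rfl h2,
      Finset.prod_mul_distrib, Finset.prod_const, map_pow, map_mul]
    rw [← hy, h1] at h
    field_simp at h
    linear_combination -(algebraMap ℂ[X] (RatFunc ℂ) q) ^ R.card * h
  have hprod0 : ∏ ρ ∈ R, (p - C ρ * q) ≠ 0 := Finset.prod_ne_zero_iff.2 fun ρ _ => hpρ ρ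
  have hlc : C P.leadingCoeff ≠ 0 := by
    rw [Ne, C_eq_zero]; exact leadingCoeff_ne_zero.2 hP0
  have hr0 : r ≠ 0 := by
    intro h0
    rw [h0, zero_mul, zero_mul] at hmain
    exact (mul_ne_zero (mul_ne_zero hs0 hs0) (mul_ne_zero hlc hprod0)) hmain
  have hsquare : ∀ ρ ∈ R, ∃ t : ℂ[X], p - C ρ * q = t ^ 2 := by
    intro ρ hρ
    apply exists_sq_of_even
    intro c
    by_cases hc : (p - C ρ * q).IsRoot c
    · have hpc : p.eval c = ρ * q.eval c := by
        rw [IsRoot.def, eval_sub, eval_mul, eval_C] at hc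
        exact sub_eq_zero.1 hc
      have hqc : q.eval c ≠ 0 := by
        intro h0
        obtain ⟨a, b, hab⟩ := hcop
        have h1 := congrArg (eval c) hab
        rw [eval_add, eval_mul, eval_mul, h0, hpc, h0] at h1
        simp at h1
      set G := C P.leadingCoeff * ∏ σ ∈ R.erase ρ, (p - C σ * q) with hG
      have hGc : ¬ G.IsRoot c := by
        rw [IsRoot.def, hG, eval_mul, eval_C, eval_prod]
        refine mul_ne_zero (leadingCoeff_ne_zero.2 hP0) (Finset.prod_ne_zero_iff.2 ?_)
        intro σ hσ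
        rw [eval_sub, eval_mul, eval_C, hpc, ← sub_mul]
        refine mul_ne_zero ?_ hqc
        rw [sub_ne_zero]
        exact (Finset.ne_of_mem_erase hσ).symm
      have hG0 : G ≠ 0 := by
        intro h0
        apply hGc
        rw [h0]
        simp
      have hqn : ¬ (q ^ R.card).IsRoot c := by
        rw [IsRoot.def, eval_pow]
        exact pow_ne_zero _ hqc
      have h2 : (s * s) * (G * (p - C ρ * q)) = (r * r) * q ^ R.card := by
        rw [← hmain, hG, ← Finset.mul_prod_erase R _ hρ]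
        ring
      have h3 := congrArg (rootMultiplicity c) h2
      rw [rootMultiplicity_mul (mul_ne_zero (mul_ne_zero hs0 hs0) (mul_ne_zero hG0 (hpρ ρ))),
        rootMultiplicity_mul (mul_ne_zero hs0 hs0),
        rootMultiplicity_mul (mul_ne_zero hG0 (hpρ ρ)),
        rootMultiplicity_mul (mul_ne_zero (mul_ne_zero hr0 hr0) (pow_ne_zero _ hq0)),
        rootMultiplicity_mul (mul_ne_zero hr0 hr0), rootMultiplicity_eq_zero hGc,
        rootMultiplicity_eq_zero hqn] at h3
      rw [Nat.even_iff]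
      omega
    · rw [rootMultiplicity_eq_zero hc]
      exact Even.zero
  have hcard : 4 ≤ R.card := by rw [hR, card_roots_toFinset hP]; exact hdeg
  obtain ⟨e⟩ : Nonempty (Fin 4 ↪ R) := by
    apply Function.Embedding.nonempty_of_card_le
    simpa using hcard
  obtain ⟨hpd, hqd⟩ := descent (max p.natDegree q.natDegree) p q (fun i => (e i : ℂ))
    (fun i j hij => e.injective (Subtype.ext hij)) hcop (fun i => hsquare _ (e i).2)
    (le_max_left _ _) (le_max_right _ _)
  apply hcon (p.coeff 0 / q.coeff 0)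
  rw [← hx, eq_C_of_natDegree_eq_zero hpd, eq_C_of_natDegree_eq_zero hqd, map_div₀]
  simp only [coeff_C_zero]
  rfl

end Pool.Agent.H689R3.Quad
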