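import Pool.Agent.H689R3.QuadH

/-!
Function fields of curves `y² = P(x)` have gonality two.
-/

namespace Pool.Agent.H689R3.Quad

open IntermediateField Polynomial Pool.Agent.H689R3.ProdMaps

lemma exists_rootMultiplicity_one {P : ℂ[X]} (hP : Squarefree P) (hdeg : 1 ≤ P.natDegree) :
    ∃ c, P.rootMultiplicity c = 1 := by
  classical
  have hnodup : P.roots.Nodup := nodup_roots (PerfectField.separable_iff_squarefree.2 hP)
  have hcard : P.roots.toFinset.card = P.natDegree := card_roots_toFinset hP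
  obtain ⟨c, hc⟩ : P.roots.toFinset.Nonempty := by
    rw [← Finset.card_pos]; omega
  refine ⟨c, ?_⟩
  rw [← count_roots]
  exact Multiset.count_eq_one_of_mem hnodup (Multiset.mem_toFinset.1 hc)

lemma adjoin_pair_top {F : Type} [Field F] [Algebra ℂ F] {x y : F}
    (h : IntermediateField.adjoin ℂ {x, y} = ⊤) (E : IntermediateField ℂ F) :
    IntermediateField.adjoin E {x, y} = ⊤ := by
  have h1 : IntermediateField.adjoin ℂ {x, y} ≤
      (IntermediateField.adjoin E {x, y}).restrictScalars ℂ := by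
    rw [IntermediateField.adjoin_le_iff]
    exact IntermediateField.subset_adjoin E {x, y}
  rw [eq_top_iff]
  intro z _
  have h2 : z ∈ IntermediateField.adjoin ℂ {x, y} := by rw [h]; trivial
  exact (mem_restrictScalars ℂ).1 (h1 h2)

theorem doubleCover_gonality {P : ℂ[X]} (hP : Squarefree P) (hdeg : 4 ≤ P.natDegree)
    {F : Type} [Field F] [Algebra ℂ F] (hF : IsDoubleCoverField P F) :
    IsCurveField F ∧ gonality F = 2 := by
  obtain ⟨x, y, hx, hxy, hgen⟩ := hF
  have hP0 : P ≠ 0 := hP.ne_zero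
  have hy : y ∉ Set.range (algebraMap ℂ⟮x⟯ F) := by
    rintro ⟨g, hg⟩
    obtain ⟨c, hc⟩ := exists_rootMultiplicity_one hP (by omega)
    have h1 := even_rootMultiplicity hx hP0 (g := y) (by rw [← hg]; exact g.2) hxy c
    rw [hc] at h1
    exact absurd h1 (by decide)
  have hy2 : y ^ 2 ∈ Set.range (algebraMap ℂ⟮x⟯ F) := by
    refine ⟨⟨y ^ 2, ?_⟩, rfl⟩
    rw [hxy, mem_adjoin_simple_iff]
    exact ⟨P, 1, by simp⟩
  have htop : IntermediateField.adjoin ℂ⟮x⟯ {y} = ⊤ := by
    rw [eq_top_iff, ← adjoin_pair_top hgen ℂ⟮x⟯, IntermediateField.adjoin_le_iff]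
    intro z hz
    rcases hz with hz | hz
    · rw [hz]
      exact (IntermediateField.adjoin ℂ⟮x⟯ {y}).algebraMap_mem ⟨x, mem_adjoin_simple_self ℂ x⟩
    · rw [Set.mem_singleton_iff] at hz
      rw [hz]
      exact mem_adjoin_simple_self _ y
  have hfin2 : Module.finrank ℂ⟮x⟯ F = 2 := by
    have h1 := finrank_adjoin_sqrt hy hy2
    rw [htop, IntermediateField.finrank_top'] at h1
    exact h1
  have hmf : Module.Finite ℂ⟮x⟯ F := Module.finite_of_finrank_pos (by omega)
  have halg : Algebra.IsAlgebraic ℂ⟮x⟯ F := inferInstance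
  have hind : AlgebraicIndependent ℂ (fun _ : Unit => x) :=
    algebraicIndependent_unique_type_iff.2 hx
  have hbasis : IsTranscendenceBasis ℂ (fun _ : Unit => x) := by
    rw [hind.isTranscendenceBasis_iff_isAlgebraic, Set.range_const]
    open scoped IntermediateField.algebraAdjoinAdjoin in
    exact (IsFractionRing.comap_isAlgebraic_iff (A := Algebra.adjoin ℂ {x}) (K := ℂ⟮x⟯)
      (C := F)).2 halg
  have htrdeg : Algebra.trdeg ℂ F = 1 := by
    rw [← hbasis.cardinalMk_eq_trdeg]
    simp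
  refine ⟨⟨?_, htrdeg⟩, ?_⟩
  · rw [← hgen]
    exact IntermediateField.fg_adjoin_of_finite (Set.toFinite _)
  · have hle : gonality F ≤ 2 := by
      apply Nat.sInf_le
      refine ⟨x, ?_, hfin2.symm⟩
      rintro ⟨c, rfl⟩
      exact hx (isAlgebraic_algebraMap c)
    apply le_antisymm hle
    have hne : {d : ℕ | ∃ f : F, f ∉ Set.range (algebraMap ℂ F) ∧
        d = Module.finrank ℂ⟮f⟯ F}.Nonempty := by
      refine ⟨2, x, ?_, hfin2.symm⟩
      rintro ⟨c, rfl⟩
      exact hx (isAlgebraic_algebraMap c)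
    obtain ⟨f, hf, hd⟩ := Nat.sInf_mem hne
    have hft : Transcendental ℂ f := transcendental_of_notMem hf
    have hfb : IsTranscendenceBasis ℂ (fun _ : Unit => f) := by
      apply AlgebraicIndependent.isTranscendenceBasis_of_trdeg_le_of_finite
      · exact algebraicIndependent_unique_type_iff.2 hft
      · rw [htrdeg]; simp
    have hfa := hfb.isAlgebraic_field
    rw [Set.range_const] at hfa
    have hfd : FiniteDimensional ℂ⟮f⟯ F := by
      have h1 : FiniteDimensional ℂ⟮f⟯ (IntermediateField.adjoin ℂ⟮f⟯ {x, y}) :=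
        IntermediateField.finiteDimensional_adjoin_pair (hfa.isAlgebraic x).isIntegral
          (hfa.isAlgebraic y).isIntegral
      rw [adjoin_pair_top hgen] at h1
      exact Module.Finite.equiv (IntermediateField.topEquiv (F := ℂ⟮f⟯) (E := F)).toLinearEquiv
    have hpos : 0 < Module.finrank ℂ⟮f⟯ F := Module.finrank_pos
    have hne1 : Module.finrank ℂ⟮f⟯ F ≠ 1 := by
      intro h1
      rw [IntermediateField.finrank_eq_one_iff_eq_top] at h1
      let e : RatFunc ℂ ≃ₐ[ℂ] ℂ⟮f⟯ := RatFunc.algEquivOfTranscendental f hft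
      have hxm : x ∈ ℂ⟮f⟯ := by rw [h1]; trivial
      have hym : y ∈ ℂ⟮f⟯ := by rw [h1]; trivial
      have hsq : (e.symm ⟨y, hym⟩) ^ 2 = aeval (e.symm ⟨x, hxm⟩) P := by
        have e1 : aeval (e.symm ⟨x, hxm⟩) P = e.symm (aeval (⟨x, hxm⟩ : ℂ⟮f⟯) P) :=
          aeval_algHom_apply e.symm.toAlgHom _ P
        rw [e1, ← map_pow]
        congr 1
        apply (algebraMap ℂ⟮f⟯ F).injective
        rw [← aeval_algebraMap_apply]
        exact hxy
      obtain ⟨c, hc⟩ := const_of_sq hP hdeg _ _ hsq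
      have h2 := congrArg e hc
      rw [AlgEquiv.apply_symm_apply, AlgEquiv.commutes] at h2
      have h3 : x = algebraMap ℂ F c := congrArg Subtype.val h2
      apply hx
      rw [h3]
      exact isAlgebraic_algebraMap c
    rw [gonality, hd]
    omega

end Pool.Agent.H689R3.Quad
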