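import Pool.Agent.H197R3.SF.Stmts

/-! Task A2 of project H197-SF: invertibility on `ℓ²` of the twisted Toeplitz operator. -/

set_option autoImplicit false

open Filter Topology

open scoped ComplexConjugate InnerProductSpace

namespace Pool.Agent.H197R3.SF.A2

open Pool.Agent.H197R3.SF

variable {n : ℕ}

/-- truncation to a finite set -/
noncomputable def tr (u : HS n) (S : Finset ℝ) : HS n := ∑ g ∈ S, lp.single 2 g (u g)

theorem tr_apply (u : HS n) (S : Finset ℝ) (h : ℝ) :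
    (tr u S) h = if h ∈ S then u h else 0 := by
  unfold tr
  rw [lp.coeFn_sum, Finset.sum_apply]
  simp only [lp.coeFn_single]
  rw [Finset.sum_pi_single]

theorem inner_tr (u x : HS n) (S : Finset ℝ) :
    ⟪tr u S, x⟫_ℂ = ∑ g ∈ S, ⟪u g, x g⟫_ℂ := by
  unfold tr
  rw [sum_inner]
  exact Finset.sum_congr rfl fun g _ => lp.inner_single_left g (u g) x

theorem norm_tr (u : HS n) (S : Finset ℝ) : ‖tr u S‖ ^ 2 = ∑ g ∈ S, ‖u g‖ ^ 2 := by
  have h1 : ⟪tr u S, tr u S⟫_ℂ = ((∑ g ∈ S, ‖u g‖ ^ 2 : ℝ) : ℂ) := by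
    rw [inner_tr]
    push_cast
    refine Finset.sum_congr rfl fun g hg => ?_
    rw [tr_apply, if_pos hg, inner_self_eq_norm_sq_to_K]
    rfl
  have h2 := congrArg Complex.re h1
  rw [Complex.ofReal_re] at h2
  rw [← h2]
  exact (inner_self_eq_norm_sq (𝕜 := ℂ) (tr u S)).symm

theorem inner_eu (x y : EuclideanSpace ℂ (Fin n)) : ⟪x, y⟫_ℂ = ∑ i, conj (x i) * y i := by
  rw [PiLp.inner_apply]
  refine Finset.sum_congr rfl fun i _ => ?_
  rw [RCLike.inner_apply, mul_comm]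

theorem tr_tendsto (u : HS n) : Tendsto (fun S : Finset ℝ => tr u S) atTop (𝓝 u) :=
  lp.hasSum_single (by norm_num) u

/-- the nonnegative part of a finite set -/
noncomputable def ps (S : Finset ℝ) : Finset ℝ := S.filter (fun g => 0 ≤ g)

theorem inner_A {A : ℝ → Matrix (Fin n) (Fin n) ℂ → (HS n →L[ℂ] HS n)} {Q : HS n →L[ℂ] HS n}
    (h : Ops n A Q) (u : HS n) (S : Finset ℝ) (τ : ℝ) (C : Matrix (Fin n) (Fin n) ℂ) :
    ⟪tr u S, A τ C (tr u S)⟫_ℂ = ∑ g ∈ ps S, ∑ s ∈ ps S,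
      if τ = g - s then ∑ i, ∑ j, conj (u g i) * (C i j * u s j) else 0 := by
  rw [inner_tr]
  unfold ps
  rw [Finset.sum_filter]
  refine Finset.sum_congr rfl fun g hg => ?_
  rw [inner_eu]
  by_cases h0 : 0 ≤ g
  · rw [if_pos h0]
    have e1 : ∀ s ∈ S.filter (fun g => 0 ≤ g),
        (if τ = g - s then ∑ i, ∑ j, conj (u g i) * (C i j * u s j) else 0) =
        (if g - τ = s then ∑ i, ∑ j, conj (u g i) * (C i j * u s j) else 0) := by
      intro s _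
      have : τ = g - s ↔ g - τ = s := by
        constructor
        · rintro rfl; ring
        · rintro rfl; ring
      simp only [this]
    rw [Finset.sum_congr rfl e1, Finset.sum_ite_eq]
    by_cases h1 : g - τ ∈ S.filter (fun g => 0 ≤ g)
    · rw [if_pos h1]
      rw [Finset.mem_filter] at h1
      refine Finset.sum_congr rfl fun i _ => ?_
      rw [h.A_apply, if_pos ⟨h0, h1.2⟩, Finset.mul_sum]
      refine Finset.sum_congr rfl fun j _ => ?_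
      rw [tr_apply, if_pos h1.1]
    · rw [if_neg h1]
      refine Finset.sum_eq_zero fun i _ => ?_
      rw [h.A_apply]
      by_cases h2 : 0 ≤ g ∧ 0 ≤ g - τ
      · rw [if_pos h2]
        have h3 : g - τ ∉ S := fun h3 => h1 (Finset.mem_filter.2 ⟨h3, h2.2⟩)
        rw [tr_apply, if_neg h3]
        simp
      · rw [if_neg h2, mul_zero]
  · rw [if_neg h0]
    refine Finset.sum_eq_zero fun i _ => ?_
    rw [h.A_apply, if_neg (fun h2 => h0 h2.1), mul_zero]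

theorem inner_Q {A : ℝ → Matrix (Fin n) (Fin n) ℂ → (HS n →L[ℂ] HS n)} {Q : HS n →L[ℂ] HS n}
    (h : Ops n A Q) (u : HS n) (S : Finset ℝ) :
    ⟪tr u S, Q (tr u S)⟫_ℂ = ((∑ g ∈ S, if g < 0 then ‖u g‖ ^ 2 else 0 : ℝ) : ℂ) := by
  rw [inner_tr]
  push_cast
  refine Finset.sum_congr rfl fun g hg => ?_
  rw [h.Q_apply]
  by_cases h0 : g < 0
  · rw [if_pos h0, if_pos h0, tr_apply, if_pos hg, inner_self_eq_norm_sq_to_K]
    simp
  · rw [if_neg h0, if_neg h0, inner_zero_right]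
    simp

theorem chr_conj {χ : ℝ → ℂ} (hχ : Chr χ) (t s : ℝ) : χ t * conj (χ s) = χ (t - s) := by
  have h1 : χ t = χ (t - s) * χ s := by
    rw [← hχ.add, sub_add_cancel]
  rw [h1, mul_assoc, Complex.mul_conj, Complex.normSq_eq_norm_sq, hχ.nrm]
  simp

theorem summ {A : ℝ → Matrix (Fin n) (Fin n) ℂ → (HS n →L[ℂ] HS n)} {Q : HS n →L[ℂ] HS n}
    (h : Ops n A Q) (C : ℝ → Matrix (Fin n) (Fin n) ℂ) (hC : ∀ i j, Summable (fun t : ℝ => ‖C t i j‖))
    {χ : ℝ → ℂ} (hχ : Chr χ) : Summable (fun τ : ℝ => χ τ • A τ (C τ)) := by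
  refine Summable.of_norm_bounded (g := fun τ => ∑ i, ∑ j, ‖C τ i j‖)
    (summable_sum fun i _ => summable_sum fun j _ => hC i j) fun τ => ?_
  rw [norm_smul, hχ.nrm, one_mul]
  exact h.A_norm τ (C τ)

theorem inner_sum {A : ℝ → Matrix (Fin n) (Fin n) ℂ → (HS n →L[ℂ] HS n)} {Q : HS n →L[ℂ] HS n}
    (h : Ops n A Q) (C : ℝ → Matrix (Fin n) (Fin n) ℂ) (hC : ∀ i j, Summable (fun t : ℝ => ‖C t i j‖))
    {χ : ℝ → ℂ} (hχ : Chr χ) (u : HS n) (S : Finset ℝ) :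
    ⟪tr u S, (∑' τ : ℝ, χ τ • A τ (C τ)) (tr u S)⟫_ℂ = ∑ g ∈ ps S, ∑ s ∈ ps S,
      χ (g - s) * ∑ i, ∑ j, conj (u g i) * (C (g - s) i j * u s j) := by
  have h1 : HasSum (fun τ : ℝ => χ τ • A τ (C τ)) (∑' τ : ℝ, χ τ • A τ (C τ)) :=
    (summ h C hC hχ).hasSum
  have h2 := ((innerSL ℂ (tr u S)).comp
    (ContinuousLinearMap.apply ℂ (HS n) (tr u S))).hasSum h1
  have hf : (fun τ : ℝ => χ τ * ∑ g ∈ ps S, ∑ s ∈ ps S,
      if τ = g - s then ∑ i, ∑ j, conj (u g i) * (C τ i j * u s j) else 0) =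
      fun τ => ((innerSL ℂ (tr u S)).comp
        (ContinuousLinearMap.apply ℂ (HS n) (tr u S))) (χ τ • A τ (C τ)) := by
    funext τ
    change _ = ⟪tr u S, (χ τ • A τ (C τ)) (tr u S)⟫_ℂ
    rw [ContinuousLinearMap.smul_apply, inner_smul_right, inner_A h]
  have h3 : HasSum (fun τ : ℝ => χ τ * ∑ g ∈ ps S, ∑ s ∈ ps S,
      if τ = g - s then ∑ i, ∑ j, conj (u g i) * (C τ i j * u s j) else 0)
      ⟪tr u S, (∑' τ : ℝ, χ τ • A τ (C τ)) (tr u S)⟫_ℂ := by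
    rw [hf]
    exact h2
  have h4 : HasSum (fun τ : ℝ => χ τ * ∑ g ∈ ps S, ∑ s ∈ ps S,
      if τ = g - s then ∑ i, ∑ j, conj (u g i) * (C τ i j * u s j) else 0)
      (∑ g ∈ ps S, ∑ s ∈ ps S,
        χ (g - s) * ∑ i, ∑ j, conj (u g i) * (C (g - s) i j * u s j)) := by
    simp only [Finset.mul_sum (s := ps S)]
    refine hasSum_sum fun g _ => hasSum_sum fun s _ => ?_
    have h5 := hasSum_single (f := fun τ : ℝ => χ τ *
      if τ = g - s then ∑ i, ∑ j, conj (u g i) * (C τ i j * u s j) else 0) (g - s)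
      (fun τ hτ => by rw [if_neg hτ, mul_zero])
    simpa only [if_true] using h5
  exact h3.unique h4

theorem coer (hB : TaskBohr) {A : ℝ → Matrix (Fin n) (Fin n) ℂ → (HS n →L[ℂ] HS n)}
    {Q : HS n →L[ℂ] HS n} (h : Ops n A Q) (c0 : ℝ) (C : ℝ → Matrix (Fin n) (Fin n) ℂ)
    (hC : ∀ i j, Summable (fun t : ℝ => ‖C t i j‖))
    (hco : ∀ ω : ℝ, Coer c0 (Matrix.of fun i j => ∑' t : ℝ, C t i j * ch ω t))
    {χ : ℝ → ℂ} (hχ : Chr χ) (u : HS n) (S : Finset ℝ) :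
    min c0 1 * ‖tr u S‖ ^ 2 ≤
      (⟪tr u S, (Q + ∑' τ : ℝ, χ τ • A τ (C τ)) (tr u S)⟫_ℂ).re := by
  have hb := hB n c0 C hC hco (ps S) (fun s i => conj (χ s) * u s i)
  have e1 : ∀ s : ℝ, ∑ i, ‖conj (χ s) * u s i‖ ^ 2 = ‖u s‖ ^ 2 := by
    intro s
    rw [EuclideanSpace.norm_sq_eq]
    refine Finset.sum_congr rfl fun i _ => ?_
    rw [norm_mul, RCLike.norm_conj, hχ.nrm, one_mul]
  have e2 : (∑ t ∈ ps S, ∑ s ∈ ps S, ∑ i, ∑ j,
      conj (conj (χ t) * u t i) * (C (t - s) i j * (conj (χ s) * u s j))) =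
      ∑ g ∈ ps S, ∑ s ∈ ps S,
        χ (g - s) * ∑ i, ∑ j, conj (u g i) * (C (g - s) i j * u s j) := by
    refine Finset.sum_congr rfl fun t _ => Finset.sum_congr rfl fun s _ => ?_
    rw [Finset.mul_sum]
    refine Finset.sum_congr rfl fun i _ => ?_
    rw [Finset.mul_sum]
    refine Finset.sum_congr rfl fun j _ => ?_
    rw [← chr_conj hχ t s, map_mul, Complex.conj_conj]
    ring
  rw [e2, Finset.sum_congr rfl fun s _ => e1 s] at hb
  rw [ContinuousLinearMap.add_apply, inner_add_right, inner_Q h, inner_sum h C hC hχ,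
    Complex.add_re, Complex.ofReal_re, norm_tr]
  have e3 : ∑ s ∈ ps S, ‖u s‖ ^ 2 = ∑ g ∈ S, if 0 ≤ g then ‖u g‖ ^ 2 else 0 := by
    unfold ps
    rw [Finset.sum_filter]
  rw [e3] at hb
  refine le_trans ?_ (add_le_add_right hb _)
  rw [Finset.mul_sum, Finset.mul_sum, ← Finset.sum_add_distrib]
  refine Finset.sum_le_sum fun g _ => ?_
  have hn : 0 ≤ ‖u g‖ ^ 2 := sq_nonneg _
  by_cases h0 : g < 0
  · rw [if_pos h0, if_neg (not_le.2 h0), mul_zero, add_zero]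
    have := mul_le_mul_of_nonneg_right (min_le_right c0 1) hn
    linarith
  · rw [if_neg h0, if_pos (not_lt.1 h0), zero_add]
    exact mul_le_mul_of_nonneg_right (min_le_left c0 1) hn

theorem coer_all (hB : TaskBohr) {A : ℝ → Matrix (Fin n) (Fin n) ℂ → (HS n →L[ℂ] HS n)}
    {Q : HS n →L[ℂ] HS n} (h : Ops n A Q) (c0 : ℝ) (C : ℝ → Matrix (Fin n) (Fin n) ℂ)
    (hC : ∀ i j, Summable (fun t : ℝ => ‖C t i j‖))
    (hco : ∀ ω : ℝ, Coer c0 (Matrix.of fun i j => ∑' t : ℝ, C t i j * ch ω t))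
    {χ : ℝ → ℂ} (hχ : Chr χ) (u : HS n) :
    min c0 1 * ‖u‖ ^ 2 ≤ (⟪u, (Q + ∑' τ : ℝ, χ τ • A τ (C τ)) u⟫_ℂ).re := by
  set a : HS n →L[ℂ] HS n := Q + ∑' τ : ℝ, χ τ • A τ (C τ) with ha
  have ht := tr_tendsto u
  have h1 : Tendsto (fun S : Finset ℝ => min c0 1 * ‖tr u S‖ ^ 2) atTop
      (𝓝 (min c0 1 * ‖u‖ ^ 2)) := (ht.norm.pow 2).const_mul _
  have h2 : Tendsto (fun S : Finset ℝ => (⟪tr u S, a (tr u S)⟫_ℂ).re) atTop
      (𝓝 (⟪u, a u⟫_ℂ).re) := by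
    have h3 : Tendsto (fun S : Finset ℝ => a (tr u S)) atTop (𝓝 (a u)) :=
      (a.continuous.tendsto u).comp ht
    exact (Complex.continuous_re.tendsto _).comp (ht.inner h3)
  exact le_of_tendsto_of_tendsto' h1 h2 fun S => coer hB h c0 C hC hco hχ u S

theorem taskA2 : TaskA2 := by
  intro hB n A Q h c0 C hc0 hC hco χ hχ
  have hc : 0 < min c0 1 := lt_min hc0 one_pos
  refine ContinuousLinearMap.isUnit_of_forall_le_norm_inner_map _ (c := ⟨min c0 1, hc.le⟩) hc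
    fun u => ?_
  have h1 := coer_all hB h c0 C hC hco hχ u
  rw [norm_inner_symm]
  change ‖u‖ ^ 2 * min c0 1 ≤ _
  rw [mul_comm]
  exact h1.trans (Complex.re_le_norm _)

end Pool.Agent.H197R3.SF.A2
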