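import Pool.Agent.H689R3.WeylDefs

/-!
Convex geometry part: a closed convex cone with the formal properties of the
pseudo-effective cone has only Weyl divisors as extremal rays of positive degree.
-/

namespace Pool.Agent.H689R3.Weyl

open Finset

variable {s n : ℕ}

/-- top set of size n+1 -/
lemma exists_top (hs : n + 1 ≤ s) (μ : Fin s → ℝ) :
    ∃ I : Finset (Fin s), I.card = n + 1 ∧ ∃ i₀ ∈ I,
      (∀ i ∈ I, μ i₀ ≤ μ i) ∧ (∀ j, j ∉ I → μ j ≤ μ i₀) := by
  have hne : (powersetCard (n + 1) (univ : Finset (Fin s))).Nonempty := by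
    rw [powersetCard_nonempty]; simpa using hs
  obtain ⟨I, hI, hmax⟩ := exists_max_image _ (fun I : Finset (Fin s) => ∑ i ∈ I, μ i) hne
  rw [mem_powersetCard] at hI
  have hIne : I.Nonempty := by
    rw [← card_pos, hI.2]; omega
  obtain ⟨i₀, hi₀, hmin⟩ := exists_min_image I μ hIne
  refine ⟨I, hI.2, i₀, hi₀, hmin, fun j hj => ?_⟩
  by_contra hlt
  push Not at hlt
  have hj' : j ∉ I.erase i₀ := fun h => hj (mem_of_mem_erase h)
  have hmem : insert j (I.erase i₀) ∈ powersetCard (n + 1) (univ : Finset (Fin s)) := by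
    rw [mem_powersetCard]
    refine ⟨subset_univ _, ?_⟩
    rw [card_insert_of_notMem hj', card_erase_of_mem hi₀, hI.2]; omega
  have h := hmax _ hmem
  rw [sum_insert hj'] at h
  have h2 := sum_erase_add I μ hi₀
  linarith

lemma sum_ite_add (I : Finset (Fin s)) (a f : Fin s → ℝ) :
    ∑ i, (a i + if i ∈ I then f i else 0) = ∑ i, a i + ∑ i ∈ I, f i := by
  rw [sum_add_distrib]; congr 1
  simp [Finset.sum_ite_mem]

/-- the quadratic inequality on the fundamental domain -/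
lemma bb_self_nonneg (hs : n + 1 ≤ s) (x : NOne s) (h0 : ∀ i, 0 ≤ x.2 i) (h1 : ∀ i, x.2 i ≤ x.1)
    (hk : ∀ I : Finset (Fin s), I.card = n + 1 → 0 ≤ kk n I x) (hF : 0 ≤ fDeg n x) :
    0 ≤ bb n x x := by
  obtain ⟨I, hI, i₀, hi₀, hle, hge⟩ := exists_top hs x.2
  have hd : 0 ≤ x.1 := (h0 i₀).trans (h1 i₀)
  have hb := h0 i₀
  have key : ∑ i, x.2 i * x.2 i ≤
      ∑ i, (x.2 i₀ * x.2 i + if i ∈ I then (x.1 * x.2 i - x.2 i₀ * x.1) else 0) := by
    refine sum_le_sum fun i _ => ?_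
    by_cases hi : i ∈ I
    · rw [if_pos hi]
      nlinarith [mul_nonneg (sub_nonneg.2 (hle i hi)) (sub_nonneg.2 (h1 i))]
    · rw [if_neg hi]
      nlinarith [mul_nonneg (sub_nonneg.2 (hge i hi)) (h0 i)]
  rw [sum_ite_add, ← mul_sum, sum_sub_distrib, ← mul_sum, sum_const, hI, nsmul_eq_mul] at key
  push_cast at key
  have hk' := hk I hI
  unfold kk at hk'
  unfold fDeg at hF
  unfold bb
  have e1 : x.1 * (((n : ℝ) - 1) * x.1 - ∑ i ∈ I, x.2 i) ≥ 0 := mul_nonneg hd hk'
  have e2 : x.2 i₀ * (((n : ℝ) + 1) * x.1 - ∑ i, x.2 i) ≥ 0 := mul_nonneg hb hF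
  nlinarith [key, e1, e2]

/-- pairing of curve classes with divisor classes -/
def pr (y x : NOne s) : ℝ := y.1 * x.1 - ∑ i, y.2 i * x.2 i

lemma pr_nonneg (hs : n + 1 ≤ s) (x y : NOne s) (h0 : ∀ i, 0 ≤ x.2 i) (h1 : ∀ i, x.2 i ≤ x.1)
    (hF : 0 ≤ fDeg n x) (hy0 : ∀ i, 0 ≤ y.2 i)
    (hy : ∀ I : Finset (Fin s), I.card = n + 1 → ∑ i ∈ I, y.2 i ≤ y.1) :
    0 ≤ pr y x := by
  obtain ⟨I, hI, i₀, hi₀, hle, hge⟩ := exists_top hs y.2
  have hd : 0 ≤ x.1 := (h0 i₀).trans (h1 i₀)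
  have hb := hy0 i₀
  have key : ∑ i, y.2 i * x.2 i ≤
      ∑ i, (y.2 i₀ * x.2 i + if i ∈ I then (x.1 * y.2 i - y.2 i₀ * x.1) else 0) := by
    refine sum_le_sum fun i _ => ?_
    by_cases hi : i ∈ I
    · rw [if_pos hi]
      nlinarith [mul_nonneg (sub_nonneg.2 (hle i hi)) (sub_nonneg.2 (h1 i))]
    · rw [if_neg hi]
      nlinarith [mul_nonneg (sub_nonneg.2 (hge i hi)) (h0 i)]
  rw [sum_ite_add, ← mul_sum, sum_sub_distrib, ← mul_sum, sum_const, hI, nsmul_eq_mul] at key
  push_cast at key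
  unfold fDeg at hF
  unfold pr
  have e1 : x.1 * (y.1 - ∑ i ∈ I, y.2 i) ≥ 0 := mul_nonneg hd (sub_nonneg.2 (hy I hI))
  have e2 : y.2 i₀ * (((n : ℝ) + 1) * x.1 - ∑ i, x.2 i) ≥ 0 := mul_nonneg hb hF
  nlinarith [key, e1, e2]

/-- the real Weyl divisors -/
def weylSet (s n : ℕ) : Set (NOne s) := {x | ∃ D : NInt s, IsWeylDivisor n D ∧ x = toReal D}

lemma crem_mem_weylSet {I : Finset (Fin s)} (hI : I.card = n + 1) {x : NOne s}
    (hx : x ∈ weylSet s n) : crem n I x ∈ weylSet s n := by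
  obtain ⟨D, hD, rfl⟩ := hx
  exact ⟨cremona n I D, IsWeylDivisor.crem I hI D hD, (toReal_cremona I D).symm⟩

/-- Cremona on curve classes -/
def cremY (n : ℕ) (I : Finset (Fin s)) (y : NOne s) : NOne s :=
  (y.1 + ((n : ℝ) - 1) * (y.1 - ∑ i ∈ I, y.2 i),
    fun i => y.2 i + if i ∈ I then (y.1 - ∑ j ∈ I, y.2 j) else 0)

lemma pr_cremY (I : Finset (Fin s)) (x y : NOne s) :
    pr (cremY n I y) x = pr y (crem n I x) := by
  unfold pr
  have h1 : ∑ i, (cremY n I y).2 i * x.2 i = ∑ i, y.2 i * x.2 i +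
      (y.1 - ∑ j ∈ I, y.2 j) * ∑ i ∈ I, x.2 i := by
    simp only [cremY, add_mul, Finset.sum_add_distrib, ite_mul, zero_mul, Finset.sum_ite_mem,
      Finset.univ_inter, Finset.mul_sum]
  have h2 : ∑ i, y.2 i * (crem n I x).2 i = ∑ i, y.2 i * x.2 i + kk n I x * ∑ i ∈ I, y.2 i := by
    simp only [crem, mul_add, Finset.sum_add_distrib, mul_ite, mul_zero, Finset.sum_ite_mem,
      Finset.univ_inter, Finset.mul_sum]
    congr 1
    exact Finset.sum_congr rfl (fun i _ => mul_comm _ _)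
  rw [h1, h2]
  have h5 : (crem n I x).1 = x.1 + kk n I x := rfl
  have h6 : (cremY n I y).1 = y.1 + ((n : ℝ) - 1) * (y.1 - ∑ i ∈ I, y.2 i) := rfl
  rw [h5, h6]
  unfold kk; ring

lemma pr_crem_eq (I : Finset (Fin s)) (x y : NOne s) :
    pr y (crem n I x) = pr y x + kk n I x * (y.1 - ∑ i ∈ I, y.2 i) := by
  unfold pr
  have h2 : ∑ i, y.2 i * (crem n I x).2 i = ∑ i, y.2 i * x.2 i + kk n I x * ∑ i ∈ I, y.2 i := by
    simp only [crem, mul_add, Finset.sum_add_distrib, mul_ite, mul_zero, Finset.sum_ite_mem,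
      Finset.univ_inter, Finset.mul_sum]
    congr 1
    exact Finset.sum_congr rfl (fun i _ => mul_comm _ _)
  rw [h2]
  have h5 : (crem n I x).1 = x.1 + kk n I x := rfl
  rw [h5]; ring

lemma continuous_pr_left (x : NOne s) : Continuous (fun y : NOne s => pr y x) := by
  unfold pr; fun_prop

/-- A linear functional is a pairing with a curve class. -/
lemma exists_pr (f : NOne s →L[ℝ] ℝ) : ∃ y : NOne s, ∀ x, f x = pr y x := by
  refine ⟨(f (1, 0), fun i => - f (0, Pi.single i 1)), fun x => ?_⟩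
  have hx : x = x.1 • ((1, 0) : NOne s) + ∑ i, x.2 i • ((0, Pi.single i 1) : NOne s) := by
    ext1
    · simp [Prod.fst_sum]
    · funext j
      simp [Prod.snd_sum, Finset.sum_apply, Pi.single_apply]
  conv_lhs => rw [hx]
  rw [map_add, map_smul, map_sum]
  simp only [map_smul, smul_eq_mul, pr]
  rw [show ∑ i, -f (0, Pi.single i 1) * x.2 i = - ∑ i, x.2 i * f (0, Pi.single i 1) by
    rw [← Finset.sum_neg_distrib]; exact Finset.sum_congr rfl (fun i _ => by ring)]
  ring

/-- hyperplanes through n points are Weyl -/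
lemma exists_hyper (hs : n + 1 ≤ s) (i : Fin s) (hn : 1 ≤ n) :
    ∃ v ∈ weylSet s n, v.1 = 1 ∧ (∀ j, v.2 j = 0 ∨ v.2 j = 1) ∧ v.2 i = 1 := by
  -- choose a set of n+1 points containing i and another point
  obtain ⟨I, hiI, hI⟩ : ∃ I : Finset (Fin s), i ∈ I ∧ I.card = n + 1 := by
    obtain ⟨I, h1, _, h3⟩ := Finset.exists_subsuperset_card_eq (s := {i})
      (t := (univ : Finset (Fin s))) (n := n + 1) (subset_univ _) (by simp) (by simpa using hs)
    exact ⟨I, by simpa using h1, h3⟩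
  obtain ⟨j, hj, hji⟩ : ∃ j ∈ I, j ≠ i := by
    have : 1 < I.card := by omega
    exact Finset.exists_mem_ne this i
  refine ⟨_, crem_mem_weylSet hI ⟨_, IsWeylDivisor.exc j, rfl⟩, ?_, ?_, ?_⟩
  · have hk : kk n I (toReal ((0, fun l => if l = j then -1 else 0) : NInt s)) = 1 := by
      simp [kk, toReal, hj]
    have : (crem n I (toReal ((0, fun l => if l = j then -1 else 0) : NInt s))).1 =
      (toReal ((0, fun l => if l = j then -1 else 0) : NInt s)).1 +
      kk n I (toReal ((0, fun l => if l = j then -1 else 0) : NInt s)) := rfl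
    rw [this, hk]; simp [toReal]
  · intro l
    have hk : kk n I (toReal ((0, fun l => if l = j then -1 else 0) : NInt s)) = 1 := by
      simp [kk, toReal, hj]
    have : (crem n I (toReal ((0, fun l => if l = j then -1 else 0) : NInt s))).2 l =
      (toReal ((0, fun l => if l = j then -1 else 0) : NInt s)).2 l +
      if l ∈ I then kk n I (toReal ((0, fun l => if l = j then -1 else 0) : NInt s)) else 0 := rfl
    rw [this, hk]
    by_cases hlj : l = j
    · subst hlj; simp [toReal, hj]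
    · by_cases hl : l ∈ I <;> simp [toReal, hlj, hl]
  · have hk : kk n I (toReal ((0, fun l => if l = j then -1 else 0) : NInt s)) = 1 := by
      simp [kk, toReal, hj]
    have : (crem n I (toReal ((0, fun l => if l = j then -1 else 0) : NInt s))).2 i =
      (toReal ((0, fun l => if l = j then -1 else 0) : NInt s)).2 i +
      if i ∈ I then kk n I (toReal ((0, fun l => if l = j then -1 else 0) : NInt s)) else 0 := rfl
    rw [this, hk]
    simp [toReal, hiI, Ne.symm hji]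

/-- The fundamental domain lies in the closed cone generated by Weyl divisors. -/
theorem mem_closure_hull (hn : 2 ≤ n) (hs : n + 1 ≤ s) (x : NOne s) (h0 : ∀ i, 0 ≤ x.2 i)
    (h1 : ∀ i, x.2 i ≤ x.1)
    (hk : ∀ I : Finset (Fin s), I.card = n + 1 → 0 ≤ kk n I x) (hF : 0 ≤ fDeg n x) :
    x ∈ closure (PointedCone.hull ℝ (weylSet s n) : Set (NOne s)) := by
  by_contra hx
  set W := PointedCone.hull ℝ (weylSet s n) with hW
  have hconv : Convex ℝ (closure (W : Set (NOne s))) := by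
    exact (PointedCone.convex W).closure
  obtain ⟨f, u, hfx, hfb⟩ := geometric_hahn_banach_point_closed hconv isClosed_closure hx
  have h0u : u < 0 := by
    have := hfb 0 (subset_closure W.zero_mem)
    simpa using this
  have hfW : ∀ v ∈ weylSet s n, 0 ≤ f v := by
    intro v hv
    by_contra hneg
    push Not at hneg
    have hmem : (u / f v) • v ∈ W := by
      have : 0 ≤ u / f v := div_nonneg_of_nonpos h0u.le hneg.le
      exact W.smul_mem this (PointedCone.subset_hull hv)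
    have := hfb _ (subset_closure hmem)
    rw [map_smul, smul_eq_mul, div_mul_cancel₀ _ hneg.ne] at this
    exact lt_irrefl _ this
  obtain ⟨y₀, hy₀⟩ := exists_pr f
  set c₀ := f x with hc₀
  have hc₀neg : c₀ < 0 := hfx.trans h0u
  -- the set of curve classes
  let A : Set (NOne s) := {y | (∀ v ∈ weylSet s n, 0 ≤ pr y v) ∧ pr y x ≤ c₀}
  have hAclosed : IsClosed A := by
    have : A = (⋂ v ∈ weylSet s n, {y | 0 ≤ pr y v}) ∩ {y | pr y x ≤ c₀} := by
      ext y; simp [A]
    rw [this]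
    refine IsClosed.inter (isClosed_biInter fun v _ => ?_) ?_
    · exact isClosed_le continuous_const (continuous_pr_left v)
    · exact isClosed_le (continuous_pr_left x) continuous_const
  have hy₀A : y₀ ∈ A := ⟨fun v hv => by rw [← hy₀]; exact hfW v hv, by rw [← hy₀]⟩
  have hμ : ∀ y ∈ A, ∀ i, 0 ≤ y.2 i := by
    intro y hy i
    have := hy.1 _ ⟨_, IsWeylDivisor.exc i, rfl⟩
    simpa [pr, toReal] using this
  have hμδ : ∀ y ∈ A, ∀ i, y.2 i ≤ y.1 := by
    intro y hy i
    obtain ⟨v, hv, hv1, hv01, hvi⟩ := exists_hyper hs i (by omega)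
    have h := hy.1 v hv
    unfold pr at h
    rw [hv1, mul_one] at h
    have : y.2 i ≤ ∑ j, y.2 j * v.2 j := by
      have h3 : y.2 i = y.2 i * v.2 i := by rw [hvi, mul_one]
      rw [h3]
      refine Finset.single_le_sum (f := fun j => y.2 j * v.2 j) (fun j _ => ?_) (mem_univ i)
      rcases hv01 j with h4 | h4 <;> simp [h4, hμ y hy j]
    linarith
  have hcompact : IsCompact (A ∩ {y | y.1 ≤ y₀.1}) := by
    refine IsCompact.of_isClosed_subset
      (s := Set.Icc (0 : NOne s) (y₀.1, fun _ => y₀.1)) isCompact_Icc ?_ ?_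
    · exact hAclosed.inter (isClosed_le continuous_fst continuous_const)
    · rintro y ⟨hyA, hy1⟩
      have hy1' : y.1 ≤ y₀.1 := hy1
      refine ⟨⟨?_, fun i => hμ y hyA i⟩, ⟨hy1', fun i => (hμδ y hyA i).trans hy1'⟩⟩
      have i : Fin s := ⟨0, by omega⟩
      exact (hμ y hyA i).trans (hμδ y hyA i)
  obtain ⟨y, ⟨hyA, hy1⟩, hymin⟩ := hcompact.exists_isMinOn ⟨y₀, hy₀A, (le_refl y₀.1 : y₀.1 ≤ y₀.1)⟩
    (continuous_fst.continuousOn)
  have hdom : ∀ I : Finset (Fin s), I.card = n + 1 → ∑ i ∈ I, y.2 i ≤ y.1 := by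
    intro I hI
    by_contra hlt
    push Not at hlt
    have hr : y.1 - ∑ i ∈ I, y.2 i < 0 := by linarith
    have hn' : (0 : ℝ) < (n : ℝ) - 1 := by
      have : (2 : ℝ) ≤ n := by exact_mod_cast hn
      linarith
    have hlt' : (cremY n I y).1 < y.1 := by
      have : (cremY n I y).1 = y.1 + ((n : ℝ) - 1) * (y.1 - ∑ i ∈ I, y.2 i) := rfl
      rw [this]
      nlinarith
    have hA' : cremY n I y ∈ A := by
      refine ⟨fun v hv => ?_, ?_⟩
      · rw [pr_cremY]; exact hyA.1 _ (crem_mem_weylSet hI hv)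
      · rw [pr_cremY, pr_crem_eq]
        have := hk I hI
        have h2 := hyA.2
        nlinarith
    have hmem : cremY n I y ∈ A ∩ {y | y.1 ≤ y₀.1} :=
      ⟨hA', (hlt'.le.trans hy1 : (cremY n I y).1 ≤ y₀.1)⟩
    have := hymin hmem
    exact absurd hlt' (not_lt.2 this)
  have := pr_nonneg hs x y h0 h1 hF (hμ y hyA) hdom
  have h2 := hyA.2
  linarith

end Pool.Agent.H689R3.Weyl
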