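import Mathlib

/-!
Definitions for blow-ups of projective space at points, and linear algebra of the
standard Cremona transformations on divisor classes.
-/

namespace Pool.Agent.H689R3.Weyl

open Finset

/-- Real divisor classes on the blow-up of projective `n`-space at `s` points:
`(d, m)` stands for `d H - ∑ i, m i E i`. -/
abbrev NOne (s : ℕ) := ℝ × (Fin s → ℝ)

/-- Integral divisor classes; `(d, m)` stands for `d H - ∑ i, m i E i`. -/
abbrev NInt (s : ℕ) := ℤ × (Fin s → ℤ)

/-- The real class of an integral class. -/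
def toReal {s : ℕ} (D : NInt s) : NOne s := ((D.1 : ℝ), fun i => (D.2 i : ℝ))

/-- The standard Cremona transformation based at the points with index in `I`
(used for `I` with `n + 1` elements), acting on integral classes:
with `k = (n - 1) d - ∑ i ∈ I, m i` it sends `d` to `d + k`, `m i` to `m i + k` for `i ∈ I`
and leaves the other `m i` unchanged. -/
def cremona {s : ℕ} (n : ℕ) (I : Finset (Fin s)) (D : NInt s) : NInt s :=
  (D.1 + (((n : ℤ) - 1) * D.1 - ∑ i ∈ I, D.2 i),
    fun i => if i ∈ I then D.2 i + (((n : ℤ) - 1) * D.1 - ∑ j ∈ I, D.2 j) else D.2 i)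

/-- Weyl divisors: the elements of the orbit of the exceptional classes `E i = (0, -δ_i)`
under the group generated by the permutations of the points and the standard Cremona
transformations at all sets of `n + 1` points. -/
inductive IsWeylDivisor {s : ℕ} (n : ℕ) : NInt s → Prop
  | exc (i : Fin s) : IsWeylDivisor n (0, fun j => if j = i then -1 else 0)
  | perm (σ : Equiv.Perm (Fin s)) (D : NInt s) (h : IsWeylDivisor n D) :
      IsWeylDivisor n (D.1, fun i => D.2 (σ i))
  | crem (I : Finset (Fin s)) (hI : I.card = n + 1) (D : NInt s) (h : IsWeylDivisor n D) :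
      IsWeylDivisor n (cremona n I D)

/-- Intersection number with the anticanonical curve class `F = (n + 1) h - ∑ e_i`. -/
def fDeg {s : ℕ} (n : ℕ) (x : NOne s) : ℝ := ((n : ℝ) + 1) * x.1 - ∑ i, x.2 i

/-- The half-line spanned by `x`. -/
def ray {s : ℕ} (x : NOne s) : Set (NOne s) := {y | ∃ t : ℝ, 0 ≤ t ∧ y = t • x}

/-- `x` spans an extremal ray of `C`. -/
def SpansExtremalRay {s : ℕ} (C : Set (NOne s)) (x : NOne s) : Prop :=
  x ∈ C ∧ x ≠ 0 ∧ ∀ y ∈ C, ∀ z ∈ C, y + z ∈ ray x → y ∈ ray x ∧ z ∈ ray x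

/-! ### Linear algebra of the Cremona action -/

/-- the number `k` -/
def kk {s : ℕ} (n : ℕ) (I : Finset (Fin s)) (x : NOne s) : ℝ :=
  ((n : ℝ) - 1) * x.1 - ∑ i ∈ I, x.2 i

/-- real Cremona -/
def crem {s : ℕ} (n : ℕ) (I : Finset (Fin s)) (x : NOne s) : NOne s :=
  (x.1 + kk n I x, fun i => x.2 i + if i ∈ I then kk n I x else 0)

/-- the invariant form -/
def bb {s : ℕ} (n : ℕ) (x y : NOne s) : ℝ := ((n : ℝ) - 1) * x.1 * y.1 - ∑ i, x.2 i * y.2 i

variable {s n : ℕ}

lemma toReal_cremona (I : Finset (Fin s)) (D : NInt s) :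
    toReal (cremona n I D) = crem n I (toReal D) := by
  unfold toReal cremona crem kk
  ext1
  · simp
  · funext i
    by_cases h : i ∈ I <;> simp [h]

lemma sum_ite_const (I : Finset (Fin s)) (c : ℝ) :
    ∑ i, (if i ∈ I then c else 0) = I.card * c := by
  simp [Finset.sum_ite_mem]

lemma sum_ite_const_mem (I : Finset (Fin s)) (c : ℝ) :
    ∑ i ∈ I, (if i ∈ I then c else 0) = I.card * c := by
  rw [Finset.sum_congr rfl (fun i hi => if_pos hi)]
  simp

lemma kk_crem {I : Finset (Fin s)} (hI : I.card = n + 1) (x : NOne s) :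
    kk n I (crem n I x) = - kk n I x := by
  have h : ∑ i ∈ I, (crem n I x).2 i = ∑ i ∈ I, x.2 i + ((n : ℝ) + 1) * kk n I x := by
    simp only [crem, Finset.sum_add_distrib]
    rw [sum_ite_const_mem, hI]; push_cast; ring
  have h1 : kk n I (crem n I x) = ((n : ℝ) - 1) * (crem n I x).1 - ∑ i ∈ I, (crem n I x).2 i := rfl
  rw [h1, h]
  have h2 : (crem n I x).1 = x.1 + kk n I x := rfl
  rw [h2]
  have h3 : ∑ i ∈ I, x.2 i = ((n : ℝ) - 1) * x.1 - kk n I x := by unfold kk; ring
  rw [h3]; ring

lemma crem_crem {I : Finset (Fin s)} (hI : I.card = n + 1) (x : NOne s) :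
    crem n I (crem n I x) = x := by
  have h := kk_crem hI x
  have h1 : crem n I (crem n I x) = ((crem n I x).1 + kk n I (crem n I x),
    fun i => (crem n I x).2 i + if i ∈ I then kk n I (crem n I x) else 0) := rfl
  rw [h1, h]
  ext1
  · simp [crem]
  · funext i
    by_cases hi : i ∈ I <;> simp [crem, hi]

lemma fDeg_crem {I : Finset (Fin s)} (hI : I.card = n + 1) (x : NOne s) :
    fDeg n (crem n I x) = fDeg n x := by
  unfold fDeg
  have h : ∑ i, (crem n I x).2 i = ∑ i, x.2 i + ((n : ℝ) + 1) * kk n I x := by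
    simp only [crem, Finset.sum_add_distrib]
    rw [sum_ite_const, hI]; push_cast; ring
  rw [h]
  have h2 : (crem n I x).1 = x.1 + kk n I x := rfl
  rw [h2]; ring

lemma bb_crem_left {I : Finset (Fin s)} (hI : I.card = n + 1) (x y : NOne s) :
    bb n (crem n I x) y = bb n x (crem n I y) := by
  unfold bb
  have h1 : ∑ i, (crem n I x).2 i * y.2 i = ∑ i, x.2 i * y.2 i + kk n I x * ∑ i ∈ I, y.2 i := by
    simp only [crem, add_mul, Finset.sum_add_distrib, ite_mul, zero_mul, Finset.sum_ite_mem,
      Finset.univ_inter, Finset.mul_sum]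
  have h2 : ∑ i, x.2 i * (crem n I y).2 i = ∑ i, x.2 i * y.2 i + kk n I y * ∑ i ∈ I, x.2 i := by
    simp only [crem, mul_add, Finset.sum_add_distrib, mul_ite, mul_zero, Finset.sum_ite_mem,
      Finset.univ_inter, Finset.mul_sum]
    congr 1
    exact Finset.sum_congr rfl (fun i _ => mul_comm _ _)
  rw [h1, h2]
  have h3 : ∑ i ∈ I, x.2 i = ((n : ℝ) - 1) * x.1 - kk n I x := by unfold kk; ring
  have h4 : ∑ i ∈ I, y.2 i = ((n : ℝ) - 1) * y.1 - kk n I y := by unfold kk; ring
  have h5 : (crem n I x).1 = x.1 + kk n I x := rfl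
  have h6 : (crem n I y).1 = y.1 + kk n I y := rfl
  rw [h3, h4, h5, h6]; ring

lemma bb_crem {I : Finset (Fin s)} (hI : I.card = n + 1) (x y : NOne s) :
    bb n (crem n I x) (crem n I y) = bb n x y := by
  rw [bb_crem_left hI, crem_crem hI]

lemma kk_add (I : Finset (Fin s)) (x y : NOne s) : kk n I (x + y) = kk n I x + kk n I y := by
  simp only [kk, Prod.fst_add, Prod.snd_add, Pi.add_apply, Finset.sum_add_distrib]; ring

lemma kk_smul (I : Finset (Fin s)) (t : ℝ) (x : NOne s) : kk n I (t • x) = t * kk n I x := by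
  simp only [kk, Prod.smul_fst, Prod.smul_snd, Pi.smul_apply, smul_eq_mul, ← Finset.mul_sum]; ring

lemma crem_add (I : Finset (Fin s)) (x y : NOne s) :
    crem n I (x + y) = crem n I x + crem n I y := by
  unfold crem
  rw [kk_add]
  ext1
  · simp; ring
  · funext i
    by_cases hi : i ∈ I <;> simp [hi] ; ring

lemma crem_smul (I : Finset (Fin s)) (t : ℝ) (x : NOne s) :
    crem n I (t • x) = t • crem n I x := by
  unfold crem
  rw [kk_smul]
  ext1
  · simp; ring
  · funext i
    by_cases hi : i ∈ I <;> simp [hi] ; ring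

lemma continuous_kk (I : Finset (Fin s)) : Continuous (kk n I : NOne s → ℝ) := by
  unfold kk; fun_prop

lemma continuous_crem (I : Finset (Fin s)) : Continuous (crem n I : NOne s → NOne s) := by
  unfold crem
  have := continuous_kk (n := n) I
  refine Continuous.prodMk (by fun_prop) ?_
  refine continuous_pi fun i => ?_
  by_cases hi : i ∈ I
  · simp only [hi, if_true]; fun_prop
  · simp only [hi, if_false]; fun_prop

lemma continuous_fDeg : Continuous (fDeg n : NOne s → ℝ) := by
  unfold fDeg; fun_prop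

lemma fDeg_add (x y : NOne s) : fDeg n (x + y) = fDeg n x + fDeg n y := by
  simp only [fDeg, Prod.fst_add, Prod.snd_add, Pi.add_apply, Finset.sum_add_distrib]; ring

lemma fDeg_smul (t : ℝ) (x : NOne s) : fDeg n (t • x) = t * fDeg n x := by
  simp only [fDeg, Prod.smul_fst, Prod.smul_snd, Pi.smul_apply, smul_eq_mul, ← Finset.mul_sum]; ring

lemma bb_add_left (x y z : NOne s) : bb n (x + y) z = bb n x z + bb n y z := by
  simp only [bb, Prod.fst_add, Prod.snd_add, Pi.add_apply, add_mul, mul_add,
    Finset.sum_add_distrib]; ring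

lemma bb_comm (x y : NOne s) : bb n x y = bb n y x := by
  unfold bb
  rw [Finset.sum_congr rfl (fun i _ => mul_comm (x.2 i) (y.2 i))]; ring

end Pool.Agent.H689R3.Weyl
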