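import Pool.Agent.H689R3.WeylConvex

/-!
Extremal rays of a closed cone with the formal properties of the pseudo-effective cone.
-/

namespace Pool.Agent.H689R3.Weyl

open Finset
open scoped Pointwise

variable {s n : ℕ}

/-- Formal properties of the pseudo-effective cone used in the proof. -/
structure GoodCone (s n : ℕ) (C : Set (NOne s)) : Prop where
  closed : IsClosed C
  add_mem : ∀ x ∈ C, ∀ y ∈ C, x + y ∈ C
  smul_mem : ∀ t : ℝ, 0 ≤ t → ∀ x ∈ C, t • x ∈ C
  crem_mem : ∀ I : Finset (Fin s), I.card = n + 1 → ∀ x ∈ C, crem n I x ∈ C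
  weyl_mem : ∀ x ∈ weylSet s n, x ∈ C
  hyper_mem : ((1, 0) : NOne s) ∈ C
  nonneg : ∀ x ∈ C, 0 ≤ x.1
  mult_le : ∀ x ∈ C, ∀ i, x.2 i ≤ x.1
  trunc : ∀ x ∈ C, ∀ i, x.2 i < 0 → (x.1, Function.update x.2 i 0) ∈ C

lemma weyl_fDeg {x : NOne s} (hx : x ∈ weylSet s n) : fDeg n x = 1 := by
  obtain ⟨D, hD, rfl⟩ := hx
  induction hD with
  | exc i =>
    simp only [fDeg, toReal]
    simp
  | perm σ D h ih =>
    rw [← ih]
    unfold fDeg toReal
    simp only
    congr 1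
    exact Equiv.sum_comp σ (fun i => ((D.2 i : ℤ) : ℝ))
  | crem I hI D h ih => rw [toReal_cremona, fDeg_crem hI, ih]

lemma weyl_bb {x : NOne s} (hx : x ∈ weylSet s n) : bb n x x = -1 := by
  obtain ⟨D, hD, rfl⟩ := hx
  induction hD with
  | exc i =>
    simp only [bb, toReal]
    simp
  | perm σ D h ih =>
    rw [← ih]
    unfold bb toReal
    simp only
    congr 1
    exact Equiv.sum_comp σ (fun i => ((D.2 i : ℤ) : ℝ) * ((D.2 i : ℤ) : ℝ))
  | crem I hI D h ih => rw [toReal_cremona, bb_crem hI, ih]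

lemma int_box_finite (B : ℝ) : {x : NOne s | (∃ D : NInt s, x = toReal D) ∧ |x.1| ≤ B ∧
    ∀ i, |x.2 i| ≤ B}.Finite := by
  have hfin : ((Set.Icc ⌊-B⌋ ⌈B⌉) ×ˢ
      (Set.pi Set.univ (fun _ : Fin s => Set.Icc ⌊-B⌋ ⌈B⌉)) : Set (NInt s)).Finite :=
    (Set.finite_Icc _ _).prod (Set.Finite.pi fun _ => Set.finite_Icc _ _)
  refine (hfin.image toReal).subset ?_
  rintro x ⟨⟨D, rfl⟩, h1, h2⟩
  refine ⟨D, ⟨⟨?_, ?_⟩, fun i _ => ⟨?_, ?_⟩⟩, rfl⟩
  · have := (abs_le.1 h1).1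
    have h3 : (⌊-B⌋ : ℝ) ≤ D.1 := (Int.floor_le _).trans this
    exact_mod_cast h3
  · have := (abs_le.1 h1).2
    have h3 : (D.1 : ℝ) ≤ ⌈B⌉ := le_trans this (Int.le_ceil _)
    exact_mod_cast h3
  · have := (abs_le.1 (h2 i)).1
    have h3 : (⌊-B⌋ : ℝ) ≤ D.2 i := (Int.floor_le _).trans this
    exact_mod_cast h3
  · have := (abs_le.1 (h2 i)).2
    have h3 : (D.2 i : ℝ) ≤ ⌈B⌉ := le_trans this (Int.le_ceil _)
    exact_mod_cast h3

lemma coord_sq_le (x : NOne s) (i : Fin s) : x.2 i * x.2 i ≤ ∑ j, x.2 j * x.2 j :=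
  Finset.single_le_sum (f := fun j => x.2 j * x.2 j) (fun j _ => mul_self_nonneg _) (mem_univ i)

/-- integral classes of given square and bounded nonnegative degree are finite in number -/
lemma finite_of_bb (hn : 2 ≤ n) (c B : ℝ) : {x : NOne s | (∃ D : NInt s, x = toReal D) ∧
    bb n x x = c ∧ 0 ≤ x.1 ∧ x.1 ≤ B}.Finite := by
  have hn' : (0 : ℝ) ≤ (n : ℝ) - 1 := by
    have : (2 : ℝ) ≤ n := by exact_mod_cast hn
    linarith
  refine (int_box_finite (B + Real.sqrt (((n : ℝ) - 1) * B * B - c))).subset ?_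
  rintro x ⟨hD, hc, h0, hB⟩
  have hBnn : 0 ≤ B := h0.trans hB
  refine ⟨hD, ?_, fun i => ?_⟩
  · rw [abs_of_nonneg h0]
    have := Real.sqrt_nonneg (((n : ℝ) - 1) * B * B - c)
    linarith
  · have h1 := coord_sq_le x i
    have h2 : ∑ j, x.2 j * x.2 j = ((n : ℝ) - 1) * x.1 * x.1 - c := by rw [← hc]; unfold bb; ring
    have h3 : ((n : ℝ) - 1) * x.1 * x.1 ≤ ((n : ℝ) - 1) * B * B := by
      have : x.1 * x.1 ≤ B * B := mul_le_mul hB hB h0 hBnn
      nlinarith
    have h4 : |x.2 i| ≤ Real.sqrt (((n : ℝ) - 1) * B * B - c) := by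
      apply Real.abs_le_sqrt
      rw [sq]; linarith
    linarith

/-- Extremal ray in the closed hull of Weyl divisors. -/
lemma extremal_of_mem_closure (hn : 2 ≤ n) {C : Set (NOne s)} (hC : GoodCone s n C) {x : NOne s}
    (hx : SpansExtremalRay C x) (hF : 0 < fDeg n x)
    (hcl : x ∈ closure (PointedCone.hull ℝ (weylSet s n) : Set (NOne s))) :
    ∃ v ∈ weylSet s n, ∃ t : ℝ, 0 < t ∧ x = t • v := by
  classical
  obtain ⟨hxC, hx0, hext⟩ := hx
  have hx1 : 0 ≤ x.1 := hC.nonneg x hxC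
  have h0C : (0 : NOne s) ∈ C := by
    have := hC.smul_mem 0 le_rfl x hxC
    simpa using this
  obtain ⟨B, hB⟩ : ∃ B : ℝ, x.1 + 1 < B * fDeg n x ∧ 0 < B := by
    refine ⟨(x.1 + 2) / fDeg n x, ?_, by positivity⟩
    rw [div_mul_cancel₀ _ hF.ne']; linarith
  set SB : Set (NOne s) := {v | v ∈ weylSet s n ∧ v.1 ≤ B} with hSB
  have hfin : SB.Finite := by
    refine (finite_of_bb (s := s) hn (-1) B).subset ?_
    rintro v ⟨hv, hvB⟩
    obtain ⟨D, hD, rfl⟩ := id hv
    exact ⟨⟨D, rfl⟩, weyl_bb hv, hC.nonneg _ (hC.weyl_mem _ hv), hvB⟩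
  set T : Finset (NOne s) := hfin.toFinset with hT
  have hTmem : ∀ v, v ∈ T ↔ v ∈ weylSet s n ∧ v.1 ≤ B := by
    intro v; rw [hT, Set.Finite.mem_toFinset]
    exact Iff.rfl
  -- decomposition of hull elements
  have hdec : ∀ z ∈ PointedCone.hull ℝ (weylSet s n), ∃ c : NOne s → ℝ, (∀ v, 0 ≤ c v) ∧
      ∃ w ∈ C, z = ∑ v ∈ T, c v • v + w ∧ ∑ v ∈ T, c v + fDeg n w = fDeg n z ∧
        B * fDeg n w ≤ w.1 ∧ 0 ≤ fDeg n w := by
    intro z hz
    refine Submodule.span_induction (p := fun z _ => ∃ c : NOne s → ℝ, (∀ v, 0 ≤ c v) ∧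
      ∃ w ∈ C, z = ∑ v ∈ T, c v • v + w ∧ ∑ v ∈ T, c v + fDeg n w = fDeg n z ∧
        B * fDeg n w ≤ w.1 ∧ 0 ≤ fDeg n w) ?_ ?_ ?_ ?_ hz
    · intro v hv
      by_cases hvB : v.1 ≤ B
      · have hvT : v ∈ T := (hTmem v).2 ⟨hv, hvB⟩
        refine ⟨fun u => if u = v then 1 else 0, fun u => by dsimp only; split_ifs <;> norm_num, 0, h0C,
          ?_, ?_, ?_, ?_⟩
        · simp [hvT]
        · rw [weyl_fDeg hv]; simp [hvT, fDeg]
        · simp [fDeg]
        · simp [fDeg]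
      · refine ⟨fun _ => 0, fun _ => le_rfl, v, hC.weyl_mem v hv, by simp, by simp, ?_, ?_⟩
        · rw [weyl_fDeg hv, mul_one]; exact (not_le.1 hvB).le
        · rw [weyl_fDeg hv]; norm_num
    · exact ⟨fun _ => 0, fun _ => le_rfl, 0, h0C, by simp, by simp [fDeg], by simp [fDeg],
        by simp [fDeg]⟩
    · rintro z z' _ _ ⟨c, hc, w, hw, h1, h2, h3, h4⟩ ⟨c', hc', w', hw', h1', h2', h3', h4'⟩
      refine ⟨fun v => c v + c' v, fun v => add_nonneg (hc v) (hc' v), w + w',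
        hC.add_mem _ hw _ hw', ?_, ?_, ?_, ?_⟩
      · simp only [add_smul, sum_add_distrib]
        rw [h1, h1']; abel
      · rw [fDeg_add, fDeg_add, ← h2, ← h2', sum_add_distrib]; ring
      · rw [fDeg_add, mul_add, Prod.fst_add]; linarith
      · rw [fDeg_add]; linarith
    · rintro ⟨a, ha⟩ z _ ⟨c, hc, w, hw, h1, h2, h3, h4⟩
      refine ⟨fun v => a * c v, fun v => mul_nonneg ha (hc v), a • w, hC.smul_mem a ha w hw,
        ?_, ?_, ?_, ?_⟩
      · change a • z = _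
        rw [h1, smul_add, smul_sum]
        congr 1
        exact sum_congr rfl (fun v _ => by rw [smul_smul])
      · change _ = fDeg n (a • z)
        rw [fDeg_smul, fDeg_smul, ← h2, ← mul_sum]; ring
      · rw [fDeg_smul, Prod.smul_fst, smul_eq_mul]; nlinarith
      · rw [fDeg_smul]; exact mul_nonneg ha h4
  -- compact part
  set M := fDeg n x + 1 with hM
  let K : Set (NOne s) := (fun c : T → ℝ => ∑ v : T, c v • (v : NOne s)) ''
    (Set.Icc (0 : T → ℝ) (fun _ => M))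
  have hKc : IsCompact K := by
    refine IsCompact.image isCompact_Icc ?_
    fun_prop
  let Z : Set (NOne s) := {w | w ∈ C ∧ B * fDeg n w ≤ x.1 + 1}
  have hZ : IsClosed Z := by
    refine hC.closed.inter ?_
    exact isClosed_le (continuous_const.mul continuous_fDeg) continuous_const
  have hKZ : IsClosed (K + Z) := hZ.add_left_of_isCompact hKc
  have hxKZ : x ∈ K + Z := by
    -- neighbourhood of x
    have hopen : IsOpen {z : NOne s | fDeg n z < M ∧ z.1 < x.1 + 1} :=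
      (isOpen_lt continuous_fDeg continuous_const).inter
        (isOpen_lt continuous_fst continuous_const)
    have hxo : x ∈ {z : NOne s | fDeg n z < M ∧ z.1 < x.1 + 1} := by
      constructor
      · simp [hM]
      · linarith
    have h1 : x ∈ closure ({z : NOne s | fDeg n z < M ∧ z.1 < x.1 + 1} ∩
        (PointedCone.hull ℝ (weylSet s n) : Set (NOne s))) :=
      hopen.inter_closure ⟨hxo, hcl⟩
    refine (closure_minimal ?_ hKZ) h1
    rintro z ⟨⟨hz1, hz2⟩, hz⟩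
    obtain ⟨c, hc, w, hw, e1, e2, e3, e4⟩ := hdec z hz
    have hsumC : ∑ v ∈ T, c v • v ∈ C := by
      refine Finset.sum_induction _ (· ∈ C) (fun a b ha hb => hC.add_mem a ha b hb) h0C ?_
      intro v hv
      exact hC.smul_mem _ (hc v) _ (hC.weyl_mem _ ((hTmem v).1 hv).1)
    have hw1 : w.1 ≤ z.1 := by
      rw [e1, Prod.fst_add]
      have := hC.nonneg _ hsumC
      linarith
    rw [Set.mem_add]
    refine ⟨∑ v ∈ T, c v • v, ⟨fun v => c v, ⟨fun v => hc v, fun v => ?_⟩, ?_⟩, w, ⟨hw, ?_⟩,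
      e1.symm⟩
    · have h5 : c v ≤ ∑ u ∈ T, c u :=
        Finset.single_le_sum (f := c) (fun u _ => hc u) v.2
      have h6 : ∑ u ∈ T, c u ≤ fDeg n z := by linarith
      exact (h5.trans h6).trans hz1.le
    · change ∑ v : T, c v • (v : NOne s) = ∑ v ∈ T, c v • v
      rw [Finset.sum_coe_sort T (fun v => c v • v)]
    · linarith
  obtain ⟨x', ⟨c, ⟨hc0, _⟩, hcx⟩, x'', ⟨hx''C, hx''B⟩, hsum⟩ := Set.mem_add.1 hxKZ
  have hvC : ∀ v : T, (v : NOne s) ∈ weylSet s n := fun v => ((hTmem v).1 v.2).1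
  have hx'C : x' ∈ C := by
    rw [← hcx]
    refine Finset.sum_induction _ (· ∈ C) (fun a b ha hb => hC.add_mem a ha b hb) h0C ?_
    intro v _
    exact hC.smul_mem _ (hc0 v) _ (hC.weyl_mem _ (hvC v))
  have hxray : x ∈ ray x := ⟨1, zero_le_one, (one_smul _ _).symm⟩
  obtain ⟨⟨t', ht', hx't⟩, ⟨t'', ht'', hx''t⟩⟩ := hext x' hx'C x'' hx''C (by rw [hsum]; exact hxray)
  have hFx : fDeg n x' + fDeg n x'' = fDeg n x := by rw [← fDeg_add, hsum]
  have hF' : fDeg n x'' < fDeg n x := by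
    have h7 : B * fDeg n x'' < B * fDeg n x := lt_of_le_of_lt hx''B hB.1
    exact lt_of_mul_lt_mul_left h7 hB.2.le
  have hF'' : 0 < fDeg n x' := by linarith
  -- some coefficient is positive
  obtain ⟨v, hv⟩ : ∃ v : T, 0 < c v := by
    by_contra hcon
    push Not at hcon
    have : x' = 0 := by
      rw [← hcx]
      refine Finset.sum_eq_zero fun v _ => ?_
      have : c v = 0 := le_antisymm (hcon v) (hc0 v)
      rw [this, zero_smul]
    rw [this] at hF''
    simp [fDeg] at hF''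
  have hsplit : c v • (v : NOne s) + ∑ u ∈ (Finset.univ.erase v : Finset T), c u • (u : NOne s)
      = x' := by
    rw [← hcx]
    exact Finset.add_sum_erase (Finset.univ : Finset T) (fun u : T => c u • (u : NOne s))
      (mem_univ v)
  have hrest : ∑ u ∈ (Finset.univ.erase v : Finset T), c u • (u : NOne s) ∈ C := by
    refine Finset.sum_induction _ (· ∈ C) (fun a b ha hb => hC.add_mem a ha b hb) h0C ?_
    intro v _
    exact hC.smul_mem _ (hc0 v) _ (hC.weyl_mem _ (hvC v))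
  obtain ⟨⟨r, hr, hrv⟩, _⟩ := hext (c v • (v : NOne s))
    (hC.smul_mem _ (hc0 v) _ (hC.weyl_mem _ (hvC v))) _ hrest
    (by rw [hsplit]; exact ⟨t', ht', hx't⟩)
  have hFv : c v = r * fDeg n x := by
    have := congrArg (fDeg n) hrv
    rw [fDeg_smul, fDeg_smul, weyl_fDeg (hvC v), mul_one] at this
    exact this
  have hrpos : 0 < r := by
    rcases hr.lt_or_eq with h | h
    · exact h
    · exfalso; rw [← h, zero_mul] at hFv; linarith
  refine ⟨v, hvC v, c v / r, div_pos hv hrpos, ?_⟩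
  rw [div_eq_inv_mul, ← smul_smul, hrv, smul_smul, inv_mul_cancel₀ hrpos.ne', one_smul]

end Pool.Agent.H689R3.Weyl
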