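import Pool.Agent.H689R3.WeylDefs

/-!
Hypersurfaces with prescribed multiplicities at points of projective space.
-/

namespace Pool.Agent.H689R3.Weyl

open Finset MvPolynomial

variable {s n : ℕ}

/-- The form `f` vanishes to order at least `m` at the point with homogeneous coordinates `v`:
it lies in the `m`-th power of the maximal ideal of polynomials vanishing at `v`
(no condition if `m ≤ 0`). -/
def VanishesToOrder (v : Fin (n + 1) → ℂ) (m : ℤ) (f : MvPolynomial (Fin (n + 1)) ℂ) : Prop :=
  f ∈ (RingHom.ker (MvPolynomial.eval v)) ^ m.toNat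

/-- The class `d H - ∑ m i E i` is effective on the blow-up of projective `n`-space at the
points `p i`: there is a nonzero form of degree `d` vanishing to order at least `m i` at `p i`. -/
def IsEffective (p : Fin s → Fin (n + 1) → ℂ) (D : NInt s) : Prop :=
  0 ≤ D.1 ∧ ∃ f : MvPolynomial (Fin (n + 1)) ℂ, f ≠ 0 ∧ f.IsHomogeneous D.1.toNat ∧
    ∀ i, VanishesToOrder (p i) (D.2 i) f

/-- translation of variables -/
noncomputable def shift (v : Fin (n + 1) → ℂ) :
    MvPolynomial (Fin (n + 1)) ℂ →ₐ[ℂ] MvPolynomial (Fin (n + 1)) ℂ :=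
  aeval (fun l => X l + C (v l))

lemma shift_shift (v : Fin (n + 1) → ℂ) (f : MvPolynomial (Fin (n + 1)) ℂ) :
    shift (-v) (shift v f) = f := by
  have h : (shift (-v)).comp (shift v) = AlgHom.id ℂ _ := by
    apply MvPolynomial.algHom_ext
    intro i
    simp [shift]
  exact DFunLike.congr_fun h f

lemma ker_eval_zero : RingHom.ker (MvPolynomial.eval (0 : Fin (n + 1) → ℂ)) =
    idealOfVars (Fin (n + 1)) ℂ := by
  ext f
  rw [RingHom.mem_ker]
  have h := mem_pow_idealOfVars_iff' (σ := Fin (n + 1)) (R := ℂ) 1 f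
  rw [pow_one] at h
  rw [h]
  constructor
  · intro h0 x hx
    have : x = 0 := by
      have : x.degree = 0 := by omega
      exact (Finsupp.degree_eq_zero_iff x).1 this
    rw [this]
    rw [← constantCoeff_eq, ← eval_zero] at *
    exact h0
  · intro h0
    have := h0 0 (by simp)
    rw [← constantCoeff_eq, ← eval_zero] at this
    exact this

lemma shift_mem (v : Fin (n + 1) → ℂ) (w : Fin (n + 1) → ℂ) (m : ℕ)
    (f : MvPolynomial (Fin (n + 1)) ℂ)
    (hf : f ∈ (RingHom.ker (MvPolynomial.eval (v + w))) ^ m) :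
    shift v f ∈ (RingHom.ker (MvPolynomial.eval w)) ^ m := by
  have h1 : Ideal.map (shift v) (RingHom.ker (MvPolynomial.eval (v + w))) ≤
      RingHom.ker (MvPolynomial.eval w) := by
    rw [Ideal.map_le_iff_le_comap]
    intro g hg
    rw [Ideal.mem_comap, RingHom.mem_ker]
    rw [RingHom.mem_ker] at hg
    have h2 : (MvPolynomial.eval w) (shift v g) = MvPolynomial.eval (v + w) g := by
      have : ((MvPolynomial.eval w).comp (shift v).toRingHom) = MvPolynomial.eval (v + w) := by
        apply MvPolynomial.ringHom_ext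
        · intro r; simp [shift]
        · intro i; simp [shift, add_comm]
      exact DFunLike.congr_fun this g
    rw [h2, hg]
  have h3 := Ideal.mem_map_of_mem (shift v) hf
  rw [Ideal.map_pow] at h3
  exact Ideal.pow_right_mono h1 m h3

lemma mem_ker_pow_iff (v : Fin (n + 1) → ℂ) (m : ℕ) (f : MvPolynomial (Fin (n + 1)) ℂ) :
    f ∈ (RingHom.ker (MvPolynomial.eval v)) ^ m ↔
      ∀ b : Fin (n + 1) →₀ ℕ, b.degree < m → coeff b (shift v f) = 0 := by
  rw [← mem_pow_idealOfVars_iff', ← ker_eval_zero]
  constructor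
  · intro h
    apply shift_mem
    simpa using h
  · intro h
    have := shift_mem (-v) v m (shift v f) (by simpa using h)
    rwa [shift_shift] at this

/-- coordinate points -/
def bas (i : Fin (n + 1)) : Fin (n + 1) → ℂ := Pi.single i 1

lemma homog_degree {d : ℕ} {f : MvPolynomial (Fin (n + 1)) ℂ} (hf : f.IsHomogeneous d)
    {a : Fin (n + 1) →₀ ℕ} (ha : a ∈ f.support) : a.degree = d := by
  have := hf (mem_support_iff.1 ha)
  rw [← this]
  simp [Finsupp.weight_apply, Finsupp.degree_eq_sum, Finsupp.sum_fintype]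

/-- multiplicity at a coordinate point bounds exponents -/
lemma exponent_le {d m : ℕ} {f : MvPolynomial (Fin (n + 1)) ℂ} (hf : f.IsHomogeneous d)
    (i : Fin (n + 1)) (hm : f ∈ (RingHom.ker (MvPolynomial.eval (bas i))) ^ m)
    {a : Fin (n + 1) →₀ ℕ} (ha : a ∈ f.support) : a i + m ≤ d := by
  classical
  by_contra hlt
  push Not at hlt
  let ψ : MvPolynomial (Fin (n + 1)) ℂ →ₐ[ℂ] MvPolynomial (Fin (n + 1)) ℂ :=
    aeval (fun l => if l = i then 1 else X l)
  have h1 : Ideal.map ψ (RingHom.ker (MvPolynomial.eval (bas i))) ≤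
      idealOfVars (Fin (n + 1)) ℂ := by
    rw [← ker_eval_zero, Ideal.map_le_iff_le_comap]
    intro g hg
    rw [Ideal.mem_comap, RingHom.mem_ker]
    rw [RingHom.mem_ker] at hg
    have h2 : (MvPolynomial.eval 0) (ψ g) = MvPolynomial.eval (bas i) g := by
      have : ((MvPolynomial.eval 0).comp ψ.toRingHom) = MvPolynomial.eval (bas i) := by
        apply MvPolynomial.ringHom_ext
        · intro r; simp [ψ]
        · intro l
          by_cases hl : l = i
          · subst hl; simp [ψ, bas]
          · simp [ψ, bas, hl]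
      exact DFunLike.congr_fun this g
    rw [h2, hg]
  have h3 := Ideal.mem_map_of_mem ψ hm
  rw [Ideal.map_pow] at h3
  have h4 := Ideal.pow_right_mono h1 m h3
  rw [mem_pow_idealOfVars_iff'] at h4
  have hdeg := homog_degree hf ha
  have hsplit : ∀ b : Fin (n + 1) →₀ ℕ, (b.erase i).degree + b i = b.degree := by
    intro b
    rw [Finsupp.degree_eq_sum, Finsupp.degree_eq_sum, ← Finset.add_sum_erase _ _ (mem_univ i),
      ← Finset.add_sum_erase _ (fun l => b l) (mem_univ i), Finsupp.erase_same, zero_add, add_comm]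
    congr 1
    refine Finset.sum_congr rfl fun l hl => ?_
    rw [Finsupp.erase_ne (Finset.ne_of_mem_erase hl)]
  have h5 := h4 (a.erase i) (by have := hsplit a; omega)
  -- compute the coefficient
  have h6 : ∀ (b : Fin (n + 1) →₀ ℕ) (c : ℂ), ψ (monomial b c) = monomial (b.erase i) c := by
    intro b c
    rw [aeval_monomial, Finsupp.prod_fintype _ _ (by intro; simp)]
    rw [monomial_eq, Finsupp.prod_fintype _ _ (by intro; simp)]
    congr 1
    refine Finset.prod_congr rfl fun l _ => ?_
    by_cases hl : l = i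
    · subst hl; simp
    · simp [hl]
  have h7 : ψ f = ∑ b ∈ f.support, monomial (b.erase i) (coeff b f) := by
    conv_lhs => rw [← f.support_sum_monomial_coeff]
    rw [map_sum]
    exact Finset.sum_congr rfl fun b _ => h6 b _
  rw [h7, coeff_sum] at h5
  rw [Finset.sum_eq_single a] at h5
  · rw [coeff_monomial, if_pos rfl] at h5
    exact (mem_support_iff.1 ha) h5
  · intro b hb hba
    rw [coeff_monomial, if_neg]
    intro heq
    apply hba
    have h8 := hsplit a
    have h9 := hsplit b
    have h10 := homog_degree hf hb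
    rw [heq] at h9
    have h11 : b i = a i := by omega
    ext l
    by_cases hl : l = i
    · subst hl; exact h11
    · have := DFunLike.congr_fun heq l
      rwa [Finsupp.erase_ne hl, Finsupp.erase_ne hl] at this
  · intro h; exact absurd ha h

/-- bounds on exponents give multiplicity at a coordinate point -/
lemma mem_of_exponents {m : ℕ} {f : MvPolynomial (Fin (n + 1)) ℂ} (i : Fin (n + 1))
    (h : ∀ a ∈ f.support, m ≤ ∑ l ∈ univ.erase i, a l) :
    f ∈ (RingHom.ker (MvPolynomial.eval (bas i))) ^ m := by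
  classical
  rw [← f.support_sum_monomial_coeff]
  refine Ideal.sum_mem _ fun a ha => ?_
  rw [monomial_eq]
  refine Ideal.mul_mem_left _ _ ?_
  rw [Finsupp.prod_fintype _ _ (by intro; simp), ← Finset.mul_prod_erase _ _ (mem_univ i)]
  refine Ideal.mul_mem_left _ _ ?_
  have h1 : ∏ l ∈ univ.erase i, (X l : MvPolynomial (Fin (n + 1)) ℂ) ^ a l ∈
      (RingHom.ker (MvPolynomial.eval (bas i))) ^ (∑ l ∈ univ.erase i, a l) := by
    rw [← Finset.prod_pow_eq_pow_sum]
    refine Ideal.prod_mem_prod fun l hl => ?_
    refine Ideal.pow_mem_pow ?_ _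
    rw [RingHom.mem_ker]
    simp [bas, Finset.ne_of_mem_erase hl]
  exact Ideal.pow_le_pow_right (h a ha) h1

end Pool.Agent.H689R3.Weyl
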