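import Pool.Agent.H689R3.WeylGeomA

/-!
The Cremona transformation on forms.
-/

namespace Pool.Agent.H689R3.Weyl

open Finset MvPolynomial

variable {s n : ℕ}

/-- the reversed polynomial -/
noncomputable def rev (N : Fin (n + 1) →₀ ℕ) (f : MvPolynomial (Fin (n + 1)) ℂ) :
    MvPolynomial (Fin (n + 1)) ℂ :=
  ∑ a ∈ f.support, monomial (N - a) (coeff a f)

lemma coeff_rev {N : Fin (n + 1) →₀ ℕ} {f : MvPolynomial (Fin (n + 1)) ℂ}
    (hN : ∀ a ∈ f.support, a ≤ N) {a : Fin (n + 1) →₀ ℕ} (ha : a ∈ f.support) :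
    coeff (N - a) (rev N f) = coeff a f := by
  classical
  unfold rev
  rw [coeff_sum, Finset.sum_eq_single a]
  · rw [coeff_monomial, if_pos rfl]
  · intro b hb hba
    rw [coeff_monomial, if_neg]
    intro h
    apply hba
    have h1 := tsub_add_cancel_of_le (hN a ha)
    have h2 := tsub_add_cancel_of_le (hN b hb)
    rw [h] at h2
    exact add_left_cancel (h2.trans h1.symm)
  · intro h; exact absurd ha h

lemma mem_support_rev {N : Fin (n + 1) →₀ ℕ} {f : MvPolynomial (Fin (n + 1)) ℂ}
    {b : Fin (n + 1) →₀ ℕ} (hb : b ∈ (rev N f).support) : ∃ a ∈ f.support, b = N - a := by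
  classical
  unfold rev at hb
  have h := MvPolynomial.support_sum hb
  rw [Finset.mem_biUnion] at h
  obtain ⟨a, ha, hab⟩ := h
  refine ⟨a, ha, ?_⟩
  have := MvPolynomial.support_monomial_subset hab
  simpa using this

lemma rev_ne_zero {N : Fin (n + 1) →₀ ℕ} {f : MvPolynomial (Fin (n + 1)) ℂ}
    (hN : ∀ a ∈ f.support, a ≤ N) (hf : f ≠ 0) : rev N f ≠ 0 := by
  obtain ⟨a, ha⟩ := MvPolynomial.support_nonempty.2 hf
  intro h0
  have := coeff_rev hN ha
  rw [h0, coeff_zero] at this
  exact (mem_support_iff.1 ha) this.symm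

lemma rev_homog {N : Fin (n + 1) →₀ ℕ} {f : MvPolynomial (Fin (n + 1)) ℂ} {d : ℕ}
    (hf : f.IsHomogeneous d) (hN : ∀ a ∈ f.support, a ≤ N) :
    (rev N f).IsHomogeneous (N.degree - d) := by
  unfold rev
  refine MvPolynomial.IsHomogeneous.sum _ _ _ fun a ha => ?_
  apply isHomogeneous_monomial
  have h1 := tsub_add_cancel_of_le (hN a ha)
  have h2 : (N - a).degree + a.degree = N.degree := by rw [← map_add, h1]
  have h3 := homog_degree hf ha
  omega

/-- multiplicity of the reversed polynomial at the inverse point -/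
lemma rev_mem {N : Fin (n + 1) →₀ ℕ} {f : MvPolynomial (Fin (n + 1)) ℂ}
    (hN : ∀ a ∈ f.support, a ≤ N) (v : Fin (n + 1) → ℂ) (hv : ∀ l, v l ≠ 0) (m : ℕ)
    (hf : f ∈ (RingHom.ker (MvPolynomial.eval v)) ^ m) :
    rev N f ∈ (RingHom.ker (MvPolynomial.eval (fun l => (v l)⁻¹))) ^ m := by
  classical
  rcases Nat.eq_zero_or_pos m with hm | hm
  · subst hm; simp
  set w : Fin (n + 1) → ℂ := fun l => (v l)⁻¹ with hw
  set J := RingHom.ker (MvPolynomial.eval w) with hJ
  let B := MvPolynomial (Fin (n + 1)) ℂ ⧸ J ^ m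
  let π : MvPolynomial (Fin (n + 1)) ℂ →ₐ[ℂ] B := Ideal.Quotient.mkₐ ℂ (J ^ m)
  have hπ : ∀ g, π g = 0 ↔ g ∈ J ^ m := by
    intro g
    exact Ideal.Quotient.eq_zero_iff_mem
  have hunit : ∀ l, IsUnit (π (X l)) := by
    intro l
    have h1 : π (X l) = algebraMap ℂ B (w l) + π (X l - C (w l)) := by
      rw [map_sub]
      have : π (C (w l)) = algebraMap ℂ B (w l) := by
        rw [← MvPolynomial.algebraMap_eq]; exact π.commutes _
      rw [this]; ring
    rw [h1]
    have hnil : IsNilpotent (π (X l - C (w l))) := by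
      refine ⟨m, ?_⟩
      rw [← map_pow, hπ]
      apply Ideal.pow_mem_pow
      rw [hJ, RingHom.mem_ker]; simp
    have hu : IsUnit (algebraMap ℂ B (w l)) := by
      apply IsUnit.map
      exact isUnit_iff_ne_zero.2 (by rw [hw]; exact inv_ne_zero (hv l))
    exact hnil.isUnit_add_left_of_commute hu (Commute.all _ _)
  choose u hu using hunit
  let φ : MvPolynomial (Fin (n + 1)) ℂ →ₐ[ℂ] B := aeval (fun l => ((u l)⁻¹ : Bˣ).1)
  -- residue map
  have hle : J ^ m ≤ RingHom.ker (MvPolynomial.eval w) := Ideal.pow_le_self hm.ne'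
  let χ : B →+* ℂ := Ideal.Quotient.lift (J ^ m) (MvPolynomial.eval w) (fun a ha => hle ha)
  have hχπ : ∀ g, χ (π g) = MvPolynomial.eval w g := fun g => Ideal.Quotient.lift_mk _ _ _
  have hχφ : ∀ g, χ (φ g) = MvPolynomial.eval v g := by
    intro g
    have : (χ.comp φ.toRingHom) = MvPolynomial.eval v := by
      apply MvPolynomial.ringHom_ext
      · intro r
        have h1 : φ (C r) = π (C r) := by
          rw [← MvPolynomial.algebraMap_eq, φ.commutes, π.commutes]
        change χ (φ (C r)) = _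
        rw [h1, hχπ]; simp
      · intro l
        change χ (φ (X l)) = _
        have h1 : φ (X l) = ((u l)⁻¹ : Bˣ).1 := by simp [φ]
        rw [h1, eval_X]
        have h2 : χ ((u l)⁻¹ : Bˣ).1 * χ (u l).1 = 1 := by
          rw [← map_mul, Units.inv_mul, map_one]
        rw [hu l, hχπ, eval_X] at h2
        have h3 : w l ≠ 0 := by rw [hw]; exact inv_ne_zero (hv l)
        have h4 : χ ((u l)⁻¹ : Bˣ).1 = (w l)⁻¹ := eq_inv_of_mul_eq_one_left h2
        rw [h4, hw, inv_inv]
    exact DFunLike.congr_fun this g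
  have hkerχ : ∀ b : B, χ b = 0 → b ∈ Ideal.map π J := by
    intro b hb
    obtain ⟨g, rfl⟩ := Ideal.Quotient.mkₐ_surjective ℂ (J ^ m) b
    have : g ∈ J := by
      rw [hJ, RingHom.mem_ker, ← hχπ]; exact hb
    exact Ideal.mem_map_of_mem π this
  have hmapφ : Ideal.map φ (RingHom.ker (MvPolynomial.eval v)) ≤ Ideal.map π J := by
    rw [Ideal.map_le_iff_le_comap]
    intro g hg
    rw [Ideal.mem_comap]
    apply hkerχ
    rw [hχφ]; exact hg
  have hφf : φ f = 0 := by
    have h1 := Ideal.mem_map_of_mem φ hf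
    rw [Ideal.map_pow] at h1
    have h2 := Ideal.pow_right_mono hmapφ m h1
    rw [← Ideal.map_pow] at h2
    have h3 : Ideal.map π (J ^ m) = ⊥ := by
      rw [Ideal.map_eq_bot_iff_le_ker]
      intro g hg
      rw [RingHom.mem_ker]
      exact (hπ g).2 hg
    rw [h3] at h2
    exact h2
  rw [← hπ]
  have hkey : π (rev N f) = (∏ l, π (X l) ^ N l) * φ f := by
    conv_rhs => rw [← f.support_sum_monomial_coeff]
    unfold rev
    rw [map_sum, map_sum, Finset.mul_sum]
    refine Finset.sum_congr rfl fun a ha => ?_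
    have h1 : π (monomial (N - a) (coeff a f)) =
        algebraMap ℂ B (coeff a f) * ∏ l, π (X l) ^ (N l - a l) := by
      rw [monomial_eq, Finsupp.prod_fintype _ _ (by intro; simp), map_mul, map_prod]
      congr 1
    have h2 : φ (monomial a (coeff a f)) =
        algebraMap ℂ B (coeff a f) * ∏ l, ((u l)⁻¹ : Bˣ).1 ^ a l := by
      rw [aeval_monomial, Finsupp.prod_fintype _ _ (by intro; simp)]
    rw [h1, h2]
    rw [mul_left_comm, ← Finset.prod_mul_distrib]
    congr 1
    refine Finset.prod_congr rfl fun l _ => ?_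
    rw [← hu l]
    have h3 : N l = (N l - a l) + a l := (tsub_add_cancel_of_le (hN a ha l)).symm
    conv_rhs => rw [h3, pow_add, mul_assoc, ← mul_pow, Units.mul_inv, one_pow, mul_one]
  rw [hkey, hφf, mul_zero]

/-- linear change of coordinates -/
lemma effective_linear {p : Fin s → Fin (n + 1) → ℂ} {D : NInt s} (h : IsEffective p D)
    (A : Matrix (Fin (n + 1)) (Fin (n + 1)) ℂ) (hA : IsUnit A.det) :
    IsEffective (fun i => A.mulVec (p i)) D := by
  obtain ⟨h0, f, hf0, hf, hm⟩ := h
  let φ : MvPolynomial (Fin (n + 1)) ℂ →ₐ[ℂ] MvPolynomial (Fin (n + 1)) ℂ :=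
    aeval (fun l => ∑ k, C (A⁻¹ l k) * X k)
  have heval : ∀ (q : Fin (n + 1) → ℂ) (g : MvPolynomial (Fin (n + 1)) ℂ),
      MvPolynomial.eval (A.mulVec q) (φ g) = MvPolynomial.eval q g := by
    intro q g
    have : ((MvPolynomial.eval (A.mulVec q)).comp φ.toRingHom) = MvPolynomial.eval q := by
      apply MvPolynomial.ringHom_ext
      · intro r; simp [φ]
      · intro l
        simp only [RingHom.comp_apply, AlgHom.toRingHom_eq_coe, RingHom.coe_coe, φ, aeval_X,
          map_sum, map_mul, eval_C, eval_X]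
        have : ∑ x, A⁻¹ l x * A.mulVec q x = (A⁻¹.mulVec (A.mulVec q)) l := rfl
        rw [this, Matrix.mulVec_mulVec, Matrix.nonsing_inv_mul _ hA, Matrix.one_mulVec]
    exact DFunLike.congr_fun this g
  refine ⟨h0, φ f, ?_, ?_, ?_⟩
  · intro h1
    apply hf0
    apply MvPolynomial.funext
    intro q
    rw [← heval, h1, map_zero, map_zero]
  · have h2 := hf.aeval (fun l => ∑ k, C (A⁻¹ l k) * X k) (n := 1) (S := ℂ) (fun l => by
      refine MvPolynomial.IsHomogeneous.sum _ _ _ fun k _ => ?_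
      have := (isHomogeneous_C (Fin (n + 1)) (A⁻¹ l k)).mul (isHomogeneous_X ℂ k)
      simpa using this)
    rw [one_mul] at h2
    exact h2
  · intro i
    have hle : Ideal.map φ (RingHom.ker (MvPolynomial.eval (p i))) ≤
        RingHom.ker (MvPolynomial.eval (A.mulVec (p i))) := by
      rw [Ideal.map_le_iff_le_comap]
      intro g hg
      rw [Ideal.mem_comap, RingHom.mem_ker, heval]
      exact hg
    have h1 := Ideal.mem_map_of_mem φ (hm i)
    rw [Ideal.map_pow] at h1
    exact Ideal.pow_right_mono hle _ h1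

/-- Cremona transformation for points in standard position -/
lemma effective_crem_std (I : Finset (Fin s)) (e : Fin (n + 1) ≃ I)
    {c : Fin s → Fin (n + 1) → ℂ} (hc1 : ∀ l, c (e l) = bas l)
    (hc2 : ∀ j, j ∉ I → ∀ l, c j l ≠ 0) {D : NInt s} (h : IsEffective c D) :
    IsEffective (fun j l => (c j l)⁻¹) (cremona n I D) := by
  classical
  obtain ⟨h0, f, hf0, hf, hm⟩ := h
  obtain ⟨a₀, ha₀⟩ := MvPolynomial.support_nonempty.2 hf0
  have hexp : ∀ a ∈ f.support, ∀ l, (a l : ℤ) + D.2 (e l) ≤ D.1 := by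
    intro a ha l
    have h1 := hm (e l)
    unfold VanishesToOrder at h1
    rw [hc1 l] at h1
    have h2 := exponent_le hf l h1 ha
    have h3 := Int.self_le_toNat (D.2 (e l))
    have h4 : (D.1.toNat : ℤ) = D.1 := Int.toNat_of_nonneg h0
    have h5 : (a l : ℤ) + ((D.2 (e l)).toNat : ℤ) ≤ (D.1.toNat : ℤ) := by exact_mod_cast h2
    omega
  let N : Fin (n + 1) →₀ ℕ := Finsupp.equivFunOnFinite.symm (fun l => (D.1 - D.2 (e l)).toNat)
  have hNl : ∀ l, (N l : ℤ) = D.1 - D.2 (e l) := by
    intro l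
    have h1 := hexp a₀ ha₀ l
    have h2 : N l = (D.1 - D.2 (e l)).toNat := rfl
    rw [h2]
    exact Int.toNat_of_nonneg (by have := Int.natCast_nonneg (a₀ l); omega)
  have hN : ∀ a ∈ f.support, a ≤ N := by
    intro a ha l
    have h1 := hexp a ha l
    have h2 := hNl l
    have : (a l : ℤ) ≤ N l := by omega
    exact_mod_cast this
  have hsumI : ∑ l, D.2 (e l) = ∑ i ∈ I, D.2 i := by
    rw [← Finset.sum_coe_sort I (fun i => D.2 i)]
    exact Equiv.sum_comp e (fun i : I => D.2 i)
  have hNdeg : (N.degree : ℤ) = ((n : ℤ) + 1) * D.1 - ∑ i ∈ I, D.2 i := by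
    rw [Finsupp.degree_eq_sum]
    push_cast
    rw [Finset.sum_congr rfl (fun l _ => hNl l), Finset.sum_sub_distrib, hsumI]
    simp
  have hk : (cremona n I D).1 = (N.degree : ℤ) - D.1 := by
    rw [hNdeg]; unfold cremona; ring
  have hdle : D.1.toNat ≤ N.degree := by
    rw [← homog_degree hf ha₀]
    exact Finsupp.degree_mono (hN a₀ ha₀)
  have h4 : (D.1.toNat : ℤ) = D.1 := Int.toNat_of_nonneg h0
  have hdeg : (cremona n I D).1.toNat = N.degree - D.1.toNat := by
    rw [hk]; omega
  refine ⟨by rw [hk]; omega, rev N f, rev_ne_zero hN hf0, ?_, ?_⟩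
  · rw [hdeg]; exact rev_homog hf hN
  · intro j
    by_cases hj : j ∈ I
    · obtain ⟨l, hl⟩ := e.surjective ⟨j, hj⟩
      have hjl : j = e l := by rw [hl]
      have hpt : (fun l' => (c j l')⁻¹) = bas l := by
        rw [hjl, hc1 l]
        funext l'
        by_cases hll : l' = l
        · subst hll; simp [bas]
        · simp [bas, hll]
      change rev N f ∈ RingHom.ker (MvPolynomial.eval (fun l' => (c j l')⁻¹)) ^ _
      rw [hpt]
      apply mem_of_exponents
      intro b hb
      obtain ⟨a, ha, rfl⟩ := mem_support_rev hb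
      have hm' : (cremona n I D).2 j = D.2 j + ((cremona n I D).1 - D.1) := by
        simp only [cremona, if_pos hj]; ring
      have h5 : (N - a).degree = N.degree - D.1.toNat := by
        have h1 := tsub_add_cancel_of_le (hN a ha)
        have h2 : (N - a).degree + a.degree = N.degree := by rw [← map_add, h1]
        have h3 := homog_degree hf ha
        omega
      have h6 : (N - a) l + ∑ l' ∈ univ.erase l, (N - a) l' = (N - a).degree := by
        rw [Finsupp.degree_eq_sum]
        exact Finset.add_sum_erase _ _ (mem_univ l)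
      have h7 : ((N - a) l : ℤ) = N l - a l := by
        have := hN a ha l
        rw [Finsupp.tsub_apply]; omega
      have h8 := hNl l
      rw [← hjl] at h8
      rw [hm', hk]
      have h9 := Int.natCast_nonneg (a l)
      omega
    · have hm' : (cremona n I D).2 j = D.2 j := by simp [cremona, hj]
      rw [hm']
      exact rev_mem hN (c j) (hc2 j hj) _ (hm j)

end Pool.Agent.H689R3.Weyl
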