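import Pool.Agent.H689R3.WeylGeomB

/-!
Effectivity is a closed algebraic condition on the points; classes effective for all
configurations of points are stable under the Weyl group.
-/

namespace Pool.Agent.H689R3.Weyl

open Finset MvPolynomial

variable {s n : ℕ}

/-- coordinates of a configuration as a point of affine space -/
def flat (p : Fin s → Fin (n + 1) → ℂ) : Fin s × Fin (n + 1) → ℂ := fun ij => p ij.1 ij.2

/-- exponents of degree d -/
abbrev Ex (n d : ℕ) := ↥(Finset.finsuppAntidiag (univ : Finset (Fin (n + 1))) d)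

lemma mem_Ex {d : ℕ} {a : Fin (n + 1) →₀ ℕ} :
    a ∈ Finset.finsuppAntidiag (univ : Finset (Fin (n + 1))) d ↔ a.degree = d := by
  rw [mem_finsuppAntidiag, Finsupp.degree_eq_sum]
  simp

/-- exponents of degree less than m -/
abbrev Lo (n m : ℕ) := ↥((range m).biUnion
  (fun k => Finset.finsuppAntidiag (univ : Finset (Fin (n + 1))) k))

lemma mem_Lo {m : ℕ} {a : Fin (n + 1) →₀ ℕ} :
    a ∈ (range m).biUnion (fun k => Finset.finsuppAntidiag (univ : Finset (Fin (n + 1))) k) ↔
      a.degree < m := by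
  rw [Finset.mem_biUnion]
  constructor
  · rintro ⟨k, hk, ha⟩
    rw [mem_Ex] at ha; rw [ha]; exact mem_range.1 hk
  · intro h; exact ⟨_, mem_range.2 h, mem_Ex.2 rfl⟩

/-- the matrix of conditions with polynomial entries -/
noncomputable def condMat (d : ℕ) (m : Fin s → ℕ) :
    Matrix (Σ i : Fin s, Lo n (m i)) (Ex n d) (MvPolynomial (Fin s × Fin (n + 1)) ℂ) :=
  fun r a => coeff r.2.1 (∏ l, (X l + C (X (r.1, l))) ^ (a.1 l) :
    MvPolynomial (Fin (n + 1)) (MvPolynomial (Fin s × Fin (n + 1)) ℂ))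

/-- evaluated matrix -/
noncomputable def condMatAt (d : ℕ) (m : Fin s → ℕ) (p : Fin s → Fin (n + 1) → ℂ) :
    Matrix (Σ i : Fin s, Lo n (m i)) (Ex n d) ℂ :=
  (condMat d m).map (MvPolynomial.eval (flat p))

lemma condMatAt_apply (d : ℕ) (m : Fin s → ℕ) (p : Fin s → Fin (n + 1) → ℂ)
    (r : Σ i : Fin s, Lo n (m i)) (a : Ex n d) :
    condMatAt d m p r a = coeff r.2.1 (shift (p r.1) (monomial a.1 1)) := by
  change MvPolynomial.eval (flat p) (coeff r.2.1 (∏ l, (X l + C (X (r.1, l))) ^ (a.1 l) :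
    MvPolynomial (Fin (n + 1)) (MvPolynomial (Fin s × Fin (n + 1)) ℂ))) = _
  rw [← coeff_map]
  congr 1
  rw [map_prod]
  unfold shift
  rw [aeval_monomial, Finsupp.prod_fintype _ _ (by intro; simp), map_one, one_mul]
  refine Finset.prod_congr rfl fun l _ => ?_
  simp [flat]

lemma effective_iff (d : ℕ) (D : NInt s) (hD : D.1 = d) (p : Fin s → Fin (n + 1) → ℂ) :
    IsEffective p D ↔ ∃ c : Ex n d → ℂ, c ≠ 0 ∧
      (condMatAt d (fun i => (D.2 i).toNat) p).mulVec c = 0 := by
  classical
  have hcoef : ∀ (c : Ex n d → ℂ) (r : Σ i : Fin s, Lo n ((D.2 i).toNat)),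
      (condMatAt d (fun i => (D.2 i).toNat) p).mulVec c r =
        coeff r.2.1 (shift (p r.1) (∑ a : Ex n d, monomial a.1 (c a))) := by
    intro c r
    rw [map_sum, coeff_sum]
    change ∑ a, condMatAt d (fun i => (D.2 i).toNat) p r a * c a = _
    refine Finset.sum_congr rfl fun a _ => ?_
    rw [condMatAt_apply]
    have : (monomial a.1 (c a) : MvPolynomial (Fin (n + 1)) ℂ) = c a • monomial a.1 1 := by
      rw [smul_monomial, smul_eq_mul, mul_one]
    rw [this, map_smul, coeff_smul, smul_eq_mul, mul_comm]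
  constructor
  · rintro ⟨h0, f, hf0, hf, hm⟩
    have hd : D.1.toNat = d := by rw [hD]; simp
    rw [hd] at hf
    have hfsum : ∑ a : Ex n d, monomial a.1 (coeff a.1 f) = f := by
      rw [Finset.sum_coe_sort (Finset.finsuppAntidiag (univ : Finset (Fin (n + 1))) d)
        (fun a => monomial a (coeff a f))]
      conv_rhs => rw [← f.support_sum_monomial_coeff]
      symm
      refine Finset.sum_subset (fun a ha => mem_Ex.2 (homog_degree hf ha)) ?_
      intro a _ ha
      rw [notMem_support_iff.1 ha, monomial_zero]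
    refine ⟨fun a => coeff a.1 f, ?_, ?_⟩
    · intro hc
      apply hf0
      rw [← hfsum]
      refine Finset.sum_eq_zero fun a _ => ?_
      have := congrFun hc a
      simp only [Pi.zero_apply] at this
      rw [this, monomial_zero]
    · funext r
      rw [hcoef, hfsum]
      have := (mem_ker_pow_iff (p r.1) _ f).1 (hm r.1) r.2.1 (mem_Lo.1 r.2.2)
      rw [this]; rfl
  · rintro ⟨c, hc0, hc⟩
    refine ⟨by rw [hD]; positivity, ∑ a : Ex n d, monomial a.1 (c a), ?_, ?_, ?_⟩
    · intro h
      apply hc0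
      funext a
      have h1 : coeff a.1 (∑ b : Ex n d, monomial b.1 (c b)) = c a := by
        rw [coeff_sum, Finset.sum_eq_single a]
        · rw [coeff_monomial, if_pos rfl]
        · intro b _ hb
          rw [coeff_monomial, if_neg]
          intro h; exact hb (Subtype.ext h)
        · intro h; exact absurd (mem_univ _) h
      rw [h, coeff_zero] at h1
      exact h1.symm
    · have hd : D.1.toNat = d := by rw [hD]; simp
      rw [hd]
      refine MvPolynomial.IsHomogeneous.sum _ _ _ fun a _ => ?_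
      exact isHomogeneous_monomial _ (mem_Ex.1 a.2)
    · intro i
      unfold VanishesToOrder
      rw [mem_ker_pow_iff]
      intro b hb
      have := congrFun hc ⟨i, ⟨b, mem_Lo.2 hb⟩⟩
      rw [hcoef] at this
      exact this

/-- If a class is not effective for some configuration, then effectivity implies a nontrivial
polynomial relation on the points. -/
lemma exists_poly (D : NInt s) (p' : Fin s → Fin (n + 1) → ℂ) (h : ¬ IsEffective p' D) :
    ∃ G : MvPolynomial (Fin s × Fin (n + 1)) ℂ, G ≠ 0 ∧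
      ∀ p, IsEffective p D → MvPolynomial.eval (flat p) G = 0 := by
  classical
  by_cases hneg : D.1 < 0
  · refine ⟨1, one_ne_zero, fun p hp => ?_⟩
    exact absurd hp.1 (not_le.2 hneg)
  push Not at hneg
  obtain ⟨d, hd⟩ := Int.eq_ofNat_of_zero_le hneg
  have hd' : D.1 = (d : ℤ) := hd
  set m : Fin s → ℕ := fun i => (D.2 i).toNat with hm
  rw [effective_iff d D hd' p'] at h
  push Not at h
  have hinj : LinearMap.ker (Matrix.mulVecLin (condMatAt d m p')) = ⊥ := by
    rw [LinearMap.ker_eq_bot']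
    intro c hc
    by_contra hc0
    exact h c hc0 hc
  obtain ⟨g, hg⟩ := LinearMap.exists_leftInverse_of_injective _ hinj
  set R := LinearMap.toMatrix' g with hR
  have hRM : R * condMatAt d m p' = 1 := by
    have h1 := congrArg LinearMap.toMatrix' hg
    rw [LinearMap.toMatrix'_comp, LinearMap.toMatrix'_id] at h1
    rw [← h1]
    congr 1
    rw [← Matrix.toLin'_apply', LinearMap.toMatrix'_toLin']
  let M' : Matrix (Ex n d) (Ex n d) (MvPolynomial (Fin s × Fin (n + 1)) ℂ) :=
    Matrix.of fun i j => ∑ r, C (R i r) * condMat d m r j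
  have heval : ∀ p : Fin s → Fin (n + 1) → ℂ,
      MvPolynomial.eval (flat p) M'.det = (R * condMatAt d m p).det := by
    intro p
    rw [RingHom.map_det]
    congr 1
    ext i j
    rw [RingHom.mapMatrix_apply, Matrix.map_apply]
    change MvPolynomial.eval (flat p) (∑ r, C (R i r) * condMat d m r j) =
      ∑ r, R i r * condMatAt d m p r j
    rw [map_sum]
    refine Finset.sum_congr rfl fun r _ => ?_
    rw [map_mul, eval_C]
    rfl
  refine ⟨M'.det, ?_, ?_⟩
  · intro h0
    have h1 := heval p'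
    rw [h0, hRM, map_zero, Matrix.det_one] at h1
    exact zero_ne_one h1
  · intro p hp
    rw [heval]
    obtain ⟨c, hc0, hc⟩ := (effective_iff d D hd' p).1 hp
    rw [← Matrix.exists_mulVec_eq_zero_iff]
    refine ⟨c, hc0, ?_⟩
    rw [← Matrix.mulVec_mulVec, hc, Matrix.mulVec_zero]

/-- effective for all configurations -/
def EffAll (n : ℕ) (D : NInt s) : Prop := ∀ p : Fin s → Fin (n + 1) → ℂ, IsEffective p D

lemma effAll_exc (i : Fin s) :
    EffAll n ((0, fun j => if j = i then -1 else 0) : NInt s) := by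
  intro p
  refine ⟨le_rfl, 1, one_ne_zero, isHomogeneous_one _ _, fun j => ?_⟩
  unfold VanishesToOrder
  by_cases hj : j = i <;> simp [hj]

lemma effAll_hyper : EffAll n ((1, 0) : NInt s) := by
  intro p
  refine ⟨by norm_num, X 0, X_ne_zero _, isHomogeneous_X _ _, fun j => ?_⟩
  unfold VanishesToOrder
  simp

lemma effAll_perm (σ : Equiv.Perm (Fin s)) (D : NInt s) (h : EffAll n D) :
    EffAll n ((D.1, fun i => D.2 (σ i)) : NInt s) := by
  intro p
  obtain ⟨h0, f, hf0, hf, hm⟩ := h (fun i => p (σ.symm i))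
  refine ⟨h0, f, hf0, hf, fun i => ?_⟩
  have := hm (σ i)
  simpa using this

/-- the matrix with columns the points in I -/
noncomputable def ptMat {I : Finset (Fin s)} (e : Fin (n + 1) ≃ I)
    (p : Fin s → Fin (n + 1) → ℂ) : Matrix (Fin (n + 1)) (Fin (n + 1)) ℂ :=
  fun l k => p (e k) l

lemma effective_crem_of_nondeg {I : Finset (Fin s)} (e : Fin (n + 1) ≃ I) {D : NInt s}
    (h : EffAll n D) (p : Fin s → Fin (n + 1) → ℂ) (hdet : (ptMat e p).det ≠ 0)
    (hcoord : ∀ j, j ∉ I → ∀ l, ((ptMat e p).adjugate.mulVec (p j)) l ≠ 0) :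
    IsEffective p (cremona n I D) := by
  classical
  set A := ptMat e p with hA
  have hunit : IsUnit A.det := isUnit_iff_ne_zero.2 hdet
  let u : Fin s → Fin (n + 1) → ℂ := fun j => A⁻¹.mulVec (p j)
  have hu : ∀ j, j ∉ I → ∀ l, u j l ≠ 0 := by
    intro j hj l
    have h1 : u j l = (A.det)⁻¹ * (A.adjugate.mulVec (p j)) l := by
      change (A⁻¹.mulVec (p j)) l = _
      rw [Matrix.inv_def, Ring.inverse_eq_inv', Matrix.smul_mulVec]; rfl
    rw [h1]
    exact mul_ne_zero (inv_ne_zero hdet) (hcoord j hj l)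
  have hue : ∀ l, u (e l) = bas l := by
    intro l
    have h1 : p (e l) = A.mulVec (bas l) := by
      funext k
      simp [bas, hA, ptMat, Matrix.mulVec_single_one]
    change A⁻¹.mulVec (p (e l)) = _
    rw [h1, Matrix.mulVec_mulVec, Matrix.nonsing_inv_mul _ hunit, Matrix.one_mulVec]
  let c : Fin s → Fin (n + 1) → ℂ := fun j l => (u j l)⁻¹
  have hc1 : ∀ l, c (e l) = bas l := by
    intro l
    funext k
    change (u (e l) k)⁻¹ = _
    rw [hue]
    by_cases hk : k = l
    · subst hk; simp [bas]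
    · simp [bas, hk]
  have h2 := effective_crem_std I e hc1 (fun j hj l => inv_ne_zero (hu j hj l)) (h c)
  have h3 := effective_linear h2 A hunit
  have h4 : (fun i => A.mulVec ((fun j l => (c j l)⁻¹) i)) = p := by
    funext j
    have : (fun l => (c j l)⁻¹) = u j := by
      funext l; exact inv_inv _
    change A.mulVec (fun l => (c j l)⁻¹) = p j
    rw [this]
    change A.mulVec (A⁻¹.mulVec (p j)) = p j
    rw [Matrix.mulVec_mulVec, Matrix.mul_nonsing_inv _ hunit, Matrix.one_mulVec]
  rw [h4] at h3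
  exact h3

/-- the nondegeneracy polynomial -/
noncomputable def ptMatX {I : Finset (Fin s)} (e : Fin (n + 1) ≃ I) :
    Matrix (Fin (n + 1)) (Fin (n + 1)) (MvPolynomial (Fin s × Fin (n + 1)) ℂ) :=
  fun l k => X ((e k : Fin s), l)

lemma eval_ptMatX {I : Finset (Fin s)} (e : Fin (n + 1) ≃ I) (p : Fin s → Fin (n + 1) → ℂ) :
    (ptMatX e).map (MvPolynomial.eval (flat p)) = ptMat e p := by
  ext l k
  simp [ptMatX, ptMat, flat]

noncomputable def nondeg {I : Finset (Fin s)} (e : Fin (n + 1) ≃ I) :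
    MvPolynomial (Fin s × Fin (n + 1)) ℂ :=
  (ptMatX e).det * ∏ j ∈ (univ \ I), ∏ l, ((ptMatX e).adjugate.mulVec (fun k => X (j, k))) l

lemma eval_nondeg {I : Finset (Fin s)} (e : Fin (n + 1) ≃ I) (p : Fin s → Fin (n + 1) → ℂ) :
    MvPolynomial.eval (flat p) (nondeg e) = (ptMat e p).det *
      ∏ j ∈ (univ \ I), ∏ l, ((ptMat e p).adjugate.mulVec (p j)) l := by
  unfold nondeg
  rw [map_mul, RingHom.map_det, RingHom.mapMatrix_apply, eval_ptMatX, map_prod]
  congr 1
  refine Finset.prod_congr rfl fun j _ => ?_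
  rw [map_prod]
  refine Finset.prod_congr rfl fun l _ => ?_
  rw [← eval_ptMatX, ← RingHom.mapMatrix_apply, ← RingHom.map_adjugate]
  simp only [Matrix.mulVec, dotProduct, map_sum, map_mul, eval_X, RingHom.mapMatrix_apply,
    Matrix.map_apply]
  rfl

lemma nondeg_ne_zero {I : Finset (Fin s)} (e : Fin (n + 1) ≃ I) : nondeg e ≠ 0 := by
  classical
  intro h0
  let p : Fin s → Fin (n + 1) → ℂ := fun j => if h : j ∈ I then bas (e.symm ⟨j, h⟩) else 1
  have h1 := eval_nondeg e p
  have h2 : ptMat e p = 1 := by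
    ext l k
    simp [ptMat, p, bas, Matrix.one_apply, Pi.single_apply]
  rw [h0, map_zero, h2, Matrix.det_one, Matrix.adjugate_one, one_mul] at h1
  have h3 : ∏ j ∈ (univ \ I), ∏ l, ((1 : Matrix (Fin (n + 1)) (Fin (n + 1)) ℂ).mulVec (p j)) l
      = 1 := by
    refine Finset.prod_eq_one fun j hj => Finset.prod_eq_one fun l _ => ?_
    have : j ∉ I := (Finset.mem_sdiff.1 hj).2
    simp [p, this]
  rw [h3] at h1
  exact zero_ne_one h1

/-- **Cremona invariance.** -/
lemma effAll_crem (I : Finset (Fin s)) (hI : I.card = n + 1) (D : NInt s) (h : EffAll n D) :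
    EffAll n (cremona n I D) := by
  classical
  by_contra hcon
  unfold EffAll at hcon
  push Not at hcon
  obtain ⟨p', hp'⟩ := hcon
  obtain ⟨G, hG0, hG⟩ := exists_poly _ p' hp'
  let e : Fin (n + 1) ≃ I := (Finset.equivFinOfCardEq hI).symm
  have hprod : G * nondeg e = 0 := by
    apply MvPolynomial.funext
    intro q
    rw [map_zero, map_mul]
    by_cases hq : MvPolynomial.eval q (nondeg e) = 0
    · rw [hq, mul_zero]
    let p : Fin s → Fin (n + 1) → ℂ := fun i l => q (i, l)
    have hqp : flat p = q := rfl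
    have h1 := eval_nondeg e p
    rw [hqp] at h1
    rw [h1] at hq
    have hdet : (ptMat e p).det ≠ 0 := left_ne_zero_of_mul hq
    have hpr := right_ne_zero_of_mul hq
    have hcoord : ∀ j, j ∉ I → ∀ l, ((ptMat e p).adjugate.mulVec (p j)) l ≠ 0 := by
      intro j hj l
      rw [Finset.prod_ne_zero_iff] at hpr
      have h2 := hpr j (Finset.mem_sdiff.2 ⟨mem_univ _, hj⟩)
      rw [Finset.prod_ne_zero_iff] at h2
      exact h2 l (mem_univ _)
    have h3 := hG p (effective_crem_of_nondeg e h p hdet hcoord)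
    rw [hqp] at h3
    rw [h3, zero_mul]
  rcases mul_eq_zero.1 hprod with h1 | h1
  · exact hG0 h1
  · exact nondeg_ne_zero e h1

end Pool.Agent.H689R3.Weyl
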