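import Pool.Agent.H689R3.WeylExtremal

/-!
Descent in the Cremona orbit of an extremal ray of positive degree.
-/

namespace Pool.Agent.H689R3.Weyl

open Finset

variable {s n : ℕ}

/-- classes reachable from `x` by Cremona transformations -/
inductive Orb (n : ℕ) (x : NOne s) : NOne s → Prop
  | refl : Orb n x x
  | step (I : Finset (Fin s)) (hI : I.card = n + 1) (y : NOne s) (h : Orb n x y) :
      Orb n x (crem n I y)

lemma extremal_crem {C : Set (NOne s)} (hC : GoodCone s n C) {I : Finset (Fin s)}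
    (hI : I.card = n + 1) {x : NOne s} (hx : SpansExtremalRay C x) :
    SpansExtremalRay C (crem n I x) := by
  obtain ⟨h1, h2, h3⟩ := hx
  have hray : ∀ y, crem n I y ∈ ray x → y ∈ ray (crem n I x) := by
    rintro y ⟨t, ht, hy⟩
    refine ⟨t, ht, ?_⟩
    rw [← crem_crem hI y, hy, crem_smul]
  refine ⟨hC.crem_mem I hI x h1, ?_, ?_⟩
  · intro h0
    apply h2
    rw [← crem_crem hI x, h0]
    have := crem_smul (n := n) I 0 (0 : NOne s)
    simpa using this
  · rintro y hy z hz ⟨t, ht, hyz⟩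
    have hmem : crem n I y + crem n I z ∈ ray x := by
      refine ⟨t, ht, ?_⟩
      rw [← crem_add, hyz, crem_smul, crem_crem hI]
    obtain ⟨h4, h5⟩ := h3 _ (hC.crem_mem I hI y hy) _ (hC.crem_mem I hI z hz) hmem
    exact ⟨hray y h4, hray z h5⟩

lemma mult_nonneg_of_extremal {C : Set (NOne s)} (hC : GoodCone s n C) {x : NOne s}
    (hx : SpansExtremalRay C x)
    (hno : ¬ ∃ v ∈ weylSet s n, ∃ t : ℝ, 0 < t ∧ x = t • v) (i : Fin s) : 0 ≤ x.2 i := by
  by_contra hneg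
  push Not at hneg
  apply hno
  have hE : toReal ((0, fun j => if j = i then -1 else 0) : NInt s) ∈ weylSet s n :=
    ⟨_, IsWeylDivisor.exc i, rfl⟩
  set e := toReal ((0, fun j => if j = i then -1 else 0) : NInt s) with he
  have hdec : (x.1, Function.update x.2 i 0) + (-x.2 i) • e = x := by
    ext1
    · simp [he, toReal]
    · funext j
      by_cases hj : j = i
      · subst hj; simp [he, toReal]
      · simp [he, toReal, hj, Function.update_of_ne hj]
  have ht : 0 < -x.2 i := by linarith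
  obtain ⟨_, ⟨r, hr, hre⟩⟩ := hx.2.2 _ (hC.trunc x hx.1 i hneg) _
    (hC.smul_mem _ ht.le _ (hC.weyl_mem _ hE)) (by rw [hdec]; exact ⟨1, zero_le_one, by simp⟩)
  have hFr : -x.2 i = r * fDeg n x := by
    have := congrArg (fDeg n) hre
    rw [fDeg_smul, fDeg_smul, weyl_fDeg hE, mul_one] at this
    exact this
  have hrpos : 0 < r := by
    rcases hr.lt_or_eq with h | h
    · exact h
    · exfalso; rw [← h, zero_mul] at hFr; linarith
  refine ⟨e, hE, -x.2 i / r, div_pos ht hrpos, ?_⟩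
  rw [div_eq_inv_mul, ← smul_smul, hre, smul_smul, inv_mul_cancel₀ hrpos.ne', one_smul]

lemma orb_props {C : Set (NOne s)} (hC : GoodCone s n C) {x : NOne s}
    (hx : SpansExtremalRay C x)
    (hno : ¬ ∃ v ∈ weylSet s n, ∃ t : ℝ, 0 < t ∧ x = t • v) {y : NOne s} (hy : Orb n x y) :
    SpansExtremalRay C y ∧ (¬ ∃ v ∈ weylSet s n, ∃ t : ℝ, 0 < t ∧ y = t • v) ∧
      fDeg n y = fDeg n x ∧ bb n y y = bb n x x := by
  induction hy with
  | refl => exact ⟨hx, hno, rfl, rfl⟩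
  | step I hI y _ ih =>
    obtain ⟨h1, h2, h3, h4⟩ := ih
    refine ⟨extremal_crem hC hI h1, ?_, ?_, ?_⟩
    · rintro ⟨v, hv, t, ht, hyt⟩
      apply h2
      refine ⟨crem n I v, crem_mem_weylSet hI hv, t, ht, ?_⟩
      rw [← crem_smul, ← hyt, crem_crem hI]
    · rw [fDeg_crem hI, h3]
    · rw [bb_crem hI, h4]

lemma continuous_bb_self : Continuous (fun y : NOne s => bb n y y) := by
  unfold bb; fun_prop

/-- The class `H`. -/
def hh (s : ℕ) : NOne s := (1, 0)

lemma orbH_props {C : Set (NOne s)} (hC : GoodCone s n C) {g : NOne s} (hg : Orb n (hh s) g) :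
    (∃ D : NInt s, g = toReal D) ∧ bb n g g = (n : ℝ) - 1 ∧ fDeg n g = (n : ℝ) + 1 ∧ g ∈ C := by
  induction hg with
  | refl =>
    refine ⟨⟨(1, 0), ?_⟩, ?_, ?_, hC.hyper_mem⟩
    · ext1 <;> simp [hh, toReal]; rfl
    · simp [hh, bb]
    · simp [hh, fDeg]
  | step I hI y _ ih =>
    obtain ⟨⟨D, hD⟩, h1, h2, h3⟩ := ih
    refine ⟨⟨cremona n I D, ?_⟩, ?_, ?_, hC.crem_mem I hI y h3⟩
    · rw [toReal_cremona, hD]
    · rw [bb_crem hI, h1]
    · rw [fDeg_crem hI, h2]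

lemma orb_transfer {x y : NOne s} (hy : Orb n x y) :
    ∀ h, Orb n (hh s) h → ∃ g, Orb n (hh s) g ∧ bb n h y = bb n g x := by
  induction hy with
  | refl => exact fun h hh' => ⟨h, hh', rfl⟩
  | step I hI y _ ih =>
    intro h hh'
    obtain ⟨g, hg, hge⟩ := ih _ (Orb.step I hI h hh')
    refine ⟨g, hg, ?_⟩
    rw [← hge, bb_crem_left hI]

lemma finite_orbH (hn : 2 ≤ n) {C : Set (NOne s)} (hC : GoodCone s n C) {x : NOne s}
    (hx1 : 0 < x.1) (hF : 0 < fDeg n x) (hq : 0 ≤ bb n x x) (B : ℝ) :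
    {g : NOne s | Orb n (hh s) g ∧ bb n g x ≤ B}.Finite := by
  have hn' : (0 : ℝ) < (n : ℝ) - 1 := by
    have : (2 : ℝ) ≤ n := by exact_mod_cast hn
    linarith
  set κ : NOne s := (((n : ℝ) + 1) / ((n : ℝ) - 1), fun _ => 1) with hκ
  have hbκ : ∀ g : NOne s, bb n g κ = fDeg n g := by
    intro g
    simp only [bb, hκ, fDeg, mul_one]
    field_simp
  set Q := bb n κ κ with hQ
  set c := fDeg n x with hc
  set t := c / (|Q| + 1) with ht
  have hQ1 : 0 < |Q| + 1 := by positivity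
  have htpos : 0 < t := div_pos hF hQ1
  have htQ : t * |Q| < c := by
    rw [ht, div_mul_eq_mul_div, div_lt_iff₀ hQ1]
    nlinarith [abs_nonneg Q]
  set v : NOne s := x + t • κ with hv
  have hbsm : ∀ (a : ℝ) (y z : NOne s), bb n (a • y) z = a * bb n y z := by
    intro a y z
    simp only [bb, Prod.smul_fst, Prod.smul_snd, Pi.smul_apply, smul_eq_mul, mul_assoc,
      ← Finset.mul_sum]; ring
  have hbv : ∀ g : NOne s, bb n g v = bb n g x + t * fDeg n g := by
    intro g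
    rw [bb_comm, hv, bb_add_left, hbsm, bb_comm κ g, hbκ, bb_comm x g]
  have hbvv : bb n v v = bb n x x + 2 * t * c + t * t * Q := by
    rw [hbv v, hv, bb_add_left, hbsm, bb_comm κ x, hbκ, fDeg_add, fDeg_smul]
    rw [← hbκ κ, ← hQ, ← hc]; ring
  have hvpos : 0 < bb n v v := by
    rw [hbvv]
    have h1 : -(t * (t * |Q|)) ≤ t * t * Q := by
      have : -|Q| ≤ Q := neg_abs_le Q
      nlinarith [mul_pos htpos htpos]
    have h2 : t * (t * |Q|) < t * c := mul_lt_mul_of_pos_left htQ htpos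
    have h3 : 0 < t * c := mul_pos htpos hF
    linarith
  have hv1 : 0 < v.1 := by
    have : v.1 = x.1 + t * (((n : ℝ) + 1) / ((n : ℝ) - 1)) := by simp [hv, hκ]
    rw [this]; positivity
  set S := ∑ i, v.2 i * v.2 i with hS
  have hSv : S = ((n : ℝ) - 1) * v.1 * v.1 - bb n v v := by unfold bb; rw [hS]; ring
  have hS0 : 0 ≤ S := Finset.sum_nonneg (fun i _ => mul_self_nonneg _)
  set τ := Real.sqrt (((n : ℝ) - 1) * S) with hτ
  have hτlt : τ < ((n : ℝ) - 1) * v.1 := by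
    rw [hτ, Real.sqrt_lt' (mul_pos hn' hv1), hSv]
    nlinarith [mul_pos hn' hvpos]
  set ε := ((n : ℝ) - 1) * v.1 - τ with hε
  have hεpos : 0 < ε := by rw [hε]; linarith
  refine (finite_of_bb (s := s) hn ((n : ℝ) - 1) ((B + t * ((n : ℝ) + 1)) / ε)).subset ?_
  rintro g ⟨hg, hgB⟩
  obtain ⟨h1, h2, h3, h4⟩ := orbH_props hC hg
  have hg0 := hC.nonneg g h4
  refine ⟨h1, h2, hg0, ?_⟩
  rw [le_div_iff₀ hεpos]
  have h5 : bb n g v ≤ B + t * ((n : ℝ) + 1) := by rw [hbv, h3]; linarith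
  have h6 : ∑ i, g.2 i * v.2 i ≤ g.1 * τ := by
    have hcs := Finset.sum_mul_sq_le_sq_mul_sq (univ : Finset (Fin s)) g.2 v.2
    have h7 : ∑ i, g.2 i ^ 2 = ((n : ℝ) - 1) * (g.1 * g.1) - ((n : ℝ) - 1) := by
      have : ∑ i, g.2 i ^ 2 = ∑ i, g.2 i * g.2 i := Finset.sum_congr rfl (fun i _ => sq _)
      rw [this]
      have h8 : bb n g g = ((n : ℝ) - 1) * g.1 * g.1 - ∑ i, g.2 i * g.2 i := rfl
      linarith
    have h9 : ∑ i, v.2 i ^ 2 = S := Finset.sum_congr rfl (fun i _ => sq _)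
    rw [h7, h9] at hcs
    have h10 : (∑ i, g.2 i * v.2 i) ^ 2 ≤ (g.1 * τ) ^ 2 := by
      rw [mul_pow, hτ, Real.sq_sqrt (mul_nonneg hn'.le hS0)]
      nlinarith
    have h11 : 0 ≤ g.1 * τ := mul_nonneg hg0 (Real.sqrt_nonneg _)
    exact (abs_le_of_sq_le_sq' h10 h11).2
  have h12 : bb n g v = ((n : ℝ) - 1) * g.1 * v.1 - ∑ i, g.2 i * v.2 i := rfl
  rw [hε]
  nlinarith

/-- **Abstract form of the theorem.** -/
theorem extremal_weyl (hn : 2 ≤ n) (hs : n + 1 ≤ s) {C : Set (NOne s)} (hC : GoodCone s n C)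
    {x : NOne s} (hx : SpansExtremalRay C x) (hF : 0 < fDeg n x) :
    ∃ v ∈ weylSet s n, ∃ t : ℝ, 0 < t ∧ x = t • v := by
  by_contra hno
  have hn' : (0 : ℝ) < (n : ℝ) - 1 := by
    have : (2 : ℝ) ≤ n := by exact_mod_cast hn
    linarith
  have hO : ∀ y, Orb n x y → y ∈ C ∧ fDeg n y = fDeg n x ∧ bb n y y = bb n x x ∧
      (∀ i, 0 ≤ y.2 i) ∧ (∀ i, y.2 i ≤ y.1) := by
    intro y hy
    obtain ⟨h1, h2, h3, h4⟩ := orb_props hC hx hno hy
    exact ⟨h1.1, h3, h4, mult_nonneg_of_extremal hC h1 h2, hC.mult_le y h1.1⟩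
  -- closure of the orbit
  let Q : Set (NOne s) := {y | y ∈ C ∧ fDeg n y = fDeg n x ∧ bb n y y = bb n x x ∧
      (∀ i, 0 ≤ y.2 i) ∧ (∀ i, y.2 i ≤ y.1)}
  have hQ : IsClosed Q := by
    refine hC.closed.inter (IsClosed.inter ?_ (IsClosed.inter ?_ (IsClosed.inter ?_ ?_)))
    · exact isClosed_eq continuous_fDeg continuous_const
    · exact isClosed_eq continuous_bb_self continuous_const
    · have : {y : NOne s | ∀ i, 0 ≤ y.2 i} = ⋂ i, {y : NOne s | 0 ≤ y.2 i} := by ext; simp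
      change IsClosed {y : NOne s | ∀ i, 0 ≤ y.2 i}
      rw [this]
      exact isClosed_iInter fun i => isClosed_le continuous_const (by fun_prop)
    · have : {y : NOne s | ∀ i, y.2 i ≤ y.1} = ⋂ i, {y : NOne s | y.2 i ≤ y.1} := by ext; simp
      change IsClosed {y : NOne s | ∀ i, y.2 i ≤ y.1}
      rw [this]
      exact isClosed_iInter fun i => isClosed_le (by fun_prop) (by fun_prop)
  have hclQ : closure {y | Orb n x y} ⊆ Q := closure_minimal (fun y hy => hO y hy) hQ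
  have hclcrem : ∀ I : Finset (Fin s), I.card = n + 1 → ∀ y ∈ closure {y | Orb n x y},
      crem n I y ∈ closure {y | Orb n x y} := by
    intro I hI y hy
    exact map_mem_closure (continuous_crem I) hy (fun z hz => Orb.step I hI z hz)
  have hcompact : IsCompact (closure {y | Orb n x y} ∩ {y | y.1 ≤ x.1}) := by
    refine IsCompact.of_isClosed_subset
      (s := Set.Icc (0 : NOne s) (x.1, fun _ => x.1)) isCompact_Icc ?_ ?_
    · exact isClosed_closure.inter (isClosed_le continuous_fst continuous_const)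
    · rintro y ⟨hyA, hy1⟩
      have hy1' : y.1 ≤ x.1 := hy1
      obtain ⟨h1, h2, h3, h4, h5⟩ := hclQ hyA
      exact ⟨⟨hC.nonneg y h1, h4⟩, ⟨hy1', fun i => (h5 i).trans hy1'⟩⟩
  obtain ⟨z, ⟨hzA, hz1⟩, hzmin⟩ := hcompact.exists_isMinOn
    ⟨x, subset_closure Orb.refl, (le_refl x.1 : x.1 ≤ x.1)⟩ (continuous_fst.continuousOn)
  obtain ⟨hz2, hz3, hz4, hz5, hz6⟩ := hclQ hzA
  have hzk : ∀ I : Finset (Fin s), I.card = n + 1 → 0 ≤ kk n I z := by
    intro I hI
    by_contra hlt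
    push Not at hlt
    have h1 : (crem n I z).1 < z.1 := by
      have : (crem n I z).1 = z.1 + kk n I z := rfl
      linarith
    have h2 := hzmin (show crem n I z ∈ closure {y | Orb n x y} ∩ {y | y.1 ≤ x.1} from
      ⟨hclcrem I hI z hzA, (h1.le.trans hz1 : (crem n I z).1 ≤ x.1)⟩)
    exact absurd h1 (not_lt.2 h2)
  have hq : 0 ≤ bb n x x := by
    rw [← hz4]
    exact bb_self_nonneg hs z hz5 hz6 hzk (by rw [hz3]; exact hF.le)
  have hx1 : 0 < x.1 := by
    have h5 := (hO x Orb.refl).2.2.2.1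
    have h6 : 0 ≤ ∑ i, x.2 i := Finset.sum_nonneg (fun i _ => h5 i)
    unfold fDeg at hF
    have h7 : 0 < ((n : ℝ) + 1) * x.1 := by linarith
    have h8 : (0 : ℝ) < (n : ℝ) + 1 := by positivity
    exact (mul_pos_iff_of_pos_left h8).1 h7
  -- finitely many degrees
  have hfin : {d : ℝ | ∃ y, Orb n x y ∧ y.1 = d ∧ d ≤ x.1}.Finite := by
    refine ((finite_orbH hn hC hx1 hF hq (((n : ℝ) - 1) * x.1)).image
      (fun g => bb n g x / ((n : ℝ) - 1))).subset ?_
    rintro d ⟨y, hy, rfl, hd⟩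
    obtain ⟨g, hg, hge⟩ := orb_transfer hy (hh s) Orb.refl
    have h1 : bb n (hh s) y = ((n : ℝ) - 1) * y.1 := by simp [bb, hh]
    refine ⟨g, ⟨hg, ?_⟩, ?_⟩
    · rw [← hge, h1]; exact mul_le_mul_of_nonneg_left hd hn'.le
    · change bb n g x / ((n : ℝ) - 1) = y.1
      rw [← hge, h1]; field_simp
  obtain ⟨d, ⟨y, hy, hyd, hdx⟩, hdmin⟩ := Set.exists_min_image _ (fun d : ℝ => d) hfin
    ⟨x.1, x, Orb.refl, rfl, le_rfl⟩
  have hyk : ∀ I : Finset (Fin s), I.card = n + 1 → 0 ≤ kk n I y := by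
    intro I hI
    by_contra hlt
    push Not at hlt
    have h1 : (crem n I y).1 < y.1 := by
      have : (crem n I y).1 = y.1 + kk n I y := rfl
      linarith
    have h2 := hdmin _ ⟨crem n I y, Orb.step I hI y hy, rfl, by linarith⟩
    linarith
  obtain ⟨h1, h2, h3, h4⟩ := orb_props hC hx hno hy
  obtain ⟨_, _, _, h5, h6⟩ := hO y hy
  exact h2 (extremal_of_mem_closure hn hC h1 (by rw [h3]; exact hF)
    (mem_closure_hull hn hs y h5 h6 hyk (by rw [h3]; exact hF.le)))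

end Pool.Agent.H689R3.Weyl
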